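import Mathlib
import Pool.Agent.MP_f1b239_ag.Defs

section

set_option autoImplicit false

namespace Pool.Agent.MP_f1b239_ag

open MvPolynomial Module

attribute [local instance] MvPolynomial.weightedGradedAlgebra

section General

variable {σ : Type} (w : σ → ℕ × ℕ)

abbrev Gr (m : ℕ × ℕ) : Submodule ℂ (MvPolynomial σ ℂ) := weightedHomogeneousSubmodule ℂ w m

noncomputable abbrev cmp (m : ℕ × ℕ) (p : MvPolynomial σ ℂ) : MvPolynomial σ ℂ :=
  weightedHomogeneousComponent w m p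

noncomputable def HF (I : Ideal (MvPolynomial σ ℂ)) (m : ℕ × ℕ) : ℕ :=
  finrank ℂ ((Gr w m).map (Ideal.Quotient.mkₐ ℂ I).toLinearMap)

def IsHom (I : Ideal (MvPolynomial σ ℂ)) : Prop := ∀ p ∈ I, ∀ e, cmp w e p ∈ I

variable {w}

lemma cmp_mem (m : ℕ × ℕ) (p : MvPolynomial σ ℂ) : cmp w m p ∈ Gr w m :=
  weightedHomogeneousComponent_mem w p m

lemma cmp_self {m : ℕ × ℕ} {p : MvPolynomial σ ℂ} (hp : p ∈ Gr w m) : cmp w m p = p :=
  weightedHomogeneousComponent_eq_self hp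

lemma cmp_add (m : ℕ × ℕ) (p q : MvPolynomial σ ℂ) : cmp w m (p + q) = cmp w m p + cmp w m q :=
  map_add _ _ _

lemma cmp_sub (m : ℕ × ℕ) (p q : MvPolynomial σ ℂ) : cmp w m (p - q) = cmp w m p - cmp w m q :=
  map_sub _ _ _

lemma decompose_eq (m : ℕ × ℕ) (p : MvPolynomial σ ℂ) :
    (DirectSum.decompose (Gr w) p m : MvPolynomial σ ℂ) = cmp w m p :=
  weightedDecomposition.decompose'_apply ℂ w p m

lemma cmp_mul_add {g : MvPolynomial σ ℂ} {δ : ℕ × ℕ} (hg : g ∈ Gr w δ) (m : ℕ × ℕ)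
    (c : MvPolynomial σ ℂ) : cmp w (δ + m) (g * c) = g * cmp w m c := by
  rw [← decompose_eq, ← decompose_eq]
  exact DirectSum.coe_decompose_mul_add_of_left_mem (Gr w) hg

lemma cmp_mul_not_le {g : MvPolynomial σ ℂ} {δ : ℕ × ℕ} (hg : g ∈ Gr w δ) {m : ℕ × ℕ}
    (h : ¬ δ ≤ m) (c : MvPolynomial σ ℂ) : cmp w m (g * c) = 0 := by
  rw [← decompose_eq]
  exact DirectSum.coe_decompose_mul_of_left_mem_of_not_le (Gr w) hg h

lemma cmp_mul_mem_span {g : MvPolynomial σ ℂ} {δ : ℕ × ℕ} (hg : g ∈ Gr w δ) (m : ℕ × ℕ)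
    (c : MvPolynomial σ ℂ) : cmp w m (g * c) ∈ Ideal.span {g} := by
  by_cases h : δ ≤ m
  · obtain ⟨k, rfl⟩ := exists_add_of_le h
    rw [cmp_mul_add hg]
    exact Ideal.mul_mem_right _ _ (Ideal.mem_span_singleton_self g)
  · rw [cmp_mul_not_le hg h]; exact zero_mem _

lemma isHom_bot : IsHom w (⊥ : Ideal (MvPolynomial σ ℂ)) := by
  intro p hp e
  rw [Ideal.mem_bot] at hp
  subst hp
  simp

lemma IsHom.sup_span {I : Ideal (MvPolynomial σ ℂ)} (hI : IsHom w I) {g : MvPolynomial σ ℂ}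
    {δ : ℕ × ℕ} (hg : g ∈ Gr w δ) : IsHom w (I ⊔ Ideal.span {g}) := by
  intro p hp e
  obtain ⟨i, hi, z, hz, rfl⟩ := Submodule.mem_sup.1 hp
  obtain ⟨c, rfl⟩ := Ideal.mem_span_singleton'.1 hz
  rw [cmp_add, mul_comm c g]
  exact add_mem (Ideal.mem_sup_left (hI i hi e)) (Ideal.mem_sup_right (cmp_mul_mem_span hg e c))

lemma sum_cmp (p : MvPolynomial σ ℂ) :
    ∃ s : Finset (ℕ × ℕ), ∑ m ∈ s, cmp w m p = p := by
  refine ⟨(weightedHomogeneousComponent_finsupp (w := w) p).toFinset, ?_⟩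
  have := sum_weightedHomogeneousComponent w p
  rw [finsum_eq_sum _ (weightedHomogeneousComponent_finsupp p)] at this
  exact this

lemma exists_cmp_notMem {I : Ideal (MvPolynomial σ ℂ)} {p : MvPolynomial σ ℂ} (hp : p ∉ I) :
    ∃ m, cmp w m p ∉ I := by
  by_contra h
  push Not at h
  obtain ⟨s, hs⟩ := sum_cmp (w := w) p
  exact hp (hs ▸ Ideal.sum_mem _ fun m _ => h m)

lemma exists_hom_notMem {I J : Ideal (MvPolynomial σ ℂ)} (hJ : IsHom w J) (h : ¬ J ≤ I) :
    ∃ m, ∃ p ∈ Gr w m, p ∈ J ∧ p ∉ I := by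
  obtain ⟨p, hpJ, hpI⟩ := SetLike.not_le_iff_exists.1 h
  obtain ⟨m, hm⟩ := exists_cmp_notMem (w := w) hpI
  exact ⟨m, _, cmp_mem m p, hJ p hpJ m, hm⟩

lemma finite_weight [Finite σ] (hw : ∀ i, w i ≠ 0) (m : ℕ × ℕ) :
    {d : σ →₀ ℕ | Finsupp.weight w d = m}.Finite := by
  have h := Finsupp.finite_of_nat_weight_eq (fun i => (w i).1 + (w i).2) (by
    intro i hi
    apply hw i
    ext <;> simp <;> omega) (m.1 + m.2)
  refine h.subset ?_
  intro d hd
  simp only [Set.mem_ofPred_eq] at hd ⊢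
  subst hd
  simp only [Finsupp.weight_apply, Finsupp.sum, Prod.fst_sum, Prod.snd_sum, smul_eq_mul,
    Prod.smul_fst, Prod.smul_snd, ← Finset.sum_add_distrib, mul_add]

lemma finite_Gr [Finite σ] (hw : ∀ i, w i ≠ 0) (m : ℕ × ℕ) : Module.Finite ℂ (Gr w m) := by
  have := (finite_weight hw m).to_subtype
  unfold Gr
  rw [weightedHomogeneousSubmodule_eq_finsupp_supported]
  exact Module.Finite.of_basis (basisRestrictSupport ℂ {d | Finsupp.weight w d = m})

lemma finrank_Gr (m : ℕ × ℕ) :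
    finrank ℂ (Gr w m) = Nat.card {d : σ →₀ ℕ | Finsupp.weight w d = m} := by
  unfold Gr
  rw [weightedHomogeneousSubmodule_eq_finsupp_supported]
  exact Module.finrank_eq_nat_card_basis
    (basisRestrictSupport ℂ {d | Finsupp.weight w d = m})

/-- The Hilbert function of a kernel is the dimension of the image. -/
lemma HF_ker {B : Type} [CommRing B] [Algebra ℂ B] (φ : MvPolynomial σ ℂ →ₐ[ℂ] B) (m : ℕ × ℕ) :
    HF w (RingHom.ker φ) m = finrank ℂ ((Gr w m).map φ.toLinearMap) := by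
  unfold HF
  have hinj : Function.Injective (Ideal.kerLiftAlg φ).toLinearMap :=
    Ideal.kerLiftAlg_injective φ
  rw [(Submodule.equivMapOfInjective _ hinj _).finrank_eq, ← Submodule.map_comp]
  rfl

lemma HF_bot (m : ℕ × ℕ) : HF w ⊥ m = finrank ℂ (Gr w m) := by
  have : (⊥ : Ideal (MvPolynomial σ ℂ)) = RingHom.ker (AlgHom.id ℂ (MvPolynomial σ ℂ)) := by
    ext x; simp
  rw [this, HF_ker, AlgHom.toLinearMap_id, Submodule.map_id]

/-- finrank of an image in terms of kernel. -/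
lemma finrank_map_add {V W : Type} [AddCommGroup V] [Module ℂ V] [AddCommGroup W] [Module ℂ W]
    (f : V →ₗ[ℂ] W) (U : Submodule ℂ V) [Module.Finite ℂ U] :
    finrank ℂ (U.map f) + finrank ℂ (U ⊓ LinearMap.ker f : Submodule ℂ V) = finrank ℂ U := by
  have h := LinearMap.finrank_range_add_finrank_ker (f.domRestrict U)
  rw [LinearMap.range_domRestrict, LinearMap.ker_domRestrict] at h
  rw [← h]
  congr 1
  rw [← (Submodule.comapSubtypeEquivOfLe (inf_le_left : U ⊓ LinearMap.ker f ≤ U)).finrank_eq]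
  have : Submodule.comap U.subtype (U ⊓ LinearMap.ker f) =
      Submodule.comap U.subtype (LinearMap.ker f) := by
    ext x
    simp
  rw [this]

lemma HF_mono [Finite σ] (hw : ∀ i, w i ≠ 0) {I J : Ideal (MvPolynomial σ ℂ)} (h : I ≤ J)
    (m : ℕ × ℕ) : HF w J m ≤ HF w I m := by
  have := finite_Gr hw m
  unfold HF
  have : (Ideal.Quotient.mkₐ ℂ J).toLinearMap =
      (Ideal.Quotient.factorₐ ℂ h).toLinearMap ∘ₗ (Ideal.Quotient.mkₐ ℂ I).toLinearMap := by
    ext x; rfl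
  rw [this, Submodule.map_comp]
  exact Submodule.finrank_map_le _ _

/-- Exact sequence for a homogeneous non zero divisor. -/
lemma HF_sup_add [Finite σ] (hw : ∀ i, w i ≠ 0) {I : Ideal (MvPolynomial σ ℂ)} (hI : IsHom w I)
    {g : MvPolynomial σ ℂ} {δ : ℕ × ℕ} (hg : g ∈ Gr w δ) (hnz : ∀ c, g * c ∈ I → c ∈ I)
    (m : ℕ × ℕ) : HF w (I ⊔ Ideal.span {g}) (δ + m) + HF w I m = HF w I (δ + m) := by
  have := finite_Gr hw m
  have := finite_Gr hw (δ + m)
  unfold HF
  set q := (Ideal.Quotient.mkₐ ℂ I).toLinearMap with hq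
  have hle : I ≤ I ⊔ Ideal.span {g} := le_sup_left
  set r := (Ideal.Quotient.factorₐ ℂ hle).toLinearMap with hr
  have h1 : (Ideal.Quotient.mkₐ ℂ (I ⊔ Ideal.span {g})).toLinearMap = r ∘ₗ q := by
    ext x; rfl
  rw [h1, Submodule.map_comp, ← finrank_map_add r ((Gr w (δ + m)).map q)]
  congr 1
  have hinj : Function.Injective (LinearMap.mulLeft ℂ (Ideal.Quotient.mk I g)) := by
    rw [← LinearMap.ker_eq_bot, eq_bot_iff]
    intro x hx
    obtain ⟨c, rfl⟩ := Ideal.Quotient.mk_surjective x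
    simp only [LinearMap.mem_ker, LinearMap.mulLeft_apply, ← map_mul,
      Ideal.Quotient.eq_zero_iff_mem] at hx
    simpa [Ideal.Quotient.eq_zero_iff_mem] using hnz c hx
  rw [(Submodule.equivMapOfInjective _ hinj _).finrank_eq]
  refine congrArg (fun U : Submodule ℂ (MvPolynomial σ ℂ ⧸ I) => finrank ℂ U) ?_
  apply le_antisymm
  · rintro _ ⟨_, ⟨c, hc, rfl⟩, rfl⟩
    refine ⟨⟨g * c, ?_, by simp [hq]⟩, ?_⟩
    · exact IsWeightedHomogeneous.mul hg hc
    · simp only [hq, hr, AlgHom.toLinearMap_apply, Ideal.Quotient.mkₐ_eq_mk,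
        LinearMap.mulLeft_apply, ← map_mul, SetLike.mem_coe, LinearMap.mem_ker]
      change Ideal.Quotient.mk (I ⊔ Ideal.span {g}) (g * c) = 0
      rw [Ideal.Quotient.eq_zero_iff_mem]
      exact Ideal.mem_sup_right (Ideal.mul_mem_right _ _ (Ideal.mem_span_singleton_self g))
  · rintro _ ⟨⟨v, hv, rfl⟩, hk⟩
    have hv' : v ∈ I ⊔ Ideal.span {g} := by
      rw [← Ideal.Quotient.eq_zero_iff_mem]; exact hk
    obtain ⟨i, hi, z, hz, hiz⟩ := Submodule.mem_sup.1 hv'
    obtain ⟨c, rfl⟩ := Ideal.mem_span_singleton'.1 hz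
    refine ⟨q (cmp w m c), ⟨_, cmp_mem m c, rfl⟩, ?_⟩
    have h2 : v = cmp w (δ + m) i + g * cmp w m c := by
      rw [← cmp_mul_add hg, ← cmp_add, mul_comm g c, hiz, cmp_self hv]
    simp only [hq, AlgHom.toLinearMap_apply, Ideal.Quotient.mkₐ_eq_mk,
      LinearMap.mulLeft_apply, ← map_mul]
    rw [h2, map_add, (Ideal.Quotient.eq_zero_iff_mem).2 (hI i hi _), zero_add]

lemma HF_sup_not_le {I : Ideal (MvPolynomial σ ℂ)} (hI : IsHom w I)
    {g : MvPolynomial σ ℂ} {δ : ℕ × ℕ} (hg : g ∈ Gr w δ) {m : ℕ × ℕ} (hm : ¬ δ ≤ m)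
    [Finite σ] (hw : ∀ i, w i ≠ 0) :
    HF w (I ⊔ Ideal.span {g}) m = HF w I m := by
  have := finite_Gr hw m
  have h1 := finrank_map_add (Ideal.Quotient.mkₐ ℂ I).toLinearMap (Gr w m)
  have h2 := finrank_map_add (Ideal.Quotient.mkₐ ℂ (I ⊔ Ideal.span {g})).toLinearMap (Gr w m)
  have h3 : Gr w m ⊓ LinearMap.ker (Ideal.Quotient.mkₐ ℂ (I ⊔ Ideal.span {g})).toLinearMap =
      Gr w m ⊓ LinearMap.ker (Ideal.Quotient.mkₐ ℂ I).toLinearMap := by
    ext v
    simp only [Submodule.mem_inf, LinearMap.mem_ker, AlgHom.toLinearMap_apply,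
      Ideal.Quotient.mkₐ_eq_mk, Ideal.Quotient.eq_zero_iff_mem]
    refine and_congr_right fun hv => ⟨fun h => ?_, fun h => Ideal.mem_sup_left h⟩
    obtain ⟨i, hi, z, hz, hiz⟩ := Submodule.mem_sup.1 h
    obtain ⟨c, rfl⟩ := Ideal.mem_span_singleton'.1 hz
    have h2 : v = cmp w m i := by
      rw [← cmp_self hv, ← hiz, cmp_add, mul_comm c g, cmp_mul_not_le hg hm, add_zero]
    rw [h2]; exact hI i hi m
  rw [h3] at h2
  unfold HF
  omega

/-- A graded algebra map sends homogeneous elements to homogeneous elements. -/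
lemma map_mem_Gr {τ : Type} (w' : τ → ℕ × ℕ) (ι : ℕ × ℕ →+ ℕ × ℕ)
    (φ : MvPolynomial σ ℂ →ₐ[ℂ] MvPolynomial τ ℂ) (hφ : ∀ i, φ (X i) ∈ Gr w' (ι (w i)))
    {m : ℕ × ℕ} {p : MvPolynomial σ ℂ} (hp : p ∈ Gr w m) : φ p ∈ Gr w' (ι m) := by
  have hp' : IsWeightedHomogeneous w p m := hp
  clear hp
  induction hp' using IsWeightedHomogeneous.induction_on with
  | zero => simp
  | add p q hp hq ihp ihq => rw [map_add]; exact add_mem ihp ihq
  | monomial d r hr =>
    rw [monomial_eq, map_mul, Finsupp.prod, map_prod]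
    have h1 : IsWeightedHomogeneous w' (∏ i ∈ d.support, φ (X i ^ d i))
        (∑ i ∈ d.support, d i • ι (w i)) := by
      apply IsWeightedHomogeneous.prod
      intro i _
      rw [map_pow]
      exact IsWeightedHomogeneous.pow (hφ i) _
    have h2 : (∑ i ∈ d.support, d i • ι (w i)) = ι m := by
      rw [← hr, Finsupp.weight_apply, Finsupp.sum, map_sum]
      simp only [map_nsmul]
    rw [h2] at h1
    have : φ (C r) = C r := φ.commutes r
    rw [this]
    exact h1.C_mul r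

lemma isHom_comap {τ : Type} (w' : τ → ℕ × ℕ) (ι : ℕ × ℕ →+ ℕ × ℕ) (hι : Function.Injective ι)
    (φ : MvPolynomial σ ℂ →ₐ[ℂ] MvPolynomial τ ℂ) (hφ : ∀ i, φ (X i) ∈ Gr w' (ι (w i)))
    (m : ℕ × ℕ) (p : MvPolynomial σ ℂ) : φ (cmp w m p) = cmp w' (ι m) (φ p) := by
  classical
  obtain ⟨s, hs⟩ := sum_cmp (w := w) p
  conv_rhs => rw [← hs]
  rw [map_sum]
  unfold cmp
  rw [map_sum]
  have h1 : ∀ k ∈ s, weightedHomogeneousComponent w' (ι m)
      (φ (weightedHomogeneousComponent w k p)) =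
      if m = k then φ (weightedHomogeneousComponent w m p) else 0 := by
    intro k _
    rw [weightedHomogeneousComponent_of_mem (map_mem_Gr w' ι φ hφ (cmp_mem k p))]
    by_cases h : m = k
    · subst h; simp
    · rw [if_neg h, if_neg (fun h' => h (hι h'))]
  rw [Finset.sum_congr rfl h1, Finset.sum_ite_eq]
  split_ifs with h
  · rfl
  · have : weightedHomogeneousComponent w m p = 0 := by
      conv_lhs => rw [← hs]
      rw [map_sum]
      refine Finset.sum_eq_zero fun k hk => ?_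
      rw [weightedHomogeneousComponent_of_mem (cmp_mem k p), if_neg]
      rintro rfl
      exact h hk
    rw [this, map_zero]

lemma IsHom.comap {τ : Type} (w' : τ → ℕ × ℕ) (ι : ℕ × ℕ →+ ℕ × ℕ) (hι : Function.Injective ι)
    (φ : MvPolynomial σ ℂ →ₐ[ℂ] MvPolynomial τ ℂ) (hφ : ∀ i, φ (X i) ∈ Gr w' (ι (w i)))
    {J : Ideal (MvPolynomial τ ℂ)} (hJ : IsHom w' J) : IsHom w (J.comap φ) := by
  intro p hp e
  rw [Ideal.mem_comap] at hp ⊢
  rw [isHom_comap w' ι hι φ hφ]
  exact hJ _ hp _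

lemma HF_comap {τ : Type} (w' : τ → ℕ × ℕ)
    (φ : MvPolynomial σ ℂ →ₐ[ℂ] MvPolynomial τ ℂ) {m m' : ℕ × ℕ}
    (h : (Gr w m).map φ.toLinearMap = Gr w' m') (J : Ideal (MvPolynomial τ ℂ)) :
    HF w (J.comap φ) m = HF w' J m' := by
  have : J.comap φ = RingHom.ker ((Ideal.Quotient.mkₐ ℂ J).comp φ) := by
    ext x
    simp [Ideal.Quotient.eq_zero_iff_mem, RingHom.mem_ker]
  rw [this, HF_ker]
  unfold HF
  rw [← h, ← Submodule.map_comp]
  rfl

lemma sub_mem_of_X {I : Ideal (MvPolynomial σ ℂ)} (κ : MvPolynomial σ ℂ →ₐ[ℂ] MvPolynomial σ ℂ)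
    (h : ∀ i, κ (X i) - X i ∈ I) (p : MvPolynomial σ ℂ) : κ p - p ∈ I := by
  have : (Ideal.Quotient.mkₐ ℂ I).comp κ = Ideal.Quotient.mkₐ ℂ I := by
    apply MvPolynomial.algHom_ext
    intro i
    simpa [Ideal.Quotient.eq] using h i
  have h2 := DFunLike.congr_fun this p
  simpa [Ideal.Quotient.eq] using h2

end General

end Pool.Agent.MP_f1b239_ag

end

section

set_option autoImplicit false

namespace Pool.Agent.MP_f1b239_ag

open MvPolynomial Module

def bw (p q : ℕ) : Fin p ⊕ Fin q → ℕ × ℕ := Sum.elim (fun _ => (1, 0)) (fun _ => (0, 1))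

lemma bw_ne_zero (p q : ℕ) : ∀ i, bw p q i ≠ 0 := by
  rintro (i | i) <;> simp [bw, Prod.ext_iff]

lemma weight_bw {p q : ℕ} (d : Fin p ⊕ Fin q →₀ ℕ) :
    Finsupp.weight (bw p q) d = (∑ i, d (Sum.inl i), ∑ j, d (Sum.inr j)) := by
  rw [Finsupp.weight_apply, Finsupp.sum_fintype _ _ (by simp), Fintype.sum_sum_type]
  ext <;> simp [bw, Prod.fst_sum, Prod.snd_sum]

lemma finrank_Gr_bw (p q a b : ℕ) :
    finrank ℂ (Gr (bw p q) (a, b)) = p.multichoose a * q.multichoose b := by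
  classical
  rw [finrank_Gr]
  have e : {d : Fin p ⊕ Fin q →₀ ℕ | Finsupp.weight (bw p q) d = (a, b)} ≃
      ((Finset.univ : Finset (Fin p)).finsuppAntidiag a) ×
        ((Finset.univ : Finset (Fin q)).finsuppAntidiag b) :=
    { toFun := fun d => (⟨(Finsupp.sumFinsuppEquivProdFinsupp d.1).1, by
          have := d.2
          simp only [Set.mem_ofPred_eq, weight_bw, Prod.mk.injEq] at this
          simp [Finset.mem_finsuppAntidiag, this.1]⟩,
        ⟨(Finsupp.sumFinsuppEquivProdFinsupp d.1).2, by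
          have := d.2
          simp only [Set.mem_ofPred_eq, weight_bw, Prod.mk.injEq] at this
          simp [Finset.mem_finsuppAntidiag, this.2]⟩)
      invFun := fun x => ⟨Finsupp.sumFinsuppEquivProdFinsupp.symm (x.1.1, x.2.1), by
        have h1 := x.1.2
        have h2 := x.2.2
        simp only [Finset.mem_finsuppAntidiag] at h1 h2
        simp [weight_bw, h1.1, h2.1]⟩
      left_inv := fun d => by simp
      right_inv := fun x => by simp }
  rw [Nat.card_congr e, Nat.card_prod, Nat.card_eq_finsetCard, Nat.card_eq_finsetCard,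
    Finset.card_finsuppAntidiag_nat_eq_multichoose, Finset.card_finsuppAntidiag_nat_eq_multichoose]
  simp

noncomputable def Xs (p q : ℕ) : Submodule ℂ (MvPolynomial (Fin p ⊕ Fin q) ℂ) :=
  Submodule.span ℂ (Set.range fun i => X (Sum.inl i))

noncomputable def Ys (p q : ℕ) : Submodule ℂ (MvPolynomial (Fin p ⊕ Fin q) ℂ) :=
  Submodule.span ℂ (Set.range fun j => X (Sum.inr j))

lemma X_inl_mem {p q : ℕ} (i : Fin p) :
    (X (Sum.inl i) : MvPolynomial (Fin p ⊕ Fin q) ℂ) ∈ Gr (bw p q) (1, 0) :=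
  isWeightedHomogeneous_X ℂ (bw p q) (Sum.inl i)

lemma X_inr_mem {p q : ℕ} (j : Fin q) :
    (X (Sum.inr j) : MvPolynomial (Fin p ⊕ Fin q) ℂ) ∈ Gr (bw p q) (0, 1) :=
  isWeightedHomogeneous_X ℂ (bw p q) (Sum.inr j)

lemma pow_le_Gr {σ : Type} {w : σ → ℕ × ℕ} {U : Submodule ℂ (MvPolynomial σ ℂ)} {m : ℕ × ℕ}
    (h : U ≤ Gr w m) (n : ℕ) : U ^ n ≤ Gr w (n • m) := by
  induction n with
  | zero =>
    rw [pow_zero, Submodule.one_le, zero_smul]
    exact isWeightedHomogeneous_one ℂ w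
  | succ n ih =>
    rw [pow_succ, succ_nsmul]
    exact (mul_le_mul' ih h).trans (weightedHomogeneousSubmodule_mul w _ _)

lemma monomial_mem_XY {p q : ℕ} (d : Fin p ⊕ Fin q →₀ ℕ) :
    (monomial d (1 : ℂ)) ∈ Xs p q ^ (Finsupp.weight (bw p q) d).1 *
      Ys p q ^ (Finsupp.weight (bw p q) d).2 := by
  induction d using Finsupp.induction_linear with
  | zero =>
    simpa using (Submodule.one_le (R := ℂ) (A := MvPolynomial (Fin p ⊕ Fin q) ℂ)).1 le_rfl
  | add f g hf hg =>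
    have : (monomial (f + g) (1 : ℂ)) = monomial f 1 * monomial g 1 := by
      rw [monomial_mul, one_mul]
    rw [this, map_add, Prod.fst_add, Prod.snd_add, pow_add, pow_add, mul_mul_mul_comm]
    exact Submodule.mul_mem_mul hf hg
  | single i n =>
    rw [← X_pow_eq_monomial, Finsupp.weight_single]
    rcases i with i | j
    · simp only [bw, Sum.elim_inl, Prod.smul_mk, smul_eq_mul, mul_one, mul_zero, pow_zero]
      exact Submodule.pow_mem_pow (Xs p q) (Submodule.subset_span (Set.mem_range_self i)) n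
    · simp only [bw, Sum.elim_inr, Prod.smul_mk, smul_eq_mul, mul_one, mul_zero, pow_zero,
        one_mul]
      exact Submodule.pow_mem_pow (Ys p q) (Submodule.subset_span (Set.mem_range_self j)) n

lemma Gr_eq_XY (p q a b : ℕ) : Gr (bw p q) (a, b) = Xs p q ^ a * Ys p q ^ b := by
  apply le_antisymm
  · intro f hf
    have hf' : IsWeightedHomogeneous (bw p q) f (a, b) := hf
    clear hf
    induction hf' using IsWeightedHomogeneous.induction_on with
    | zero => exact zero_mem _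
    | add f g _ _ ihf ihg => exact add_mem ihf ihg
    | monomial d r hr =>
      have h := monomial_mem_XY d
      rw [hr] at h
      have : (monomial d r : MvPolynomial (Fin p ⊕ Fin q) ℂ) = r • monomial d 1 := by
        rw [smul_monomial, smul_eq_mul, mul_one]
      rw [this]
      exact Submodule.smul_mem _ _ h
  · have h1 : Xs p q ≤ Gr (bw p q) (1, 0) := by
      rw [Xs, Submodule.span_le]; rintro _ ⟨i, rfl⟩; exact X_inl_mem i
    have h2 : Ys p q ≤ Gr (bw p q) (0, 1) := by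
      rw [Ys, Submodule.span_le]; rintro _ ⟨i, rfl⟩; exact X_inr_mem i
    have h3 := (mul_le_mul' (pow_le_Gr h1 a) (pow_le_Gr h2 b)).trans
      (weightedHomogeneousSubmodule_mul (bw p q) _ _)
    simpa using h3

lemma map_Gr {p q : ℕ} {B : Type} [CommRing B] [Algebra ℂ B]
    (φ : MvPolynomial (Fin p ⊕ Fin q) ℂ →ₐ[ℂ] B) (a b : ℕ) :
    (Gr (bw p q) (a, b)).map φ.toLinearMap =
      Submodule.span ℂ (Set.range fun i => φ (X (Sum.inl i))) ^ a *
        Submodule.span ℂ (Set.range fun j => φ (X (Sum.inr j))) ^ b := by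
  rw [Gr_eq_XY, Submodule.map_mul, Submodule.map_pow, Submodule.map_pow, Xs, Ys,
    Submodule.map_span, Submodule.map_span, ← Set.range_comp, ← Set.range_comp]
  rfl

lemma mc3 (a : ℕ) : (Nat.multichoose 3 a : ℝ) = (a + 1) * (a + 2) / 2 := by
  rw [Nat.multichoose_eq]
  have : 3 + a - 1 = a + 2 := by omega
  rw [this, Nat.choose_symm_add, Nat.cast_choose_two]
  push_cast; ring

lemma mc2 (a : ℕ) : (Nat.multichoose 2 a : ℝ) = a + 1 := by simp

lemma mc1 (a : ℕ) : (Nat.multichoose 1 a : ℝ) = 1 := by simp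

/-- Leading coefficient of an eventually nonnegative quadratic. -/
lemma lead_nonneg {A B C : ℝ} {N : ℕ} (h : ∀ n : ℕ, N ≤ n → 0 ≤ A * (n : ℝ) ^ 2 + B * n + C) :
    0 ≤ A := by
  by_contra hA
  push Not at hA
  obtain ⟨n, hn⟩ := exists_nat_gt ((|B| + |C|) / (-A) + 1 + N)
  have hA' : 0 < -A := by linarith
  have h0 : 0 ≤ (|B| + |C|) / (-A) := by positivity
  have hN : N ≤ n := by
    have : (N : ℝ) ≤ n := by linarith
    exact_mod_cast this
  have hn1 : (1 : ℝ) ≤ n := by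
    have : (0 : ℝ) ≤ N := Nat.cast_nonneg _
    linarith
  have h1 : (|B| + |C|) < -A * n := by
    have : (0 : ℝ) ≤ N := Nat.cast_nonneg _
    have h2 : (|B| + |C|) / (-A) < n := by linarith
    rw [div_lt_iff₀ hA'] at h2
    linarith
  have h2 := h n hN
  have h3 : B ≤ |B| := le_abs_self B
  have h4 : C ≤ |C| := le_abs_self C
  have h5 : 0 ≤ |C| := abs_nonneg C
  nlinarith

lemma lead_nonneg' {B C : ℝ} {N : ℕ} (h : ∀ n : ℕ, N ≤ n → 0 ≤ B * n + C) : 0 ≤ B := by
  refine lead_nonneg (B := C) (C := 0) (N := N) fun n hn => ?_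
  have h1 := h n hn
  have h2 : (0 : ℝ) ≤ n := Nat.cast_nonneg _
  nlinarith

end Pool.Agent.MP_f1b239_ag

end

section

set_option autoImplicit false

namespace Pool.Agent.MP_f1b239_ag

open MvPolynomial Module

abbrev T : Type := MvPolynomial (Fin 3 ⊕ Fin 3) ℂ

noncomputable abbrev xx (i : Fin 3) : T := X (Sum.inl i)
noncomputable abbrev ll (i : Fin 3) : T := X (Sum.inr i)

noncomputable def gg : T := xx 1 ^ 2 * ll 1 + xx 2 ^ 2 * ll 2
noncomputable def ff : T := xx 0 ^ 2 * ll 0 + gg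

lemma term_mem (i j : Fin 3) : xx i ^ 2 * ll j ∈ Gr (bw 3 3) (2, 1) := by
  have := IsWeightedHomogeneous.mul (IsWeightedHomogeneous.pow (X_inl_mem (q := 3) i) 2)
    (X_inr_mem (p := 3) j)
  simpa using this

lemma ff_mem : ff ∈ Gr (bw 3 3) (2, 1) :=
  add_mem (term_mem 0 0) (add_mem (term_mem 1 1) (term_mem 2 2))

section Free

variable {σ : Type} {v : σ}

lemma dg_add {p q : MvPolynomial σ ℂ} (hp : degreeOf v p = 0) (hq : degreeOf v q = 0) :
    degreeOf v (p + q) = 0 := by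
  have := degreeOf_add_le v p q
  rw [hp, hq] at this
  simpa using this

lemma dg_sub {p q : MvPolynomial σ ℂ} (hp : degreeOf v p = 0) (hq : degreeOf v q = 0) :
    degreeOf v (p - q) = 0 := by
  have := degreeOf_sub_le v p q
  rw [hp, hq] at this
  simpa using this

lemma dg_mul {p q : MvPolynomial σ ℂ} (hp : degreeOf v p = 0) (hq : degreeOf v q = 0) :
    degreeOf v (p * q) = 0 := by
  have := degreeOf_mul_le v p q
  rw [hp, hq] at this
  simpa using this

lemma dg_pow {p : MvPolynomial σ ℂ} (hp : degreeOf v p = 0) (n : ℕ) :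
    degreeOf v (p ^ n) = 0 := by
  have := degreeOf_pow_le v p n
  rw [hp] at this
  simpa using this

lemma dg_cmp {w : σ → ℕ × ℕ} {p : MvPolynomial σ ℂ} (hp : degreeOf v p = 0) (m : ℕ × ℕ) :
    degreeOf v (cmp w m p) = 0 := by
  classical
  rw [← Nat.le_zero, degreeOf_le_iff]
  intro d hd
  rw [support_weightedHomogeneousComponent, Finset.mem_filter] at hd
  exact hp ▸ monomial_le_degreeOf v hd.1

lemma td_cmp {w : σ → ℕ × ℕ} (p : MvPolynomial σ ℂ) (m : ℕ × ℕ) :
    totalDegree (cmp w m p) ≤ totalDegree p := by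
  classical
  apply totalDegree_le_of_support_subset
  rw [support_weightedHomogeneousComponent]
  exact Finset.filter_subset _ _

end Free

lemma dg_xx (i j : Fin 3) : degreeOf (Sum.inr j) (xx i) = 0 := degreeOf_X_of_ne (by simp)

lemma dg_ll {i j : Fin 3} (h : j ≠ i) : degreeOf (Sum.inr j) (ll i) = 0 :=
  degreeOf_X_of_ne (by simpa using h)

lemma dg_gg : degreeOf (Sum.inr 0) gg = 0 :=
  dg_add (dg_mul (dg_pow (dg_xx _ _) _) (dg_ll (by decide)))
    (dg_mul (dg_pow (dg_xx _ _) _) (dg_ll (by decide)))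

lemma not_dvd_of_eval {i : Fin 3 ⊕ Fin 3} {p : T} (e : Fin 3 ⊕ Fin 3 → ℂ) (h0 : e i = 0)
    (h1 : eval e p ≠ 0) : ¬ (X i : T) ∣ p := by
  rintro ⟨c, rfl⟩
  simp [h0] at h1

lemma gg_prime : Prime gg := by
  rw [← UniqueFactorizationMonoid.irreducible_iff_prime]
  apply irreducible_mul_X_add
  · exact pow_ne_zero _ (X_ne_zero _)
  · rw [mem_vars_iff_degreeOf_ne_zero, not_not]
    exact dg_pow (dg_xx _ _) _
  · rw [mem_vars_iff_degreeOf_ne_zero, not_not]
    exact dg_mul (dg_pow (dg_xx _ _) _) (dg_ll (by decide))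
  · apply IsRelPrime.pow_left
    rw [X_prime.irreducible.isRelPrime_iff_not_dvd]
    apply not_dvd_of_eval (fun k => if k = Sum.inl 1 then 0 else 1) <;> simp

lemma ff_prime : Prime ff := by
  rw [← UniqueFactorizationMonoid.irreducible_iff_prime]
  apply irreducible_mul_X_add
  · exact pow_ne_zero _ (X_ne_zero _)
  · rw [mem_vars_iff_degreeOf_ne_zero, not_not]
    exact dg_pow (dg_xx _ _) _
  · rw [mem_vars_iff_degreeOf_ne_zero, not_not]
    exact dg_gg
  · apply IsRelPrime.pow_left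
    rw [X_prime.irreducible.isRelPrime_iff_not_dvd]
    apply not_dvd_of_eval (fun k => if k = Sum.inl 0 then 0 else 1)
    · simp
    · simp [gg]

noncomputable abbrev If : Ideal T := Ideal.span {ff}

lemma If_prime : If.IsPrime := (Ideal.span_singleton_prime ff_prime.ne_zero).2 ff_prime

lemma ff_mem_If : ff ∈ If := Ideal.mem_span_singleton_self _

lemma dg_ff : degreeOf (Sum.inr 0) ff ≠ 0 := by
  intro h
  have h1 : degreeOf (Sum.inr 0) (ff - gg) = 0 := dg_sub h dg_gg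
  have h2 : ff - gg = xx 0 ^ 2 * ll 0 := by simp [ff]
  rw [h2, degreeOf_mul_eq (pow_ne_zero _ (X_ne_zero _)) (X_ne_zero _), degreeOf_X_self] at h1
  omega

lemma eq_zero_of_free {p : T} (hp : degreeOf (Sum.inr 0) p = 0) (h : p ∈ If) : p = 0 := by
  obtain ⟨c, rfl⟩ := Ideal.mem_span_singleton'.1 h
  by_cases hc : c = 0
  · simp [hc]
  · rw [degreeOf_mul_eq hc ff_prime.ne_zero] at hp
    have := dg_ff
    omega

lemma x0_notMem : xx 0 ∉ If := fun h => X_ne_zero _ (eq_zero_of_free (dg_xx _ _) h)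

lemma If_x0_prime : (If ⊔ Ideal.span {xx 0}).IsPrime := by
  classical
  let κ : T →ₐ[ℂ] T := aeval fun k => if k = Sum.inl 0 then 0 else X k
  have hκ : ∀ p, κ p - p ∈ Ideal.span {xx 0} := by
    apply sub_mem_of_X
    intro i
    by_cases h : i = Sum.inl 0
    · subst h
      simp [κ]
    · simp [κ, h]
  have hg : κ gg = gg := by simp [κ, gg]
  have hf : κ ff = gg := by simp [κ, ff, gg]
  have hP : (Ideal.span {gg}).IsPrime := (Ideal.span_singleton_prime gg_prime.ne_zero).2 gg_prime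
  have : If ⊔ Ideal.span {xx 0} = (Ideal.span {gg}).comap κ := by
    apply le_antisymm
    · rw [sup_le_iff, Ideal.span_singleton_le_iff_mem, Ideal.span_singleton_le_iff_mem,
        Ideal.mem_comap, Ideal.mem_comap, hf]
      exact ⟨Ideal.mem_span_singleton_self _, by simp [κ]⟩
    · intro p hp
      rw [Ideal.mem_comap] at hp
      obtain ⟨c, hc⟩ := Ideal.mem_span_singleton'.1 hp
      have : p = c * ff - (c * (xx 0 * ll 0) * xx 0 + (κ p - p)) := by
        rw [← hc, ff]; ring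
      rw [this]
      refine sub_mem (Ideal.mem_sup_left (Ideal.mul_mem_left _ _ ff_mem_If))
        (Ideal.mem_sup_right (add_mem ?_ (hκ p)))
      exact Ideal.mul_mem_left _ _ (Ideal.mem_span_singleton_self _)
  rw [this]
  exact Ideal.IsPrime.comap κ

/-- Elimination of the variable `l 0` after multiplication by a power of `x 0`. -/
lemma elim (p : T) : ∃ (N : ℕ) (p' : T), degreeOf (Sum.inr 0) p' = 0 ∧ xx 0 ^ N * p - p' ∈ If := by
  induction p using MvPolynomial.induction_on with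
  | C a => exact ⟨0, C a, degreeOf_C _ _, by simp⟩
  | add p q hp hq =>
    obtain ⟨N, p', h1, h2⟩ := hp
    obtain ⟨M, q', h3, h4⟩ := hq
    refine ⟨N + M, xx 0 ^ M * p' + xx 0 ^ N * q',
      dg_add (dg_mul (dg_pow (dg_xx _ _) _) h1) (dg_mul (dg_pow (dg_xx _ _) _) h3), ?_⟩
    have : xx 0 ^ (N + M) * (p + q) - (xx 0 ^ M * p' + xx 0 ^ N * q') =
        xx 0 ^ M * (xx 0 ^ N * p - p') + xx 0 ^ N * (xx 0 ^ M * q - q') := by ring
    rw [this]
    exact add_mem (Ideal.mul_mem_left _ _ h2) (Ideal.mul_mem_left _ _ h4)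
  | mul_X p i hp =>
    obtain ⟨N, p', h1, h2⟩ := hp
    by_cases hi : i = Sum.inr 0
    · subst hi
      refine ⟨N + 2, p' * (0 - gg), dg_mul h1 (dg_sub (degreeOf_zero _) dg_gg), ?_⟩
      have : xx 0 ^ (N + 2) * (p * ll 0) - p' * (0 - gg) =
          (xx 0 ^ 2 * ll 0) * (xx 0 ^ N * p - p') + p' * ff := by rw [ff]; ring
      rw [this]
      exact add_mem (Ideal.mul_mem_left _ _ h2) (Ideal.mul_mem_left _ _ ff_mem_If)
    · refine ⟨N, p' * X i, dg_mul h1 (degreeOf_X_of_ne (Ne.symm hi)), ?_⟩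
      have : xx 0 ^ N * (p * X i) - p' * X i = X i * (xx 0 ^ N * p - p') := by ring
      rw [this]
      exact Ideal.mul_mem_left _ _ h2

lemma cancel_x0 {G : T} (hG : G ∉ If ⊔ Ideal.span {xx 0}) (N : ℕ) :
    ∀ a : T, xx 0 ^ N * a ∈ If ⊔ Ideal.span {G} → a ∈ If ⊔ Ideal.span {G} := by
  induction N with
  | zero => intro a h; simpa using h
  | succ N ih =>
    intro a h
    rw [pow_succ, mul_assoc] at h
    have h1 := ih _ h
    obtain ⟨i, hi, z, hz, hiz⟩ := Submodule.mem_sup.1 h1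
    obtain ⟨c, rfl⟩ := Ideal.mem_span_singleton'.1 hz
    have h2 : c * G ∈ If ⊔ Ideal.span {xx 0} := by
      have : c * G = xx 0 * a - i := by rw [← hiz]; ring
      rw [this]
      exact sub_mem (Ideal.mem_sup_right
        (Ideal.mul_mem_right _ _ (Ideal.mem_span_singleton_self _))) (Ideal.mem_sup_left hi)
    have h3 := (If_x0_prime.mem_or_mem h2).resolve_right hG
    obtain ⟨j, hj, z, hz, hjz⟩ := Submodule.mem_sup.1 h3
    obtain ⟨e, rfl⟩ := Ideal.mem_span_singleton'.1 hz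
    have h4 : xx 0 * (a - e * G) ∈ If := by
      have : xx 0 * (a - e * G) = i + j * G := by
        rw [mul_sub, ← hiz, ← hjz]; ring
      rw [this]
      exact add_mem hi (Ideal.mul_mem_right _ _ hj)
    have h5 := (If_prime.mem_or_mem h4).resolve_left x0_notMem
    have : a = (a - e * G) + e * G := by ring
    rw [this]
    exact add_mem (Ideal.mem_sup_left h5)
      (Ideal.mem_sup_right (Ideal.mul_mem_left _ _ (Ideal.mem_span_singleton_self _)))

lemma prime_of {π G : T} {k : ℕ} (hπ : Prime π) (hfree : degreeOf (Sum.inr 0) π = 0)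
    (hx : ¬ π ∣ xx 0) (hk : xx 0 ^ k * G - π ∈ If) (hG : G ∉ If ⊔ Ideal.span {xx 0}) :
    (If ⊔ Ideal.span {G}).IsPrime := by
  have key : ∀ a : T, (∃ (N : ℕ) (a' : T), π ∣ a' ∧ xx 0 ^ N * a - a' ∈ If) →
      a ∈ If ⊔ Ideal.span {G} := by
    rintro a ⟨N, _, ⟨a'', rfl⟩, h⟩
    apply cancel_x0 hG N
    have : xx 0 ^ N * a = ((xx 0 ^ N * a - π * a'') - a'' * (xx 0 ^ k * G - π)) +
        (a'' * xx 0 ^ k) * G := by ring
    rw [this]
    exact add_mem (Ideal.mem_sup_left (sub_mem h (Ideal.mul_mem_left _ _ hk)))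
      (Ideal.mem_sup_right (Ideal.mul_mem_left _ _ (Ideal.mem_span_singleton_self _)))
  have key2 : ∀ u u' : T, ∀ N : ℕ, degreeOf (Sum.inr 0) u' = 0 → xx 0 ^ N * u - u' ∈ If →
      u ∈ If ⊔ Ideal.span {G} → π ∣ u' := by
    intro u u' N h1 h2 h3
    obtain ⟨i, hi, z, hz, hiz⟩ := Submodule.mem_sup.1 h3
    obtain ⟨c, rfl⟩ := Ideal.mem_span_singleton'.1 hz
    obtain ⟨M, c', h4, h5⟩ := elim c
    have h6 : xx 0 ^ (k + M) * u' - xx 0 ^ N * c' * π ∈ If := by
      have : xx 0 ^ (k + M) * u' - xx 0 ^ N * c' * π =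
          xx 0 ^ (k + M + N) * i - xx 0 ^ (k + M) * (xx 0 ^ N * u - u') +
            xx 0 ^ (N + k) * G * (xx 0 ^ M * c - c') + xx 0 ^ N * c' * (xx 0 ^ k * G - π) := by
        rw [← hiz]; ring
      rw [this]
      exact add_mem (add_mem (sub_mem (Ideal.mul_mem_left _ _ hi) (Ideal.mul_mem_left _ _ h2))
        (Ideal.mul_mem_left _ _ h5)) (Ideal.mul_mem_left _ _ hk)
    have h7 := eq_zero_of_free (dg_sub (dg_mul (dg_pow (dg_xx _ _) _) h1)
      (dg_mul (dg_mul (dg_pow (dg_xx _ _) _) h4) hfree)) h6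
    have h8 : π ∣ xx 0 ^ (k + M) * u' := ⟨xx 0 ^ N * c', by rw [sub_eq_zero.1 h7]; ring⟩
    exact (hπ.dvd_or_dvd h8).resolve_left fun h => hx (hπ.dvd_of_dvd_pow h)
  constructor
  · rw [Ideal.ne_top_iff_one]
    intro h
    exact hπ.not_dvd_one (key2 1 1 0 (degreeOf_one _) (by simp) h)
  · intro a b hab
    obtain ⟨N, a', h1, h2⟩ := elim a
    obtain ⟨M, b', h3, h4⟩ := elim b
    have h5 : xx 0 ^ (N + M) * (a * b) - a' * b' ∈ If := by
      have : xx 0 ^ (N + M) * (a * b) - a' * b' =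
          xx 0 ^ M * b * (xx 0 ^ N * a - a') + a' * (xx 0 ^ M * b - b') := by ring
      rw [this]
      exact add_mem (Ideal.mul_mem_left _ _ h2) (Ideal.mul_mem_left _ _ h4)
    rcases hπ.dvd_or_dvd (key2 _ _ _ (dg_mul h1 h3) h5 hab) with h | h
    · exact Or.inl (key a ⟨N, a', h, h2⟩)
    · exact Or.inr (key b ⟨M, b', h, h4⟩)

lemma isHom_If : IsHom (bw 3 3) If := by
  have := (isHom_bot (w := bw 3 3)).sup_span ff_mem
  rwa [bot_sup_eq] at this

/-- A homogeneous prime strictly above the hypersurface contains a prime hypersurface section. -/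
lemma exists_section {Q : Ideal T} (hQ : Q.IsPrime) (hh : IsHom (bw 3 3) Q) (hf : ff ∈ Q)
    (hne : ¬ Q ≤ If) :
    ∃ (G : T) (p q : ℕ), G ∈ Gr (bw 3 3) (p, q) ∧ G ∈ Q ∧ G ∉ If ∧
      (If ⊔ Ideal.span {G}).IsPrime := by
  classical
  by_cases hx : xx 0 ∈ Q
  · exact ⟨xx 0, 1, 0, X_inl_mem 0, hx, x0_notMem, If_x0_prime⟩
  have hle : If ≤ Q := (Ideal.span_singleton_le_iff_mem _).2 hf
  have hex : ∃ n, ∃ g : T, g.totalDegree = n ∧ g ≠ 0 ∧ g ∈ Q ∧ degreeOf (Sum.inr 0) g = 0 ∧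
      ∃ m, g ∈ Gr (bw 3 3) m := by
    obtain ⟨g, hgQ, hgI⟩ := SetLike.not_le_iff_exists.1 hne
    obtain ⟨N, g', h1, h2⟩ := elim g
    have h3 : g' ∈ Q := by
      have : g' = xx 0 ^ N * g - (xx 0 ^ N * g - g') := by ring
      rw [this]
      exact sub_mem (Ideal.mul_mem_left _ _ hgQ) (hle h2)
    have h4 : g' ∉ (⊥ : Ideal T) := by
      rw [Ideal.mem_bot]
      rintro rfl
      rw [sub_zero] at h2
      rcases If_prime.mem_or_mem h2 with h | h
      · exact x0_notMem (If_prime.mem_of_pow_mem _ h)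
      · exact hgI h
    obtain ⟨m, hm⟩ := exists_cmp_notMem (w := bw 3 3) h4
    exact ⟨_, cmp (bw 3 3) m g', rfl, by simpa using hm, hh _ h3 m, dg_cmp h1 m, m, cmp_mem _ _⟩
  obtain ⟨g, hgd, hg0, hgQ, hgf, m, hgm⟩ := Nat.find_spec hex
  have hmin : ∀ g' : T, g' ≠ 0 → g' ∈ Q → degreeOf (Sum.inr 0) g' = 0 →
      (∃ m, g' ∈ Gr (bw 3 3) m) → g.totalDegree ≤ g'.totalDegree := by
    intro g' h1 h2 h3 h4
    rw [hgd]
    exact Nat.find_min' hex ⟨g', rfl, h1, h2, h3, h4⟩
  have hgp : Prime g := by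
    obtain ⟨s, hs, hsa⟩ := UniqueFactorizationMonoid.exists_prime_factors g hg0
    have h1 : s.prod ∈ Q := Q.mem_of_dvd hsa.symm.dvd hgQ
    obtain ⟨π, hπs, hπQ⟩ := (hQ.multiset_prod_mem_iff_exists_mem s).1 h1
    have hπ := hs π hπs
    obtain ⟨c, hc⟩ : π ∣ g := (Multiset.dvd_prod hπs).trans hsa.dvd
    have hc0 : c ≠ 0 := by rintro rfl; simp [hg0] at hc
    have hπf : degreeOf (Sum.inr 0) π = 0 := by
      rw [hc, degreeOf_mul_eq hπ.ne_zero hc0] at hgf
      omega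
    have h4 : π ∉ (⊥ : Ideal T) := by simpa using hπ.ne_zero
    obtain ⟨m', hm'⟩ := exists_cmp_notMem (w := bw 3 3) h4
    have h5 := hmin (cmp (bw 3 3) m' π) (by simpa using hm') (hh _ hπQ m') (dg_cmp hπf m')
      ⟨m', cmp_mem _ _⟩
    have h6 := td_cmp (w := bw 3 3) π m'
    have h7 : g.totalDegree = π.totalDegree + c.totalDegree := by
      rw [hc, totalDegree_mul_of_isDomain hπ.ne_zero hc0]
    have h8 : c.totalDegree = 0 := by omega
    rw [totalDegree_eq_zero_iff_eq_C] at h8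
    have h9 : IsUnit c := by
      rw [h8]
      refine (IsUnit.mk0 _ ?_).map C
      intro h
      rw [h, map_zero] at h8
      exact hc0 h8
    rw [hc]
    exact (associated_mul_unit_right π c h9).prime hπ
  have hgx : ¬ g ∣ xx 0 := fun h => hx (Q.mem_of_dvd h hgQ)
  obtain ⟨p₀, q⟩ := m
  have hex2 : ∃ p, ∃ (k : ℕ) (G : T), G ∈ Gr (bw 3 3) (p, q) ∧ xx 0 ^ k * G - g ∈ If :=
    ⟨p₀, 0, g, hgm, by simp⟩
  obtain ⟨k, G, hGm, hGk⟩ := Nat.find_spec hex2
  set p := Nat.find hex2 with hp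
  have hGI : G ∉ If := by
    intro h
    have : g ∈ If := by
      have : g = xx 0 ^ k * G - (xx 0 ^ k * G - g) := by ring
      rw [this]
      exact sub_mem (Ideal.mul_mem_left _ _ h) hGk
    exact hg0 (eq_zero_of_free hgf this)
  have hG : G ∉ If ⊔ Ideal.span {xx 0} := by
    intro h
    obtain ⟨i, hi, z, hz, hiz⟩ := Submodule.mem_sup.1 h
    obtain ⟨c, rfl⟩ := Ideal.mem_span_singleton'.1 hz
    have h1 : G = cmp (bw 3 3) (p, q) i + cmp (bw 3 3) (p, q) (xx 0 * c) := by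
      rw [← cmp_add, mul_comm, hiz, cmp_self hGm]
    rcases hp0 : p with _ | p'
    · rw [hp0, cmp_mul_not_le (X_inl_mem 0) (by simp), add_zero] at h1
      exact hGI (h1 ▸ isHom_If i hi _)
    · have h2 : ((p' + 1, q) : ℕ × ℕ) = (1, 0) + (p', q) := by
        ext <;> simp [add_comm]
      rw [hp0] at h1
      conv_rhs at h1 => rw [h2, cmp_mul_add (X_inl_mem 0)]
      have h3 : p ≤ p' := by
        apply Nat.find_min' hex2
        refine ⟨k + 1, cmp (bw 3 3) (p', q) c, cmp_mem _ _, ?_⟩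
        have : xx 0 ^ (k + 1) * cmp (bw 3 3) (p', q) c - g =
            (xx 0 ^ k * G - g) - xx 0 ^ k * cmp (bw 3 3) ((1, 0) + (p', q)) i := by
          conv_rhs => rw [h1]
          ring
        rw [this]
        exact sub_mem hGk (Ideal.mul_mem_left _ _ (isHom_If i hi _))
      omega
  have hGQ : G ∈ Q := by
    have : xx 0 ^ k * G ∈ Q := by
      have : xx 0 ^ k * G = (xx 0 ^ k * G - g) + g := by ring
      rw [this]
      exact add_mem (hle hGk) hgQ
    exact (hQ.mem_or_mem this).resolve_left fun h => hx (hQ.mem_of_pow_mem _ h)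
  exact ⟨G, p, q, hGm, hGQ, hGI, prime_of hgp hgf hgx hGk hG⟩

end Pool.Agent.MP_f1b239_ag

end

section

set_option autoImplicit false

namespace Pool.Agent.MP_f1b239_ag

open MvPolynomial Module

def Deg (H : ℕ → ℕ → ℕ) (v : Fin 3 → ℝ) : Prop :=
  ∃ (c₁ c₂ c₀ : ℝ) (N : ℕ), ∀ a b : ℕ, N ≤ a → N ≤ b →
    (H a b : ℝ) = v 0 * (a : ℝ) ^ 2 / 2 + v 1 * a * b + v 2 * (b : ℝ) ^ 2 / 2
      + c₁ * a + c₂ * b + c₀

def Good (v : Fin 3 → ℝ) : Prop := 0 ≤ v 0 ∧ 0 ≤ v 2 ∧ v 0 ≤ v 1 ∧ v 1 ≤ v 2 + 2 * v 0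

lemma Deg.nonneg0 {H : ℕ → ℕ → ℕ} {v : Fin 3 → ℝ} (h : Deg H v) : 0 ≤ v 0 := by
  obtain ⟨c₁, c₂, c₀, N, h⟩ := h
  have := lead_nonneg (A := v 0 / 2) (B := v 1 * N + c₁) (C := v 2 * (N : ℝ) ^ 2 / 2 + c₂ * N + c₀)
    (N := N) fun n hn => by
      have h1 := h n N hn le_rfl
      have h2 : (0 : ℝ) ≤ H n N := Nat.cast_nonneg _
      linarith
  linarith

lemma Deg.nonneg2 {H : ℕ → ℕ → ℕ} {v : Fin 3 → ℝ} (h : Deg H v) : 0 ≤ v 2 := by
  obtain ⟨c₁, c₂, c₀, N, h⟩ := h
  have := lead_nonneg (A := v 2 / 2) (B := v 1 * N + c₂) (C := v 0 * (N : ℝ) ^ 2 / 2 + c₁ * N + c₀)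
    (N := N) fun n hn => by
      have h1 := h N n le_rfl hn
      have h2 : (0 : ℝ) ≤ H N n := Nat.cast_nonneg _
      linarith
  linarith

lemma Deg.good_of_shift {H : ℕ → ℕ → ℕ} {v : Fin 3 → ℝ} (h : Deg H v)
    (hs : ∀ a b, H (a + 1) b ≤ H a (b + 1)) : Good v := by
  have h0 := h.nonneg0
  have h2 := h.nonneg2
  obtain ⟨c₁, c₂, c₀, N, h⟩ := h
  have key : ∀ a b : ℕ, N ≤ a → N ≤ b →
      0 ≤ (v 1 - v 0) * a + (v 2 - v 1) * b + (v 2 / 2 - v 0 / 2 + c₂ - c₁) := by
    intro a b ha hb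
    have h1 := h (a + 1) b (by omega) hb
    have h3 := h a (b + 1) ha (by omega)
    have h4 : (H (a + 1) b : ℝ) ≤ H a (b + 1) := by exact_mod_cast hs a b
    push_cast at h1 h3
    nlinarith
  have k1 := lead_nonneg' (B := v 1 - v 0) (C := (v 2 - v 1) * N + (v 2 / 2 - v 0 / 2 + c₂ - c₁))
    (N := N) fun n hn => by have := key n N hn le_rfl; linarith
  have k2 := lead_nonneg' (B := v 2 - v 1) (C := (v 1 - v 0) * N + (v 2 / 2 - v 0 / 2 + c₂ - c₁))
    (N := N) fun n hn => by have := key N n le_rfl hn; linarith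
  exact ⟨h0, h2, by linarith, by linarith⟩

lemma Deg.good_of_small {H : ℕ → ℕ → ℕ} {v : Fin 3 → ℝ} (h : Deg H v) {d₁ d₂ d₀ : ℝ} {M : ℕ}
    (hs : ∀ a b : ℕ, M ≤ a → M ≤ b → (H a b : ℝ) ≤ d₁ * a + d₂ * b + d₀) : Good v := by
  have h0 := h.nonneg0
  have h2 := h.nonneg2
  obtain ⟨c₁, c₂, c₀, N, h⟩ := h
  set K := N + M with hK
  have k0 := lead_nonneg (A := - v 0 / 2) (B := d₁ - (v 1 * K + c₁))
    (C := d₂ * K + d₀ - (v 2 * (K : ℝ) ^ 2 / 2 + c₂ * K + c₀))
    (N := K) fun n hn => by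
      have h1 := h n K (by omega) (by omega)
      have h2 := hs n K (by omega) (by omega)
      linarith
  have k2 := lead_nonneg (A := - v 2 / 2) (B := d₂ - (v 1 * K + c₂))
    (C := d₁ * K + d₀ - (v 0 * (K : ℝ) ^ 2 / 2 + c₁ * K + c₀))
    (N := K) fun n hn => by
      have h1 := h K n (by omega) (by omega)
      have h2 := hs K n (by omega) (by omega)
      linarith
  have k3 := lead_nonneg (A := v 0 / 2 + v 1 + v 2 / 2) (B := c₁ + c₂) (C := c₀)
    (N := K) fun n hn => by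
      have h1 := h n n (by omega) (by omega)
      have h2 : (0 : ℝ) ≤ H n n := Nat.cast_nonneg _
      nlinarith
  have k4 := lead_nonneg (A := -(v 0 / 2 + v 1 + v 2 / 2)) (B := d₁ + d₂ - (c₁ + c₂))
    (C := d₀ - c₀) (N := K) fun n hn => by
      have h1 := h n n (by omega) (by omega)
      have h2 := hs n n (by omega) (by omega)
      nlinarith
  exact ⟨h0, h2, by linarith, by linarith⟩

noncomputable def Phi (x y : ℝ) : ℝ :=
  (x + 1) * (x + 2) / 2 * ((y + 1) * (y + 2) / 2) - (x - 1) * x / 2 * (y * (y + 1) / 2)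

lemma HF_If {a b : ℕ} (ha : 2 ≤ a) (hb : 1 ≤ b) :
    (HF (bw 3 3) If (a, b) : ℝ) = Phi a b := by
  obtain ⟨a, rfl⟩ := Nat.exists_eq_add_of_le ha
  obtain ⟨b, rfl⟩ := Nat.exists_eq_add_of_le hb
  have h := HF_sup_add (bw_ne_zero 3 3) isHom_bot ff_mem (fun c hc => by
    rw [Ideal.mem_bot] at hc ⊢
    exact (mul_eq_zero.1 hc).resolve_left ff_prime.ne_zero) (a, b)
  rw [bot_sup_eq, HF_bot, HF_bot, Prod.mk_add_mk, finrank_Gr_bw, finrank_Gr_bw] at h
  have h2 := congrArg (Nat.cast : ℕ → ℝ) h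
  push_cast at h2
  rw [mc3, mc3, mc3, mc3] at h2
  unfold Phi
  push_cast at h2 ⊢
  linarith

lemma HF_step {I : Ideal T} (hI : I.IsPrime) (hh : IsHom (bw 3 3) I) {G : T} {p q : ℕ}
    (hG : G ∈ Gr (bw 3 3) (p, q)) (hGI : G ∉ I) {a b : ℕ} (ha : p ≤ a) (hb : q ≤ b) :
    (HF (bw 3 3) (I ⊔ Ideal.span {G}) (a, b) : ℝ) =
      HF (bw 3 3) I (a, b) - HF (bw 3 3) I (a - p, b - q) := by
  obtain ⟨a, rfl⟩ := Nat.exists_eq_add_of_le ha
  obtain ⟨b, rfl⟩ := Nat.exists_eq_add_of_le hb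
  have h := HF_sup_add (bw_ne_zero 3 3) hh hG
    (fun c hc => (hI.mem_or_mem hc).resolve_left hGI) (a, b)
  rw [Prod.mk_add_mk] at h
  have h2 := congrArg (Nat.cast : ℕ → ℝ) h
  push_cast at h2
  rw [Nat.add_sub_cancel_left, Nat.add_sub_cancel_left]
  linarith

lemma HF_sec {G : T} {p q : ℕ} (hG : G ∈ Gr (bw 3 3) (p, q)) (hGI : G ∉ If) {a b : ℕ}
    (ha : p + 2 ≤ a) (hb : q + 1 ≤ b) :
    (HF (bw 3 3) (If ⊔ Ideal.span {G}) (a, b) : ℝ) = Phi a b - Phi (a - p) (b - q) := by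
  rw [HF_step If_prime isHom_If hG hGI (by omega) (by omega), HF_If (by omega) (by omega),
    HF_If (by omega) (by omega), Nat.cast_sub (by omega), Nat.cast_sub (by omega)]

lemma good_T {Q : Ideal T} (hQ : Q.IsPrime) (hh : IsHom (bw 3 3) Q) (hf : ff ∈ Q)
    {v : Fin 3 → ℝ} (h : Deg (fun a b => HF (bw 3 3) Q (a, b)) v) : Good v := by
  have hle : If ≤ Q := (Ideal.span_singleton_le_iff_mem _).2 hf
  by_cases hne : Q ≤ If
  · exfalso
    obtain rfl : Q = If := le_antisymm hne hle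
    obtain ⟨c₁, c₂, c₀, N, h⟩ := h
    have key : ∀ a b : ℕ, N + 2 ≤ a → N + 2 ≤ b → Phi a b =
        v 0 * (a : ℝ) ^ 2 / 2 + v 1 * a * b + v 2 * (b : ℝ) ^ 2 / 2 + c₁ * a + c₂ * b + c₀ := by
      intro a b ha hb
      rw [← HF_If (by omega) (by omega)]
      exact h a b (by omega) (by omega)
    have h1 := key (N + 2) (N + 2) (by omega) (by omega)
    have h2 := key (N + 2) (N + 3) (by omega) (by omega)
    have h3 := key (N + 2) (N + 4) (by omega) (by omega)
    have h4 := key (N + 3) (N + 2) (by omega) (by omega)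
    have h5 := key (N + 3) (N + 3) (by omega) (by omega)
    have h6 := key (N + 3) (N + 4) (by omega) (by omega)
    unfold Phi at h1 h2 h3 h4 h5 h6
    push_cast at h1 h2 h3 h4 h5 h6
    have : (0 : ℝ) = 2 := by linear_combination -(h6 - 2 * h5 + h4 - h3 + 2 * h2 - h1)
    norm_num at this
  obtain ⟨G, p, q, hG, hGQ, hGI, hP⟩ := exists_section hQ hh hf hne
  have hle2 : If ⊔ Ideal.span {G} ≤ Q :=
    sup_le hle ((Ideal.span_singleton_le_iff_mem _).2 hGQ)
  by_cases hne2 : Q ≤ If ⊔ Ideal.span {G}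
  · obtain rfl : Q = If ⊔ Ideal.span {G} := le_antisymm hne2 hle2
    obtain ⟨c₁, c₂, c₀, N, h⟩ := h
    set K := N + p + q + 2 with hK
    have key : ∀ a b : ℕ, K ≤ a → K ≤ b → Phi a b - Phi (a - p) (b - q) =
        v 0 * (a : ℝ) ^ 2 / 2 + v 1 * a * b + v 2 * (b : ℝ) ^ 2 / 2 + c₁ * a + c₂ * b + c₀ := by
      intro a b ha hb
      rw [← HF_sec hG hGI (by omega) (by omega)]
      exact h a b (by omega) (by omega)
    have h1 := key K K (by omega) (by omega)
    have h2 := key K (K + 1) (by omega) (by omega)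
    have h3 := key K (K + 2) (by omega) (by omega)
    have h4 := key (K + 1) K (by omega) (by omega)
    have h5 := key (K + 1) (K + 1) (by omega) (by omega)
    have h6 := key (K + 2) K (by omega) (by omega)
    unfold Phi at h1 h2 h3 h4 h5 h6
    push_cast at h1 h2 h3 h4 h5 h6
    have e0 : v 0 = q := by linear_combination -(h6 - 2 * h4 + h1)
    have e2 : v 2 = 2 * p := by linear_combination -(h3 - 2 * h2 + h1)
    have e1 : v 1 = p + 2 * q := by linear_combination -(h5 - h4 - h2 + h1)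
    have hp : (0 : ℝ) ≤ p := Nat.cast_nonneg _
    have hq : (0 : ℝ) ≤ q := Nat.cast_nonneg _
    exact ⟨by linarith, by linarith, by linarith, by linarith⟩
  obtain ⟨⟨p', q'⟩, u, hu, huQ, huI⟩ := exists_hom_notMem hh hne2
  have hle3 : (If ⊔ Ideal.span {G}) ⊔ Ideal.span {u} ≤ Q :=
    sup_le hle2 ((Ideal.span_singleton_le_iff_mem _).2 huQ)
  let L : ℝ → ℝ → ℝ := fun x y => (Phi x y - Phi (x - p) (y - q)) -
    (Phi (x - p') (y - q') - Phi (x - p' - p) (y - q' - q))
  refine h.good_of_small (d₁ := L 1 0 - L 0 0) (d₂ := L 0 1 - L 0 0) (d₀ := L 0 0)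
    (M := p + q + p' + q' + 2) fun a b ha hb => ?_
  have h1 : (HF (bw 3 3) Q (a, b) : ℝ) ≤
      HF (bw 3 3) ((If ⊔ Ideal.span {G}) ⊔ Ideal.span {u}) (a, b) := by
    exact_mod_cast HF_mono (bw_ne_zero 3 3) hle3 (a, b)
  rw [HF_step hP (isHom_If.sup_span hG) hu huI (by omega) (by omega),
    HF_sec hG hGI (by omega) (by omega), HF_sec hG hGI (by omega) (by omega),
    Nat.cast_sub (by omega), Nat.cast_sub (by omega)] at h1
  refine h1.trans (le_of_eq ?_)
  simp only [L, Phi]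
  ring

end Pool.Agent.MP_f1b239_ag

end

section

set_option autoImplicit false

namespace Pool.Agent.MP_f1b239_ag

open MvPolynomial Module

noncomputable def Mx : Matrix (Fin 4) (Fin 6) (MvPolynomial (Fin 3) ℂ) :=
  !![X 0 ^ 2, X 1 ^ 2, X 2 ^ 2, 0, 0, 0;
     0, 0, 0, X 1, -X 0, 0;
     0, 0, 0, X 2, 0, -X 0;
     0, 0, 0, 0, X 2, -X 1]

noncomputable abbrev sx (i : Fin 3) : Coord 6 := X (Sum.inl i)
noncomputable abbrev sy (j : Fin 6) : Coord 6 := X (Sum.inr j)

lemma eqs_iff (P : Ideal (Coord 6)) :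
    (∀ i, ∑ j, rename Sum.inl (Mx i j) * X (Sum.inr j) ∈ P) ↔
      (sx 0 ^ 2 * sy 0 + sx 1 ^ 2 * sy 1 + sx 2 ^ 2 * sy 2 ∈ P ∧
        sx 1 * sy 3 - sx 0 * sy 4 ∈ P ∧ sx 2 * sy 3 - sx 0 * sy 5 ∈ P ∧
        sx 2 * sy 4 - sx 1 * sy 5 ∈ P) := by
  simp [Fin.forall_fin_succ, Fin.sum_univ_six, Mx, sub_eq_add_neg]

lemma hasDegrees_iff (P : Ideal (Coord 6)) (v : Fin 3 → ℝ) :
    HasDegrees P v ↔ Deg (fun a b => HF (bw 3 6) P (a, b)) v := Iff.rfl

noncomputable def phi0 : Coord 6 →ₐ[ℂ] T := aeval (Sum.elim xx ![ll 0, ll 1, ll 2, 0, 0, 0])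

noncomputable def sec0 : T →ₐ[ℂ] Coord 6 := aeval (Sum.elim sx ![sy 0, sy 1, sy 2])

lemma phi0_gr : ∀ i, phi0 (X i) ∈ Gr (bw 3 3) ((AddMonoidHom.id _) (bw 3 6 i)) := by
  rintro (i | j)
  · simpa [phi0, bw] using X_inl_mem (q := 3) i
  · have := fun k => X_inr_mem (p := 3) (q := 3) k
    change _ ∈ Gr (bw 3 3) (0, 1)
    fin_cases j <;> simp [phi0, -mem_weightedHomogeneousSubmodule, this]

lemma sec0_gr : ∀ i, sec0 (X i) ∈ Gr (bw 3 6) ((AddMonoidHom.id _) (bw 3 3 i)) := by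
  rintro (i | j)
  · simpa [sec0, bw] using X_inl_mem (q := 6) i
  · have := fun k => X_inr_mem (p := 3) (q := 6) k
    change _ ∈ Gr (bw 3 6) (0, 1)
    fin_cases j <;> simp [sec0, -mem_weightedHomogeneousSubmodule, this]

lemma phi0_map (a b : ℕ) :
    (Gr (bw 3 6) (a, b)).map phi0.toLinearMap = Gr (bw 3 3) (a, b) := by
  rw [map_Gr, Gr_eq_XY]
  have h1 : Submodule.span ℂ (Set.range fun i => phi0 (X (Sum.inl i))) = Xs 3 3 := by
    simp [phi0, Xs]
  have h2 : Submodule.span ℂ (Set.range fun j => phi0 (X (Sum.inr j))) = Ys 3 3 := by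
    apply le_antisymm
    · rw [Submodule.span_le]
      rintro _ ⟨j, rfl⟩
      have : ∀ k, ll k ∈ Ys 3 3 := fun k => Submodule.subset_span (Set.mem_range_self k)
      fin_cases j <;> simp [phi0, this]
    · rw [Ys, Submodule.span_le]
      rintro _ ⟨j, rfl⟩
      apply Submodule.subset_span
      fin_cases j
      · exact ⟨0, by simp [phi0]⟩
      · exact ⟨1, by simp [phi0]⟩
      · exact ⟨2, by simp [phi0]⟩
  rw [h1, h2]

lemma map_mulLeft {B : Type} [CommRing B] [Algebra ℂ B] (c : B) (U : Submodule ℂ B) :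
    U.map (LinearMap.mulLeft ℂ c) = Submodule.span ℂ {c} * U := by
  ext x
  simp [Submodule.mem_span_singleton_mul]

lemma finrank_span_mul {B : Type} [CommRing B] [IsDomain B] [Algebra ℂ B] {c : B} (hc : c ≠ 0)
    (U : Submodule ℂ B) : finrank ℂ (Submodule.span ℂ {c} * U : Submodule ℂ B) = finrank ℂ U := by
  rw [← map_mulLeft]
  exact (Submodule.equivMapOfInjective (LinearMap.mulLeft ℂ c)
    (mul_right_injective₀ hc) U).finrank_eq.symm

def uidx : Fin 3 → Fin 6 := ![3, 4, 5]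

lemma good_S {P : Ideal (Coord 6)} (hP : IsSubvariety Mx P) {v : Fin 3 → ℝ}
    (hv : HasDegrees P v) : Good v := by
  obtain ⟨hp, hh, he⟩ := hP
  rw [eqs_iff] at he
  obtain ⟨e0, e1, e2, e3⟩ := he
  rw [hasDegrees_iff] at hv
  by_cases hu : ∀ j, sy (uidx j) ∈ P
  · have hκ : ∀ p, (sec0.comp phi0) p - p ∈ P := by
      apply sub_mem_of_X
      have h3 : sy 3 ∈ P := hu 0
      have h4 : sy 4 ∈ P := hu 1
      have h5 : sy 5 ∈ P := hu 2
      rintro (i | j)
      · simp [sec0, phi0]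
      · fin_cases j <;> simp [sec0, phi0, h3, h4, h5]
    have hPQ : P = (P.comap sec0).comap phi0 := by
      ext p
      rw [Ideal.mem_comap, Ideal.mem_comap]
      have := hκ p
      rw [AlgHom.comp_apply] at this
      constructor
      · intro h; simpa using add_mem this h
      · intro h; simpa using sub_mem h this
    refine good_T (Q := P.comap sec0) (Ideal.IsPrime.comap sec0)
      (IsHom.comap (bw 3 6) (AddMonoidHom.id _) Function.injective_id sec0 sec0_gr hh) ?_ ?_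
    · rw [Ideal.mem_comap]
      simpa [sec0, ff, gg, add_assoc] using e0
    · have : (fun a b => HF (bw 3 3) (P.comap sec0) (a, b)) =
          fun a b => HF (bw 3 6) P (a, b) := by
        funext a b
        rw [← HF_comap (w := bw 3 6) (bw 3 3) phi0 (phi0_map a b), ← hPQ]
      rw [this]; exact hv
  · push Not at hu
    obtain ⟨j, hj⟩ := hu
    refine hv.good_of_shift fun a b => ?_
    have hfin := finite_Gr (bw_ne_zero 3 6) (a, b + 1)
    have hfin2 : Module.Finite ℂ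
        ((Gr (bw 3 6) (a, b + 1)).map (Ideal.Quotient.mkₐ ℂ P).toLinearMap) := inferInstance
    unfold HF
    rw [map_Gr] at hfin2
    rw [map_Gr, map_Gr]
    set π := Ideal.Quotient.mkₐ ℂ P with hπ
    set U := Submodule.span ℂ (Set.range fun i => π (X (Sum.inl i))) with hU
    set V := Submodule.span ℂ (Set.range fun i => π (X (Sum.inr i))) with hV
    by_cases hx : ∀ i, sx i ∈ P
    · have : U = ⊥ := by
        rw [hU, Submodule.span_eq_bot]
        rintro _ ⟨i, rfl⟩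
        exact Ideal.Quotient.eq_zero_iff_mem.2 (hx i)
      rw [this, pow_succ, Submodule.mul_bot, Submodule.bot_mul, finrank_bot]
      exact Nat.zero_le _
    push Not at hx
    obtain ⟨i, hi⟩ := hx
    have rel : ∀ i k, π (sy (uidx i)) * π (sx k) = π (sx i) * π (sy (uidx k)) := by
      intro i k
      rw [← map_mul, ← map_mul]
      apply Ideal.Quotient.eq.2
      have n1 := neg_mem e1
      have n2 := neg_mem e2
      have n3 := neg_mem e3
      fin_cases i <;> fin_cases k <;> simp only [uidx, Fin.zero_eta, Fin.mk_one,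
        Fin.reduceFinMk, Matrix.cons_val_zero, Matrix.cons_val_one, Matrix.cons_val]
      · convert P.zero_mem using 1; ring
      · convert e1 using 1; ring
      · convert e2 using 1; ring
      · convert n1 using 1; ring
      · convert P.zero_mem using 1; ring
      · convert e3 using 1; ring
      · convert n2 using 1; ring
      · convert n3 using 1; ring
      · convert P.zero_mem using 1; ring
    have hxi : π (sx i) ≠ 0 := fun h => hi (Ideal.Quotient.eq_zero_iff_mem.1 h)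
    have huj : π (sy (uidx j)) ≠ 0 := fun h => hj (Ideal.Quotient.eq_zero_iff_mem.1 h)
    have hui : π (sy (uidx i)) ≠ 0 := by
      intro h
      have h2 := rel i j
      rw [h, zero_mul] at h2
      exact mul_ne_zero hxi huj h2.symm
    have hle : Submodule.span ℂ {π (sy (uidx i))} * U ≤ Submodule.span ℂ {π (sx i)} * V := by
      rw [hU, Submodule.span_mul_span, Submodule.span_le]
      rintro _ ⟨_, rfl, _, ⟨k, rfl⟩, rfl⟩
      change π (sy (uidx i)) * π (sx k) ∈ _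
      rw [rel]
      exact Submodule.mul_mem_mul (Submodule.mem_span_singleton_self _)
        (Submodule.subset_span (Set.mem_range_self (uidx k)))
    rw [← finrank_span_mul hui (U ^ (a + 1) * V ^ b), ← finrank_span_mul hxi (U ^ a * V ^ (b + 1))]
    have hfin3 : Module.Finite ℂ (Submodule.span ℂ {π (sx i)} * (U ^ a * V ^ (b + 1)) :
        Submodule ℂ _) := by
      rw [← map_mulLeft]; infer_instance
    apply Submodule.finrank_mono
    calc Submodule.span ℂ {π (sy (uidx i))} * (U ^ (a + 1) * V ^ b)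
        = (Submodule.span ℂ {π (sy (uidx i))} * U) * (U ^ a * V ^ b) := by ring
      _ ≤ (Submodule.span ℂ {π (sx i)} * V) * (U ^ a * V ^ b) := mul_le_mul_left hle _
      _ = Submodule.span ℂ {π (sx i)} * (U ^ a * V ^ (b + 1)) := by ring

lemma good_of_mem_span {s : Set (Fin 3 → ℝ)} (hs : ∀ v ∈ s, Good v) {z : Fin 3 → ℝ}
    (hz : z ∈ Submodule.span NNReal s) : Good z := by
  induction hz using Submodule.span_induction with
  | mem x hx => exact hs x hx
  | zero => simp [Good]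
  | add x y _ _ hx hy =>
    obtain ⟨h1, h2, h3, h4⟩ := hx
    obtain ⟨k1, k2, k3, k4⟩ := hy
    simp only [Good, Pi.add_apply]
    exact ⟨by linarith, by linarith, by linarith, by linarith⟩
  | smul c x _ hx =>
    obtain ⟨h1, h2, h3, h4⟩ := hx
    have hc : (0 : ℝ) ≤ c := c.2
    simp only [Good, Pi.smul_apply, NNReal.smul_def, smul_eq_mul]
    exact ⟨by positivity, by positivity, by nlinarith, by nlinarith⟩

lemma good_pseudoEff {z : Fin 3 → ℝ} (hz : z ∈ pseudoEff Mx) : Good z := by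
  have hc : IsClosed {z : Fin 3 → ℝ | Good z} := by
    simp only [Good, Set.ofPred_and]
    refine (isClosed_le (by fun_prop) (by fun_prop)).inter
      ((isClosed_le (by fun_prop) (by fun_prop)).inter
      ((isClosed_le (by fun_prop) (by fun_prop)).inter (isClosed_le (by fun_prop) (by fun_prop))))
  refine closure_minimal (fun y hy => ?_) hc hz
  refine good_of_mem_span (s := surfaceClasses Mx) (fun v hv => ?_) hy
  obtain ⟨_, P, hP, hv⟩ := hv
  exact good_S hP hv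

end Pool.Agent.MP_f1b239_ag

end
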