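import Pool.Agent.Mg.Ff1b239.Gf96ad0
import Pool.Agent.Mg.Ff1b239.G05750f
import Pool.Agent.MP_f1b239_ag.Defs2

section

set_option autoImplicit false

namespace Pool.Agent.MP_f1b239_ag

open MvPolynomial Module

noncomputable abbrev HT (I : Ideal T) : ℕ → ℕ → ℕ := fun a b => HF (bw 3 3) I (a, b)

abbrev Hom (I : Ideal T) : Prop := IsHom (bw 3 3) I

abbrev GT (a b : ℕ) : Submodule ℂ T := Gr (bw 3 3) (a, b)

def cls (𝒢 : Ideal T → Prop) : Set (Fin 3 → ℝ) :=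
  {v | ∃ Q : Ideal T, Q.IsPrime ∧ Hom Q ∧ 𝒢 Q ∧ Deg (HT Q) v}

lemma cls_mono {𝒢 𝒢' : Ideal T → Prop} (h : ∀ Q, Q.IsPrime → 𝒢 Q → 𝒢' Q) : cls 𝒢 ⊆ cls 𝒢' :=
  fun _ ⟨Q, h1, h2, h3, h4⟩ => ⟨Q, h1, h2, h Q h1 h3, h4⟩

lemma HT_mono {I J : Ideal T} (h : I ≤ J) (a b : ℕ) : HT J a b ≤ HT I a b :=
  HF_mono (bw_ne_zero 3 3) h (a, b)

lemma HT_col {I : Ideal T} (hI : Hom I) {g : T} {p q : ℕ} (hg : g ∈ GT p q) (a b : ℕ) :
    HT (I ⊔ Ideal.span {g}) (p + a) (q + b) + HT (col I g) a b = HT I (p + a) (q + b) :=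
  HF_col (bw_ne_zero 3 3) hI hg (a, b)

lemma lt_sup_span {I : Ideal T} {g : T} (hg : g ∉ I) : I < I ⊔ Ideal.span {g} :=
  lt_of_le_of_ne le_sup_left fun h =>
    hg (h ▸ Ideal.mem_sup_right (Ideal.mem_span_singleton_self g))

lemma col_eq_of_prime {I : Ideal T} (hI : I.IsPrime) {g : T} (hg : g ∉ I) : col I g = I :=
  le_antisymm (fun _ h => (hI.mem_or_mem (mem_col.1 h)).resolve_left hg) (le_col I g)

lemma GT_le_of_x {I : Ideal T} (h : ∀ i, xx i ∈ I) {a b : ℕ} (ha : 1 ≤ a) :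
    ∀ p ∈ GT a b, p ∈ I := by
  obtain ⟨a, rfl⟩ := Nat.exists_eq_add_of_le ha
  intro p hp
  rw [GT, Gr_eq_XY, pow_add, pow_one, mul_assoc] at hp
  refine Submodule.mul_induction_on hp (fun m hm n _ => I.mul_mem_right _ ?_) fun _ _ => add_mem
  have : Xs 3 3 ≤ I.restrictScalars ℂ := by
    rw [Xs, Submodule.span_le]; rintro _ ⟨i, rfl⟩; exact h i
  exact this hm

lemma GT_le_of_y {I : Ideal T} (h : ∀ i, ll i ∈ I) {a b : ℕ} (hb : 1 ≤ b) :
    ∀ p ∈ GT a b, p ∈ I := by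
  obtain ⟨b, rfl⟩ := Nat.exists_eq_add_of_le hb
  intro p hp
  rw [GT, Gr_eq_XY, pow_add, pow_one, mul_left_comm] at hp
  refine Submodule.mul_induction_on hp (fun m hm n _ => I.mul_mem_right _ ?_) fun _ _ => add_mem
  have : Ys 3 3 ≤ I.restrictScalars ℂ := by
    rw [Ys, Submodule.span_le]; rintro _ ⟨i, rfl⟩; exact h i
  exact this hm

theorem exists_deg {I₀ : Ideal T} {v₀ : Fin 3 → ℝ} (h₀ : Deg (HT I₀) v₀) (I : Ideal T) :
    I₀ ≤ I → Hom I → ∃ v, Deg (HT I) v ∧ v ∈ Submodule.span NNReal (cls fun Q => I ≤ Q) := by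
  induction I using (wellFounded_gt (α := Ideal T)).induction with
  | _ I ih =>
  intro hle hh
  by_cases htop : I = ⊤
  · refine ⟨0, Deg.zero (M := 0) fun a b _ _ => HF_eq_zero (bw_ne_zero 3 3) ?_, zero_mem _⟩
    intro p _; rw [htop]; trivial
  by_cases hp : I.IsPrime
  · suffices h : ∃ v, Deg (HT I) v by
      obtain ⟨v, hv⟩ := h
      exact ⟨v, hv, Submodule.subset_span ⟨I, hp, hh, le_rfl, hv⟩⟩
    by_cases hx : ∀ i, xx i ∈ I
    · exact ⟨0, Deg.zero (M := 1) fun a b ha _ => HF_eq_zero (bw_ne_zero 3 3) (GT_le_of_x hx ha)⟩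
    by_cases hy : ∀ i, ll i ∈ I
    · exact ⟨0, Deg.zero (M := 1) fun a b _ hb => HF_eq_zero (bw_ne_zero 3 3) (GT_le_of_y hy hb)⟩
    push Not at hx hy
    obtain ⟨i, hi⟩ := hx
    obtain ⟨j, hj⟩ := hy
    obtain ⟨v₁, h₁, -⟩ := ih _ (lt_sup_span hi) (hle.trans le_sup_left) (hh.sup_span (X_inl_mem i))
    obtain ⟨v₂, h₂, -⟩ := ih _ (lt_sup_span hj) (hle.trans le_sup_left) (hh.sup_span (X_inr_mem j))
    refine Deg.integrate h₁ h₂ h₀ (fun a b => ?_) (fun a b => ?_) (HT_mono hle)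
    · have := HT_col hh (X_inl_mem i) a b
      rwa [col_eq_of_prime hp hi, zero_add] at this
    · have := HT_col hh (X_inr_mem j) a b
      rwa [col_eq_of_prime hp hj, zero_add] at this
  · obtain ⟨g, h, ⟨p, q⟩, ε, hg, -, hgI, hhI, hgh⟩ := exists_hom_zero_div hh htop hp
    have hlt : I < col I g := lt_of_le_of_ne (le_col I g) fun e => hhI (e ▸ mem_col.2 hgh)
    obtain ⟨v₁, h₁, k₁⟩ := ih _ (lt_sup_span hgI) (hle.trans le_sup_left) (hh.sup_span hg)
    obtain ⟨v₂, h₂, k₂⟩ := ih _ hlt (hle.trans hlt.le) (hh.col hg)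
    refine ⟨v₁ + v₂, Deg.add_shift h₁ h₂ (HT_col hh hg), add_mem ?_ ?_⟩
    · exact Submodule.span_mono (cls_mono fun Q _ h => le_sup_left.trans h) k₁
    · exact Submodule.span_mono (cls_mono fun Q _ h => hlt.le.trans h) k₂

theorem subquot {A B₀ : Ideal T} {vA v₀ : Fin 3 → ℝ} (hA : Hom A) (dA : Deg (HT A) vA)
    (h₀ : Deg (HT B₀) v₀) {𝒢 : Ideal T → Prop}
    (h𝒢 : ∀ g ∈ A, ∀ Q : Ideal T, Q.IsPrime → col B₀ g ≤ Q → 𝒢 Q) (B : Ideal T) :
    B₀ ≤ B → B ≤ A → Hom B → ∀ vB, Deg (HT B) vB → vB - vA ∈ Submodule.span NNReal (cls 𝒢) := by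
  induction B using (wellFounded_gt (α := Ideal T)).induction with
  | _ B ih =>
  intro h1 h2 hh vB dB
  by_cases hAB : A ≤ B
  · obtain rfl : B = A := le_antisymm h2 hAB
    rw [dB.unique dA, sub_self]
    exact zero_mem _
  obtain ⟨⟨p, q⟩, g, hg, hgA, hgB⟩ := exists_hom_notMem hA hAB
  obtain ⟨v₁, h₁, -⟩ := exists_deg h₀ (B ⊔ Ideal.span {g}) (h1.trans le_sup_left) (hh.sup_span hg)
  obtain ⟨v₂, h₂, k₂⟩ := exists_deg h₀ (col B g) (h1.trans (le_col B g)) (hh.col hg)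
  have k₁ := ih _ (lt_sup_span hgB) (h1.trans le_sup_left)
    (sup_le h2 ((Ideal.span_singleton_le_iff_mem _).2 hgA)) (hh.sup_span hg) v₁ h₁
  rw [dB.unique (Deg.add_shift h₁ h₂ (HT_col hh hg)), add_sub_right_comm]
  refine add_mem k₁ (Submodule.span_mono (cls_mono fun Q hQ h => ?_) k₂)
  exact h𝒢 g hgA Q hQ ((col_mono h1 g).trans h)

lemma deg_zero_of_gt {Q₀ Q : Ideal T} {v₀ v : Fin 3 → ℝ} (hp : Q₀.IsPrime) (hh₀ : Hom Q₀)
    (d₀ : Deg (HT Q₀) v₀) (hh : Hom Q) (hle : Q₀ ≤ Q) (hne : ¬ Q ≤ Q₀) (d : Deg (HT Q) v) :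
    v = 0 := by
  obtain ⟨⟨p, q⟩, u, hu, huQ, huI⟩ := exists_hom_notMem hh hne
  have hle3 : Q₀ ⊔ Ideal.span {u} ≤ Q := sup_le hle ((Ideal.span_singleton_le_iff_mem _).2 huQ)
  obtain ⟨c₁, c₂, c₀, N, d₀⟩ := d₀
  refine d.eq_zero_of_small (d₁ := v₀ 0 * p + v₀ 1 * q) (d₂ := v₀ 1 * p + v₀ 2 * q)
    (d₀ := c₁ * p + c₂ * q - (v₀ 0 * p ^ 2 / 2 + v₀ 1 * p * q + v₀ 2 * q ^ 2 / 2))
    (M := N + p + q) fun a b ha hb => ?_
  have h1 : (HT Q a b : ℝ) ≤ HT (Q₀ ⊔ Ideal.span {u}) a b := by exact_mod_cast HT_mono hle3 a b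
  have h2 := HF_step hp hh₀ hu huI (a := a) (b := b) (by omega) (by omega)
  have h3 := d₀ a b (by omega) (by omega)
  have h4 := d₀ (a - p) (b - q) (by omega) (by omega)
  rw [Nat.cast_sub (by omega), Nat.cast_sub (by omega)] at h4
  simp only [HT] at h1 h3 h4
  rw [h2, h3, h4] at h1
  refine h1.trans (le_of_eq ?_)
  ring

/-- Either a homogeneous ideal above a prime surface is that prime, or its class vanishes. -/
lemma deg_eq_or_zero {Q₀ Q : Ideal T} {v₀ v : Fin 3 → ℝ} (hp : Q₀.IsPrime) (hh₀ : Hom Q₀)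
    (d₀ : Deg (HT Q₀) v₀) (hh : Hom Q) (hle : Q₀ ≤ Q) (d : Deg (HT Q) v) : v = v₀ ∨ v = 0 := by
  by_cases hne : Q ≤ Q₀
  · obtain rfl : Q = Q₀ := le_antisymm hne hle
    exact Or.inl (d.unique d₀)
  · exact Or.inr (deg_zero_of_gt hp hh₀ d₀ hh hle hne d)

end Pool.Agent.MP_f1b239_ag

end

section

set_option autoImplicit false

namespace Pool.Agent.MP_f1b239_ag

open MvPolynomial Module

def sat (I : Ideal T) (z : T) : Ideal T where
  carrier := {u | ∃ N : ℕ, z ^ N * u ∈ I}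
  zero_mem' := ⟨0, by simp⟩
  add_mem' := by
    rintro a b ⟨N, h1⟩ ⟨M, h2⟩
    refine ⟨N + M, ?_⟩
    have : z ^ (N + M) * (a + b) = z ^ M * (z ^ N * a) + z ^ N * (z ^ M * b) := by ring
    rw [this]
    exact add_mem (I.mul_mem_left _ h1) (I.mul_mem_left _ h2)
  smul_mem' := by
    rintro c a ⟨N, h⟩
    refine ⟨N, ?_⟩
    rw [smul_eq_mul, mul_left_comm]
    exact I.mul_mem_left _ h

lemma mem_sat {I : Ideal T} {z u : T} : u ∈ sat I z ↔ ∃ N : ℕ, z ^ N * u ∈ I := Iff.rfl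

lemma le_sat (I : Ideal T) (z : T) : I ≤ sat I z := fun u h => ⟨0, by simpa using h⟩

lemma sat_mono {I J : Ideal T} (h : I ≤ J) (z : T) : sat I z ≤ sat J z :=
  fun _ ⟨N, hN⟩ => ⟨N, h hN⟩

lemma hom_sat {I : Ideal T} (hI : Hom I) {z : T} {δ : ℕ × ℕ} (hz : z ∈ Gr (bw 3 3) δ) :
    Hom (sat I z) := by
  rintro p ⟨N, hN⟩ e
  exact ⟨N, (hI.col (IsWeightedHomogeneous.pow hz N)) p hN e⟩

lemma sat_eq_col (I : Ideal T) (z : T) : ∃ N : ℕ, sat I z = col I (z ^ N) := by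
  let c : ℕ →o Ideal T := ⟨fun n => col I (z ^ n), monotone_nat_of_le_succ fun n u hu => by
    rw [mem_col] at hu ⊢
    rw [pow_succ', mul_assoc]
    exact I.mul_mem_left _ hu⟩
  obtain ⟨N, hN⟩ := monotone_stabilizes_iff_noetherian.mpr (inferInstance : IsNoetherian T T) c
  refine ⟨N, le_antisymm ?_ fun u hu => ⟨N, hu⟩⟩
  rintro u ⟨M, hM⟩
  have h1 : u ∈ c (max N M) := c.monotone (le_max_right N M) hM
  rw [← hN _ (le_max_left N M)] at h1
  exact h1

noncomputable def rho : T := xx 0 ^ 2 * ll 1 + xx 0 * xx 1 * ll 2 + xx 1 ^ 2 * ll 0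
noncomputable def om : T := xx 0 ^ 2 * ll 2 + xx 2 ^ 2 * ll 1
noncomputable def g3 : T :=
  (xx 0 ^ 2 * xx 1 + xx 2 ^ 3) * ll 1 + (xx 0 ^ 2 * xx 2 + xx 0 * xx 1 ^ 2) * ll 2
noncomputable def f3 : T := xx 1 ^ 3 * ll 0 + g3

lemma f3_eq : f3 = xx 1 * rho + xx 2 * om := by
  rw [f3, g3, rho, om]; ring

lemma xx_mem (i : Fin 3) : xx i ∈ GT 1 0 := X_inl_mem i
lemma ll_mem (i : Fin 3) : ll i ∈ GT 0 1 := X_inr_mem i

lemma GT_mul {a b c d : ℕ} {p q : T} (hp : p ∈ GT a b) (hq : q ∈ GT c d) :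
    p * q ∈ GT (a + c) (b + d) := IsWeightedHomogeneous.mul hp hq

lemma GT_pow {a b : ℕ} {p : T} (hp : p ∈ GT a b) (n : ℕ) : p ^ n ∈ GT (n * a) (n * b) :=
  IsWeightedHomogeneous.pow hp n

lemma om_mem : om ∈ GT 2 1 := add_mem (term_mem 0 2) (term_mem 2 1)

lemma rho_mem : rho ∈ GT 2 1 :=
  add_mem (add_mem (term_mem 0 1) (GT_mul (GT_mul (xx_mem 0) (xx_mem 1)) (ll_mem 2))) (term_mem 1 0)

lemma f3_mem : f3 ∈ GT 3 1 := by
  rw [f3_eq]
  exact add_mem (GT_mul (xx_mem 1) rho_mem) (GT_mul (xx_mem 2) om_mem)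

lemma dg_g3 : degreeOf (Sum.inr 0) g3 = 0 :=
  dg_add (dg_mul (dg_add (dg_mul (dg_pow (dg_xx _ _) _) (dg_xx _ _)) (dg_pow (dg_xx _ _) _))
    (dg_ll (by decide)))
    (dg_mul (dg_add (dg_mul (dg_pow (dg_xx _ _) _) (dg_xx _ _))
      (dg_mul (dg_xx _ _) (dg_pow (dg_xx _ _) _))) (dg_ll (by decide)))

lemma f3_prime : Prime f3 := by
  rw [← UniqueFactorizationMonoid.irreducible_iff_prime]
  apply irreducible_mul_X_add
  · exact pow_ne_zero _ (X_ne_zero _)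
  · rw [mem_vars_iff_degreeOf_ne_zero, not_not]
    exact dg_pow (dg_xx _ _) _
  · rw [mem_vars_iff_degreeOf_ne_zero, not_not]
    exact dg_g3
  · apply IsRelPrime.pow_left
    rw [X_prime.irreducible.isRelPrime_iff_not_dvd]
    apply not_dvd_of_eval (fun k => if k = Sum.inl 1 then 0 else 1)
    · simp
    · simp [g3]

lemma om_prime : Prime om := by
  rw [← UniqueFactorizationMonoid.irreducible_iff_prime]
  apply irreducible_mul_X_add
  · exact pow_ne_zero _ (X_ne_zero _)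
  · rw [mem_vars_iff_degreeOf_ne_zero, not_not]
    exact dg_pow (dg_xx _ _) _
  · rw [mem_vars_iff_degreeOf_ne_zero, not_not]
    exact dg_mul (dg_pow (dg_xx _ _) _) (dg_ll (by decide))
  · apply IsRelPrime.pow_left
    rw [X_prime.irreducible.isRelPrime_iff_not_dvd]
    apply not_dvd_of_eval (fun k => if k = Sum.inl 0 then 0 else 1) <;> simp

noncomputable abbrev I3 : Ideal T := Ideal.span {f3}

lemma I3_prime : I3.IsPrime := (Ideal.span_singleton_prime f3_prime.ne_zero).2 f3_prime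

lemma f3_mem_I3 : f3 ∈ I3 := Ideal.mem_span_singleton_self _

lemma hom_span {g : T} {δ : ℕ × ℕ} (hg : g ∈ Gr (bw 3 3) δ) : Hom (Ideal.span {g}) := by
  have := (isHom_bot (w := bw 3 3)).sup_span hg
  rwa [bot_sup_eq] at this

lemma hom_I3 : Hom I3 := hom_span f3_mem

lemma dg_f3 : degreeOf (Sum.inr 0) f3 ≠ 0 := by
  intro h
  have h1 : degreeOf (Sum.inr 0) (f3 - g3) = 0 := dg_sub h dg_g3
  have h2 : f3 - g3 = xx 1 ^ 3 * ll 0 := by simp [f3]
  rw [h2, degreeOf_mul_eq (pow_ne_zero _ (X_ne_zero _)) (X_ne_zero _), degreeOf_X_self] at h1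
  omega

lemma eq_zero_of_free3 {p : T} (hp : degreeOf (Sum.inr 0) p = 0) (h : p ∈ I3) : p = 0 := by
  obtain ⟨c, rfl⟩ := Ideal.mem_span_singleton'.1 h
  by_cases hc : c = 0
  · simp [hc]
  · rw [degreeOf_mul_eq hc f3_prime.ne_zero] at hp
    have := dg_f3
    omega

lemma xx_notMem (i : Fin 3) : xx i ∉ I3 := fun h => X_ne_zero _ (eq_zero_of_free3 (dg_xx _ _) h)

lemma elim3 (p : T) :
    ∃ (N : ℕ) (p' : T), degreeOf (Sum.inr 0) p' = 0 ∧ xx 1 ^ N * p - p' ∈ I3 := by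
  induction p using MvPolynomial.induction_on with
  | C a => exact ⟨0, C a, degreeOf_C _ _, by simp⟩
  | add p q hp hq =>
    obtain ⟨N, p', h1, h2⟩ := hp
    obtain ⟨M, q', h3, h4⟩ := hq
    refine ⟨N + M, xx 1 ^ M * p' + xx 1 ^ N * q',
      dg_add (dg_mul (dg_pow (dg_xx _ _) _) h1) (dg_mul (dg_pow (dg_xx _ _) _) h3), ?_⟩
    have : xx 1 ^ (N + M) * (p + q) - (xx 1 ^ M * p' + xx 1 ^ N * q') =
        xx 1 ^ M * (xx 1 ^ N * p - p') + xx 1 ^ N * (xx 1 ^ M * q - q') := by ring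
    rw [this]
    exact add_mem (Ideal.mul_mem_left _ _ h2) (Ideal.mul_mem_left _ _ h4)
  | mul_X p i hp =>
    obtain ⟨N, p', h1, h2⟩ := hp
    by_cases hi : i = Sum.inr 0
    · subst hi
      refine ⟨N + 3, p' * (0 - g3), dg_mul h1 (dg_sub (degreeOf_zero _) dg_g3), ?_⟩
      have : xx 1 ^ (N + 3) * (p * ll 0) - p' * (0 - g3) =
          (xx 1 ^ 3 * ll 0) * (xx 1 ^ N * p - p') + p' * f3 := by rw [f3]; ring
      rw [this]
      exact add_mem (Ideal.mul_mem_left _ _ h2) (Ideal.mul_mem_left _ _ f3_mem_I3)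
    · refine ⟨N, p' * X i, dg_mul h1 (degreeOf_X_of_ne (Ne.symm hi)), ?_⟩
      have : xx 1 ^ N * (p * X i) - p' * X i = X i * (xx 1 ^ N * p - p') := by ring
      rw [this]
      exact Ideal.mul_mem_left _ _ h2

lemma sat_prime {π G : T} {k : ℕ} (hπ : Prime π) (hfree : degreeOf (Sum.inr 0) π = 0)
    (hx : ¬ π ∣ xx 1) (hk : xx 1 ^ k * G - π ∈ I3) :
    (sat (I3 ⊔ Ideal.span {G}) (xx 1)).IsPrime := by
  have key : ∀ a : T, (∃ (N : ℕ) (a' : T), π ∣ a' ∧ xx 1 ^ N * a - a' ∈ I3) →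
      a ∈ sat (I3 ⊔ Ideal.span {G}) (xx 1) := by
    rintro a ⟨N, _, ⟨a'', rfl⟩, h⟩
    refine ⟨N, ?_⟩
    have : xx 1 ^ N * a = ((xx 1 ^ N * a - π * a'') - a'' * (xx 1 ^ k * G - π)) +
        (a'' * xx 1 ^ k) * G := by ring
    rw [this]
    exact add_mem (Ideal.mem_sup_left (sub_mem h (Ideal.mul_mem_left _ _ hk)))
      (Ideal.mem_sup_right (Ideal.mul_mem_left _ _ (Ideal.mem_span_singleton_self _)))
  have key2 : ∀ u u' : T, ∀ N : ℕ, degreeOf (Sum.inr 0) u' = 0 → xx 1 ^ N * u - u' ∈ I3 →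
      u ∈ sat (I3 ⊔ Ideal.span {G}) (xx 1) → π ∣ u' := by
    rintro u u' N h1 h2 ⟨L, h3⟩
    obtain ⟨i, hi, z, hz, hiz⟩ := Submodule.mem_sup.1 h3
    obtain ⟨c, rfl⟩ := Ideal.mem_span_singleton'.1 hz
    obtain ⟨M, c', h4, h5⟩ := elim3 c
    have h6 : xx 1 ^ (k + M + L) * u' - xx 1 ^ N * c' * π ∈ I3 := by
      have : xx 1 ^ (k + M + L) * u' - xx 1 ^ N * c' * π =
          xx 1 ^ (k + M + N) * i - xx 1 ^ (k + M + L) * (xx 1 ^ N * u - u') +
            xx 1 ^ (N + k) * G * (xx 1 ^ M * c - c') + xx 1 ^ N * c' * (xx 1 ^ k * G - π) := by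
        linear_combination (- xx 1 ^ (k + M + N)) * hiz
      rw [this]
      exact add_mem (add_mem (sub_mem (Ideal.mul_mem_left _ _ hi) (Ideal.mul_mem_left _ _ h2))
        (Ideal.mul_mem_left _ _ h5)) (Ideal.mul_mem_left _ _ hk)
    have h7 := eq_zero_of_free3 (dg_sub (dg_mul (dg_pow (dg_xx _ _) _) h1)
      (dg_mul (dg_mul (dg_pow (dg_xx _ _) _) h4) hfree)) h6
    have h8 : π ∣ xx 1 ^ (k + M + L) * u' := ⟨xx 1 ^ N * c', by rw [sub_eq_zero.1 h7]; ring⟩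
    exact (hπ.dvd_or_dvd h8).resolve_left fun h => hx (hπ.dvd_of_dvd_pow h)
  constructor
  · rw [Ideal.ne_top_iff_one]
    intro h
    exact hπ.not_dvd_one (key2 1 1 0 (degreeOf_one _) (by simp) h)
  · intro a b hab
    obtain ⟨N, a', h1, h2⟩ := elim3 a
    obtain ⟨M, b', h3, h4⟩ := elim3 b
    have h5 : xx 1 ^ (N + M) * (a * b) - a' * b' ∈ I3 := by
      have : xx 1 ^ (N + M) * (a * b) - a' * b' =
          xx 1 ^ M * b * (xx 1 ^ N * a - a') + a' * (xx 1 ^ M * b - b') := by ring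
      rw [this]
      exact add_mem (Ideal.mul_mem_left _ _ h2) (Ideal.mul_mem_left _ _ h4)
    rcases hπ.dvd_or_dvd (key2 _ _ _ (dg_mul h1 h3) h5 hab) with h | h
    · exact Or.inl (key a ⟨N, a', h, h2⟩)
    · exact Or.inr (key b ⟨M, b', h, h4⟩)

lemma exists_section3 {Q : Ideal T} (hQ : Q.IsPrime) (hh : Hom Q) (hf : f3 ∈ Q)
    (hne : ¬ Q ≤ I3) (hx : xx 1 ∉ Q) :
    ∃ (G : T) (p q : ℕ), G ∈ GT p q ∧ G ∉ I3 ⊔ Ideal.span {xx 1} ∧
      (sat (I3 ⊔ Ideal.span {G}) (xx 1)).IsPrime ∧ sat (I3 ⊔ Ideal.span {G}) (xx 1) ≤ Q := by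
  classical
  have hle : I3 ≤ Q := (Ideal.span_singleton_le_iff_mem _).2 hf
  have hex : ∃ n, ∃ g : T, g.totalDegree = n ∧ g ≠ 0 ∧ g ∈ Q ∧ degreeOf (Sum.inr 0) g = 0 ∧
      ∃ m, g ∈ Gr (bw 3 3) m := by
    obtain ⟨g, hgQ, hgI⟩ := SetLike.not_le_iff_exists.1 hne
    obtain ⟨N, g', h1, h2⟩ := elim3 g
    have h3 : g' ∈ Q := by
      have : g' = xx 1 ^ N * g - (xx 1 ^ N * g - g') := by ring
      rw [this]
      exact sub_mem (Ideal.mul_mem_left _ _ hgQ) (hle h2)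
    have h4 : g' ∉ (⊥ : Ideal T) := by
      rw [Ideal.mem_bot]
      rintro rfl
      rw [sub_zero] at h2
      rcases I3_prime.mem_or_mem h2 with h | h
      · exact xx_notMem 1 (I3_prime.mem_of_pow_mem _ h)
      · exact hgI h
    obtain ⟨m, hm⟩ := exists_cmp_notMem (w := bw 3 3) h4
    exact ⟨_, cmp (bw 3 3) m g', rfl, by simpa using hm, hh _ h3 m, dg_cmp h1 m, m, cmp_mem _ _⟩
  obtain ⟨g, hgd, hg0, hgQ, hgf, m, hgm⟩ := Nat.find_spec hex
  have hmin : ∀ g' : T, g' ≠ 0 → g' ∈ Q → degreeOf (Sum.inr 0) g' = 0 →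
      (∃ m, g' ∈ Gr (bw 3 3) m) → g.totalDegree ≤ g'.totalDegree := by
    intro g' h1 h2 h3 h4
    rw [hgd]
    exact Nat.find_min' hex ⟨g', rfl, h1, h2, h3, h4⟩
  have hgp : Prime g := by
    obtain ⟨s, hs, hsa⟩ := UniqueFactorizationMonoid.exists_prime_factors g hg0
    have h1 : s.prod ∈ Q := Q.mem_of_dvd hsa.symm.dvd hgQ
    obtain ⟨π, hπs, hπQ⟩ := (hQ.multiset_prod_mem_iff_exists_mem s).1 h1
    have hπ := hs π hπs
    obtain ⟨c, hc⟩ : π ∣ g := (Multiset.dvd_prod hπs).trans hsa.dvd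
    have hc0 : c ≠ 0 := by rintro rfl; simp [hg0] at hc
    have hπf : degreeOf (Sum.inr 0) π = 0 := by
      rw [hc, degreeOf_mul_eq hπ.ne_zero hc0] at hgf
      omega
    have h4 : π ∉ (⊥ : Ideal T) := by simpa using hπ.ne_zero
    obtain ⟨m', hm'⟩ := exists_cmp_notMem (w := bw 3 3) h4
    have h5 := hmin (cmp (bw 3 3) m' π) (by simpa using hm') (hh _ hπQ m') (dg_cmp hπf m')
      ⟨m', cmp_mem _ _⟩
    have h6 := td_cmp (w := bw 3 3) π m'
    have h7 : g.totalDegree = π.totalDegree + c.totalDegree := by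
      rw [hc, totalDegree_mul_of_isDomain hπ.ne_zero hc0]
    have h8 : c.totalDegree = 0 := by omega
    rw [totalDegree_eq_zero_iff_eq_C] at h8
    have h9 : IsUnit c := by
      rw [h8]
      refine (IsUnit.mk0 _ ?_).map C
      intro h
      rw [h, map_zero] at h8
      exact hc0 h8
    rw [hc]
    exact (associated_mul_unit_right π c h9).prime hπ
  have hgx : ¬ g ∣ xx 1 := fun h => hx (Q.mem_of_dvd h hgQ)
  obtain ⟨p₀, q⟩ := m
  have hex2 : ∃ p, ∃ (k : ℕ) (G : T), G ∈ Gr (bw 3 3) (p, q) ∧ xx 1 ^ k * G - g ∈ I3 :=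
    ⟨p₀, 0, g, hgm, by simp⟩
  obtain ⟨k, G, hGm, hGk⟩ := Nat.find_spec hex2
  set p := Nat.find hex2 with hp
  have hGI : G ∉ I3 := by
    intro h
    have : g ∈ I3 := by
      have : g = xx 1 ^ k * G - (xx 1 ^ k * G - g) := by ring
      rw [this]
      exact sub_mem (Ideal.mul_mem_left _ _ h) hGk
    exact hg0 (eq_zero_of_free3 hgf this)
  have hG : G ∉ I3 ⊔ Ideal.span {xx 1} := by
    intro h
    obtain ⟨i, hi, z, hz, hiz⟩ := Submodule.mem_sup.1 h
    obtain ⟨c, rfl⟩ := Ideal.mem_span_singleton'.1 hz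
    have h1 : G = cmp (bw 3 3) (p, q) i + cmp (bw 3 3) (p, q) (xx 1 * c) := by
      rw [← cmp_add, mul_comm, hiz, cmp_self hGm]
    rcases hp0 : p with _ | p'
    · rw [hp0, cmp_mul_not_le (X_inl_mem 1) (by simp), add_zero] at h1
      exact hGI (h1 ▸ hom_I3 i hi _)
    · have h2 : ((p' + 1, q) : ℕ × ℕ) = (1, 0) + (p', q) := by
        ext <;> simp [add_comm]
      rw [hp0] at h1
      conv_rhs at h1 => rw [h2, cmp_mul_add (X_inl_mem 1)]
      have h3 : p ≤ p' := by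
        apply Nat.find_min' hex2
        refine ⟨k + 1, cmp (bw 3 3) (p', q) c, cmp_mem _ _, ?_⟩
        have : xx 1 ^ (k + 1) * cmp (bw 3 3) (p', q) c - g =
            (xx 1 ^ k * G - g) - xx 1 ^ k * cmp (bw 3 3) ((1, 0) + (p', q)) i := by
          conv_rhs => rw [h1]
          ring
        rw [this]
        exact sub_mem hGk (Ideal.mul_mem_left _ _ (hom_I3 i hi _))
      omega
  have hGQ : G ∈ Q := by
    have : xx 1 ^ k * G ∈ Q := by
      have : xx 1 ^ k * G = (xx 1 ^ k * G - g) + g := by ring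
      rw [this]
      exact add_mem (hle hGk) hgQ
    exact (hQ.mem_or_mem this).resolve_left fun h => hx (hQ.mem_of_pow_mem _ h)
  refine ⟨G, p, q, hGm, hG, sat_prime hgp hgf hgx hGk, ?_⟩
  rintro u ⟨N, hN⟩
  have h1 := sup_le hle ((Ideal.span_singleton_le_iff_mem _).2 hGQ) hN
  exact (hQ.mem_or_mem h1).resolve_left fun h => hx (hQ.mem_of_pow_mem _ h)

/-! The fibre `pp` and the residual surface `WW`. -/

noncomputable abbrev X1 : Ideal T := Ideal.span {xx 1}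
noncomputable abbrev pp : Ideal T := X1 ⊔ Ideal.span {xx 2}
noncomputable abbrev WW : Ideal T := X1 ⊔ Ideal.span {om}

lemma X1_prime : X1.IsPrime := (Ideal.span_singleton_prime (X_ne_zero _)).2 X_prime

lemma x1_mem : xx 1 ∈ X1 := Ideal.mem_span_singleton_self _

lemma X1_sup_prime {g : T} (hg : Prime g) (hfix : aeval (fun k => if k = Sum.inl 1 then 0 else X k :
    Fin 3 ⊕ Fin 3 → T) g = g) : (X1 ⊔ Ideal.span {g}).IsPrime := by
  classical
  let κ : T →ₐ[ℂ] T := aeval fun k => if k = Sum.inl 1 then 0 else X k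
  have hκ : ∀ p, κ p - p ∈ X1 := by
    apply sub_mem_of_X
    intro i
    by_cases h : i = Sum.inl 1
    · subst h
      simp [κ]
    · simp [κ, h]
  have hg' : κ g = g := hfix
  have hP : (Ideal.span {g}).IsPrime := (Ideal.span_singleton_prime hg.ne_zero).2 hg
  have : X1 ⊔ Ideal.span {g} = (Ideal.span {g}).comap κ := by
    apply le_antisymm
    · rw [sup_le_iff, Ideal.span_singleton_le_iff_mem, Ideal.span_singleton_le_iff_mem,
        Ideal.mem_comap, Ideal.mem_comap, hg']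
      exact ⟨by simp [κ], Ideal.mem_span_singleton_self _⟩
    · intro p hp
      rw [Ideal.mem_comap] at hp
      have : p = κ p - (κ p - p) := by ring
      rw [this]
      exact sub_mem (Ideal.mem_sup_right hp) (Ideal.mem_sup_left (hκ p))
  rw [this]
  exact Ideal.IsPrime.comap κ

lemma pp_prime : pp.IsPrime := X1_sup_prime X_prime (by simp)

lemma WW_prime : WW.IsPrime := X1_sup_prime om_prime (by simp [om])

lemma hom_X1 : Hom X1 := hom_span (xx_mem 1)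
lemma hom_pp : Hom pp := hom_X1.sup_span (xx_mem 2)
lemma hom_WW : Hom WW := hom_X1.sup_span om_mem

lemma notMem_X1 {g : T} (h : eval (fun k => if k = Sum.inl 1 then (0 : ℂ) else 1) g ≠ 0) :
    g ∉ X1 := by
  rw [Ideal.mem_span_singleton]
  exact not_dvd_of_eval _ (by simp) h

lemma HT_bot (a b : ℕ) :
    (HT ⊥ a b : ℝ) = (a + 1) * (a + 2) / 2 * ((b + 1) * (b + 2) / 2) := by
  rw [HT, HF_bot, finrank_Gr_bw]
  push_cast
  rw [mc3, mc3]

lemma HT_span {g : T} {p q : ℕ} (hg : g ∈ GT p q) (h0 : g ≠ 0) {a b : ℕ} (ha : p ≤ a)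
    (hb : q ≤ b) : (HT (Ideal.span {g}) a b : ℝ) = HT ⊥ a b - HT ⊥ (a - p) (b - q) := by
  have := HF_step (Ideal.isPrime_bot) isHom_bot hg (by simpa using h0) ha hb
  rwa [bot_sup_eq] at this

lemma HT_X1 {a : ℕ} (ha : 1 ≤ a) (b : ℕ) :
    (HT X1 a b : ℝ) = (a + 1) * ((b + 1) * (b + 2) / 2) := by
  rw [HT_span (xx_mem 1) (X_ne_zero _) ha (Nat.zero_le _), HT_bot, HT_bot, Nat.cast_sub ha]
  simp
  ring

lemma deg_pp : Deg (HT pp) ![0, 0, 1] := by
  refine ⟨0, 3 / 2, 1, 2, fun a b ha hb => ?_⟩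
  have := HF_step X1_prime hom_X1 (xx_mem 2) (notMem_X1 (by simp)) (a := a) (b := b)
    (by omega) (by omega)
  have h1 := HT_X1 (a := a) (by omega) b
  have h2 := HT_X1 (a := a - 1) (by omega) b
  rw [Nat.cast_sub (by omega)] at h2
  simp only [HT, Nat.sub_zero] at this h1 h2 ⊢
  rw [this, h1, h2]
  simp
  ring

lemma deg_WW : Deg (HT WW) ![0, 1, 2] := by
  refine ⟨1, 2, 1, 3, fun a b ha hb => ?_⟩
  have := HF_step X1_prime hom_X1 om_mem (notMem_X1 (by simp [om])) (a := a) (b := b)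
    (by omega) (by omega)
  have h1 := HT_X1 (a := a) (by omega) b
  have h2 := HT_X1 (a := a - 2) (by omega) (b - 1)
  rw [Nat.cast_sub (by omega), Nat.cast_sub (by omega)] at h2
  simp only [HT] at this h1 h2 ⊢
  rw [this, h1, h2]
  simp
  ring

lemma om_notMem_pp : om ∉ pp := by
  intro h
  let e : Fin 3 ⊕ Fin 3 → ℂ := Sum.elim ![1, 0, 0] fun _ => 1
  have : pp ≤ RingHom.ker (eval e) := by
    rw [sup_le_iff, Ideal.span_singleton_le_iff_mem, Ideal.span_singleton_le_iff_mem]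
    simp [RingHom.mem_ker, e]
  simpa [RingHom.mem_ker, e, om] using this h

lemma mem_of_mem_pp_WW {G : T} (h1 : G ∈ pp) (h2 : G ∈ WW) : G ∈ I3 ⊔ X1 := by
  obtain ⟨i, hi, z, hz, rfl⟩ := Submodule.mem_sup.1 h2
  obtain ⟨c, rfl⟩ := Ideal.mem_span_singleton'.1 hz
  have h3 : c * om ∈ pp := by simpa using sub_mem h1 (Ideal.mem_sup_left hi)
  have h4 := (pp_prime.mem_or_mem h3).resolve_right om_notMem_pp
  obtain ⟨j, hj, z', hz', rfl⟩ := Submodule.mem_sup.1 h4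
  obtain ⟨e, rfl⟩ := Ideal.mem_span_singleton'.1 hz'
  have : i + (j + e * xx 2) * om = e * f3 + (i + j * om - e * rho * xx 1) := by
    rw [f3_eq]; ring
  rw [this]
  exact add_mem (Ideal.mem_sup_left (Ideal.mul_mem_left _ _ f3_mem_I3))
    (Ideal.mem_sup_right (sub_mem (add_mem hi (Ideal.mul_mem_right _ _ hj))
      (Ideal.mul_mem_left _ _ x1_mem)))

lemma pp_or_WW {Q : Ideal T} (hQ : Q.IsPrime) (hf : f3 ∈ Q) (hx : xx 1 ∈ Q) :
    pp ≤ Q ∨ WW ≤ Q := by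
  have h1 : xx 2 * om ∈ Q := by
    have : xx 2 * om = f3 - xx 1 * rho := by rw [f3_eq]; ring
    rw [this]
    exact sub_mem hf (Q.mul_mem_right _ hx)
  have h2 : X1 ≤ Q := (Ideal.span_singleton_le_iff_mem _).2 hx
  rcases hQ.mem_or_mem h1 with h | h
  · exact Or.inl (sup_le h2 ((Ideal.span_singleton_le_iff_mem _).2 h))
  · exact Or.inr (sup_le h2 ((Ideal.span_singleton_le_iff_mem _).2 h))

lemma f3_mem_WW : f3 ∈ WW := by
  rw [f3_eq]
  exact add_mem (Ideal.mem_sup_left (Ideal.mul_mem_right _ _ x1_mem))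
    (Ideal.mem_sup_right (Ideal.mul_mem_left _ _ (Ideal.mem_span_singleton_self _)))

noncomputable def Phi3 (x y : ℝ) : ℝ :=
  x ^ 2 * y / 2 + 3 * x * y ^ 2 / 2 + x ^ 2 / 2 + 3 * x * y + 3 * x / 2 + y + 1

lemma HT_I3 {a b : ℕ} (ha : 3 ≤ a) (hb : 1 ≤ b) : (HT I3 a b : ℝ) = Phi3 a b := by
  rw [HT_span f3_mem f3_prime.ne_zero ha hb, HT_bot, HT_bot, Nat.cast_sub ha, Nat.cast_sub hb, Phi3]
  push_cast
  ring

lemma deg_sec3 {G : T} {p q : ℕ} (hG : G ∈ GT p q) (hGI : G ∉ I3) :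
    Deg (HT (I3 ⊔ Ideal.span {G})) ![q, p + 3 * q, 3 * p] := by
  let L : ℝ → ℝ → ℝ := fun x y => Phi3 x y - Phi3 (x - p) (y - q) -
    (q * x ^ 2 / 2 + (p + 3 * q) * x * y + 3 * p * y ^ 2 / 2)
  refine ⟨L 1 0 - L 0 0, L 0 1 - L 0 0, L 0 0, p + q + 3, fun a b ha hb => ?_⟩
  have := HF_step I3_prime hom_I3 hG hGI (a := a) (b := b) (by omega) (by omega)
  have h1 := HT_I3 (a := a) (b := b) (by omega) (by omega)
  have h2 := HT_I3 (a := a - p) (b := b - q) (by omega) (by omega)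
  rw [Nat.cast_sub (by omega), Nat.cast_sub (by omega)] at h2
  simp only [HT] at this h1 h2 ⊢
  rw [this, h1, h2]
  simp only [L, Phi3, Matrix.cons_val_zero, Matrix.cons_val_one, Matrix.cons_val]
  ring

lemma not_deg_I3 (v : Fin 3 → ℝ) : ¬ Deg (HT I3) v := by
  rintro ⟨c₁, c₂, c₀, N, h⟩
  have key : ∀ a b : ℕ, N + 3 ≤ a → N + 3 ≤ b → Phi3 a b =
      v 0 * (a : ℝ) ^ 2 / 2 + v 1 * a * b + v 2 * (b : ℝ) ^ 2 / 2 + c₁ * a + c₂ * b + c₀ := by
    intro a b ha hb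
    rw [← HT_I3 (by omega) (by omega)]
    exact h a b (by omega) (by omega)
  have h1 := key (N + 3) (N + 3) (by omega) (by omega)
  have h2 := key (N + 3) (N + 4) (by omega) (by omega)
  have h3 := key (N + 3) (N + 5) (by omega) (by omega)
  have h4 := key (N + 4) (N + 3) (by omega) (by omega)
  have h5 := key (N + 4) (N + 4) (by omega) (by omega)
  have h6 := key (N + 4) (N + 5) (by omega) (by omega)
  unfold Phi3 at h1 h2 h3 h4 h5 h6
  push_cast at h1 h2 h3 h4 h5 h6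
  have : (0 : ℝ) = 3 := by linear_combination -(h6 - 2 * h5 + h4 - h3 + 2 * h2 - h1)
  norm_num at this

end Pool.Agent.MP_f1b239_ag

end

section

set_option autoImplicit false

namespace Pool.Agent.MP_f1b239_ag

open MvPolynomial Module

lemma scaling {σ B : Type} [CommRing B] [Algebra ℂ B] (ν : σ → ℕ)
    (φ φ' : MvPolynomial σ ℂ →ₐ[ℂ] B) (c : B) (h : ∀ k, φ' (X k) = c ^ ν k * φ (X k))
    {u : MvPolynomial σ ℂ} {e : ℕ} (hu : IsWeightedHomogeneous ν u e) : φ' u = c ^ e * φ u := by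
  induction hu using IsWeightedHomogeneous.induction_on with
  | zero => simp
  | add p q hp hq ihp ihq => rw [map_add, map_add, ihp, ihq, mul_add]
  | monomial d r hr =>
    rw [monomial_eq, map_mul, map_mul, Finsupp.prod, map_prod, map_prod, ← hr,
      Finsupp.weight_apply, Finsupp.sum, ← Finset.prod_pow_eq_pow_sum, mul_left_comm,
      ← Finset.prod_mul_distrib]
    congr 1
    · exact (φ'.commutes r).trans (φ.commutes r).symm
    · refine Finset.prod_congr rfl fun k _ => ?_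
      rw [map_pow, map_pow, h, mul_pow, ← pow_mul, smul_eq_mul, mul_comm (d k)]

def nu2 : Fin 3 ⊕ Fin 3 → ℕ := Sum.elim ![0, 1, 1] fun _ => 0

lemma weight_nu2 (d : Fin 3 ⊕ Fin 3 →₀ ℕ) :
    Finsupp.weight nu2 d = d (Sum.inl 1) + d (Sum.inl 2) := by
  rw [Finsupp.weight_apply, Finsupp.sum_fintype _ _ (by simp), Fintype.sum_sum_type]
  simp [nu2, Fin.sum_univ_three]

noncomputable def Theta : T →ₐ[ℂ] Polynomial T :=
  aeval fun k => Polynomial.X ^ nu2 k * Polynomial.C (X k)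

noncomputable abbrev cm2 (k : ℕ) (u : T) : T := weightedHomogeneousComponent nu2 k u

lemma Theta_hom {u : T} {e : ℕ} (hu : IsWeightedHomogeneous nu2 u e) :
    Theta u = Polynomial.X ^ e * Polynomial.C u :=
  scaling nu2 Polynomial.CAlgHom Theta Polynomial.X (fun k => by simp [Theta]) hu

lemma coeff_Theta (u : T) (k : ℕ) : (Theta u).coeff k = cm2 k u := by
  induction u using MvPolynomial.induction_on' with
  | monomial d c =>
    have h := isWeightedHomogeneous_monomial nu2 d c rfl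
    rw [Theta_hom h, cm2, weightedHomogeneousComponent_of_mem h, mul_comm,
      Polynomial.coeff_C_mul_X_pow]
  | add p q hp hq => rw [map_add, Polynomial.coeff_add, hp, hq, cm2, cm2, cm2, map_add]

noncomputable def VV (i : ℕ) : Ideal T := (Ideal.span {Polynomial.X ^ i}).comap Theta

lemma mem_VV {i : ℕ} {u : T} : u ∈ VV i ↔ Polynomial.X ^ i ∣ Theta u := by
  rw [VV, Ideal.mem_comap, Ideal.mem_span_singleton]

lemma mem_VV' {i : ℕ} {u : T} : u ∈ VV i ↔ ∀ k < i, cm2 k u = 0 := by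
  rw [mem_VV, Polynomial.X_pow_dvd_iff]
  simp only [coeff_Theta]

lemma mem_VV_support {i : ℕ} {u : T} :
    u ∈ VV i ↔ ∀ d ∈ u.support, i ≤ d (Sum.inl 1) + d (Sum.inl 2) := by
  rw [mem_VV']
  constructor
  · intro h d hd
    by_contra hlt
    have := h _ (not_le.1 hlt)
    have h2 := congrArg (coeff d) this
    rw [coeff_weightedHomogeneousComponent, if_pos (weight_nu2 d), coeff_zero] at h2
    exact mem_support_iff.1 hd h2
  · intro h k hk
    apply weightedHomogeneousComponent_eq_zero'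
    intro d hd
    have := h d hd
    rw [weight_nu2]
    omega

lemma hom_VV (i : ℕ) : Hom (VV i) := by
  classical
  intro p hp e
  rw [mem_VV_support] at hp ⊢
  intro d hd
  rw [support_weightedHomogeneousComponent, Finset.mem_filter] at hd
  exact hp d hd.1

lemma VV_mul {i k : ℕ} {u z : T} (hu : u ∈ VV i) (hz : z ∈ VV k) : u * z ∈ VV (i + k) := by
  rw [mem_VV] at hu hz ⊢
  rw [map_mul, pow_add]
  exact mul_dvd_mul hu hz

lemma VV_anti {i k : ℕ} (h : i ≤ k) : VV k ≤ VV i := fun _ hu =>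
  mem_VV.2 ((pow_dvd_pow _ h).trans (mem_VV.1 hu))

lemma mem_VV_zero (u : T) : u ∈ VV 0 := mem_VV.2 (by simp)

lemma cm2_mul {i k : ℕ} {u z : T} (hu : u ∈ VV i) (hz : z ∈ VV k) :
    cm2 (i + k) (u * z) = cm2 i u * cm2 k z := by
  obtain ⟨p, hp⟩ := mem_VV.1 hu
  obtain ⟨q, hq⟩ := mem_VV.1 hz
  rw [← coeff_Theta, ← coeff_Theta, ← coeff_Theta, map_mul, hp, hq, mul_mul_mul_comm, ← pow_add]
  have h1 := Polynomial.coeff_X_pow_mul p i 0
  have h2 := Polynomial.coeff_X_pow_mul q k 0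
  have h3 := Polynomial.coeff_X_pow_mul (p * q) (i + k) 0
  rw [zero_add] at h1 h2 h3
  rw [h1, h2, h3, Polynomial.mul_coeff_zero]

lemma hom_mem_VV {u : T} {e : ℕ} (hu : IsWeightedHomogeneous nu2 u e) : u ∈ VV e :=
  mem_VV.2 ⟨_, Theta_hom hu⟩

lemma sub_cm2_mem {i : ℕ} {u : T} (hu : u ∈ VV i) : u - cm2 i u ∈ VV (i + 1) := by
  rw [mem_VV'] at hu ⊢
  intro k hk
  rw [cm2, map_sub, weightedHomogeneousComponent_of_mem (weightedHomogeneousComponent_mem _ _ _)]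
  split_ifs with h
  · subst h; simp
  · rw [sub_zero]; exact hu k (by omega)

lemma col_VV {g : T} (hg : g ∈ VV 1) (h1 : cm2 1 g ≠ 0) (i : ℕ) : col (VV (i + 1)) g = VV i := by
  apply le_antisymm
  · intro c hc
    rw [mem_col, mem_VV, map_mul] at hc
    obtain ⟨p, hp⟩ := mem_VV.1 hg
    have h2 := Polynomial.coeff_X_pow_mul p 1 0
    rw [← hp, zero_add, coeff_Theta] at h2
    rw [hp, pow_succ', pow_one, mul_assoc, mul_dvd_mul_iff_left Polynomial.X_ne_zero] at hc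
    rw [mem_VV]
    refine Polynomial.prime_X.pow_dvd_of_dvd_mul_left i ?_ hc
    rw [Polynomial.X_dvd_iff, ← h2]
    exact h1
  · intro c hc
    rw [mem_col, add_comm]
    exact VV_mul hg hc

lemma x1_nu : IsWeightedHomogeneous nu2 (xx 1) 1 := isWeightedHomogeneous_X ℂ nu2 (Sum.inl 1)
lemma x2_nu : IsWeightedHomogeneous nu2 (xx 2) 1 := isWeightedHomogeneous_X ℂ nu2 (Sum.inl 2)
lemma x0_nu : IsWeightedHomogeneous nu2 (xx 0) 0 := isWeightedHomogeneous_X ℂ nu2 (Sum.inl 0)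
lemma ll_nu (j : Fin 3) : IsWeightedHomogeneous nu2 (ll j) 0 :=
  isWeightedHomogeneous_X ℂ nu2 (Sum.inr j)

noncomputable def ell : T := xx 1 * ll 1 + xx 2 * ll 2

lemma ell_nu : IsWeightedHomogeneous nu2 (xx 0 ^ 2 * ell) 1 :=
  (x0_nu.pow 2).mul ((x1_nu.mul (ll_nu 1)).add (x2_nu.mul (ll_nu 2)))

lemma f3_sub_mem : f3 - xx 0 ^ 2 * ell ∈ VV 2 := by
  have : f3 - xx 0 ^ 2 * ell = (xx 1 * xx 1) * (xx 1 * ll 0 + xx 0 * ll 2) +
      (xx 2 * xx 2) * (xx 2 * ll 1) := by rw [f3, g3, ell]; ring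
  rw [this]
  exact add_mem (Ideal.mul_mem_right _ _ (hom_mem_VV (x1_nu.mul x1_nu)))
    (Ideal.mul_mem_right _ _ (hom_mem_VV (x2_nu.mul x2_nu)))

lemma f3_mem_VV : f3 ∈ VV 1 := by
  simpa using add_mem (VV_anti (by omega) f3_sub_mem) (hom_mem_VV ell_nu)

lemma cm2_f3 : cm2 1 f3 = xx 0 ^ 2 * ell := by
  have h := mem_VV'.1 f3_sub_mem 1 (by omega)
  rw [cm2, map_sub, weightedHomogeneousComponent_eq_self ell_nu, sub_eq_zero] at h
  exact h

lemma ell_prime : Prime ell := by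
  rw [← UniqueFactorizationMonoid.irreducible_iff_prime]
  apply irreducible_mul_X_add
  · exact X_ne_zero _
  · rw [mem_vars_iff_degreeOf_ne_zero, not_not]
    exact dg_xx _ _
  · rw [mem_vars_iff_degreeOf_ne_zero, not_not]
    exact dg_mul (dg_xx _ _) (dg_ll (by decide))
  · rw [X_prime.irreducible.isRelPrime_iff_not_dvd]
    apply not_dvd_of_eval (fun k => if k = Sum.inl 1 then 0 else 1) <;> simp

lemma col_VV_f3 (i : ℕ) : col (VV (i + 1)) f3 = VV i :=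
  col_VV f3_mem_VV (by
    rw [cm2_f3]; exact mul_ne_zero (pow_ne_zero _ (X_ne_zero _)) ell_prime.ne_zero) i

lemma col_VV_x1 (i : ℕ) : col (VV (i + 1)) (xx 1) = VV i :=
  col_VV (hom_mem_VV x1_nu) (by
    rw [cm2, weightedHomogeneousComponent_eq_self x1_nu]; exact X_ne_zero _) i

lemma monomial_mem_span {d : Fin 3 ⊕ Fin 3 →₀ ℕ} {k : Fin 3 ⊕ Fin 3} {n : ℕ} (h : n ≤ d k)
    (c : ℂ) : (monomial d c : T) ∈ Ideal.span {(X k : T) ^ n} := by
  rw [Ideal.mem_span_singleton, X_pow_eq_monomial]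
  refine ⟨monomial (d - Finsupp.single k n) c, ?_⟩
  rw [monomial_mul, one_mul, add_tsub_cancel_of_le (Finsupp.single_le_iff.2 h)]

lemma mem_of_monomials {I : Ideal T} {u : T} (h : ∀ d ∈ u.support, monomial d (coeff d u) ∈ I) :
    u ∈ I := by
  rw [u.as_sum]
  exact I.sum_mem h

lemma VV_sup_X1 (n : ℕ) : VV n ⊔ X1 = X1 ⊔ Ideal.span {xx 2 ^ n} := by
  apply le_antisymm
  · refine sup_le (fun u hu => mem_of_monomials fun d hd => ?_) le_sup_left
    have := mem_VV_support.1 hu d hd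
    by_cases h : 1 ≤ d (Sum.inl 1)
    · have h2 := monomial_mem_span h (coeff d u)
      rw [pow_one] at h2
      exact Ideal.mem_sup_left h2
    · exact Ideal.mem_sup_right (monomial_mem_span (by omega) _)
  · refine sup_le le_sup_right ?_
    rw [Ideal.span_singleton_le_iff_mem]
    apply Ideal.mem_sup_left
    simpa using hom_mem_VV (x2_nu.pow n)

lemma VV_one : VV 1 = pp := by
  have := VV_sup_X1 1
  rw [pow_one, sup_eq_left.2 ((Ideal.span_singleton_le_iff_mem _).2 (hom_mem_VV x1_nu))] at this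
  exact this

lemma HT_VV (n : ℕ) : ∀ a b : ℕ, n + 1 ≤ a →
    (HT (VV n) a b : ℝ) = n * (n + 1) / 2 * ((b + 1) * (b + 2) / 2) := by
  induction n with
  | zero =>
    intro a b _
    rw [HT, HF_eq_zero (bw_ne_zero 3 3) fun p _ => mem_VV_zero p]
    simp
  | succ n ih =>
    intro a b ha
    obtain ⟨a, rfl⟩ := Nat.exists_eq_add_of_le (show 1 ≤ a by omega)
    have h := HT_col (hom_VV (n + 1)) (xx_mem 1) a b
    rw [col_VV_x1, VV_sup_X1, zero_add] at h
    have h1 := congrArg (Nat.cast : ℕ → ℝ) h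
    push_cast at h1
    have hm : xx 2 ^ (n + 1) ∈ GT (n + 1) 0 := by simpa using GT_pow (xx_mem 2) (n + 1)
    have h2 := HF_step X1_prime hom_X1 hm (notMem_X1 (by simp)) (a := 1 + a) (b := b)
      (by omega) (by omega)
    have h3 := HT_X1 (a := 1 + a) (by omega) b
    have h4 := HT_X1 (a := 1 + a - (n + 1)) (by omega) b
    rw [Nat.cast_sub (by omega)] at h4
    have h5 := ih a b (by omega)
    simp only [HT, Nat.sub_zero] at h1 h2 h3 h4 h5 ⊢
    rw [← h1, h2, h3, h4, h5]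
    push_cast
    ring

noncomputable abbrev AA (n : ℕ) : Ideal T := VV n ⊔ I3

lemma hom_AA (n : ℕ) : Hom (AA n) := (hom_VV n).sup hom_I3

noncomputable def hh (n t : ℝ) : ℝ := n * t ^ 2 / 2 + (n ^ 2 / 2 + n) * t + n * (n + 1) / 2

lemma HT_AA (n : ℕ) {a b : ℕ} (ha : n + 4 ≤ a) (hb : 1 ≤ b) : (HT (AA n) a b : ℝ) = hh n b := by
  rcases n with _ | n
  · rw [HT, HF_eq_zero (bw_ne_zero 3 3) fun p _ => Ideal.mem_sup_left (mem_VV_zero p)]
    simp [hh]
  obtain ⟨a, rfl⟩ := Nat.exists_eq_add_of_le (show 3 ≤ a by omega)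
  obtain ⟨b, rfl⟩ := Nat.exists_eq_add_of_le hb
  have h := HT_col (hom_VV (n + 1)) f3_mem a b
  rw [col_VV_f3] at h
  have h1 := congrArg (Nat.cast : ℕ → ℝ) h
  push_cast at h1
  rw [HT_VV n a b (by omega), HT_VV (n + 1) (3 + a) (1 + b) (by omega)] at h1
  rw [eq_sub_of_add_eq h1, hh]
  push_cast
  ring

noncomputable def AB (n : ℕ) : Ideal T := sat (AA n) (xx 0)

lemma hom_AB (n : ℕ) : Hom (AB n) := hom_sat (hom_AA n) (xx_mem 0)

lemma I3_le_AB (n : ℕ) : I3 ≤ AB n := le_sup_right.trans (le_sat _ _)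

lemma VV_le_AB (n : ℕ) : VV n ≤ AB n := le_sup_left.trans (le_sat _ _)

lemma AB_anti {i k : ℕ} (h : i ≤ k) : AB k ≤ AB i := sat_mono (sup_le_sup_right (VV_anti h) _) _

lemma mem_AB_zero (u : T) : u ∈ AB 0 := VV_le_AB 0 (mem_VV_zero u)

lemma HT_AB (n : ℕ) {a b : ℕ} (ha : n + 4 ≤ a) (hb : 1 ≤ b) : (HT (AB n) a b : ℝ) = hh n b := by
  obtain ⟨N, hN⟩ := sat_eq_col (AA n) (xx 0)
  have hm : xx 0 ^ N ∈ GT N 0 := by simpa using GT_pow (xx_mem 0) N
  have h := HT_col (hom_AA n) hm a b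
  have h0 : HT (AA n ⊔ Ideal.span {xx 0 ^ N}) (N + a) (0 + b) = 0 := by
    refine HF_eq_zero (bw_ne_zero 3 3) fun p hp => mem_of_monomials fun d hd => ?_
    have h1 : Finsupp.weight (bw 3 3) d = (N + a, 0 + b) := hp (mem_support_iff.1 hd)
    rw [weight_bw, Prod.mk.injEq, Fin.sum_univ_three] at h1
    by_cases h2 : N ≤ d (Sum.inl 0)
    · exact Ideal.mem_sup_right (monomial_mem_span h2 _)
    · refine Ideal.mem_sup_left (Ideal.mem_sup_left (mem_VV_support.2 fun e he => ?_))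
      have := Finset.mem_singleton.1 (support_monomial_subset he)
      subst this
      omega
  rw [h0, zero_add, zero_add, ← hN] at h
  rw [AB, h, HT_AA n (by omega) hb]

lemma deg_AB (n : ℕ) : Deg (HT (AB n)) ![0, 0, n] :=
  ⟨0, n ^ 2 / 2 + n, n * (n + 1) / 2, n + 4, fun a b ha hb => by
    rw [HT_AB n ha (by omega), hh]; simp⟩

lemma HT_AB_le (n : ℕ) (a : ℕ) {b : ℕ} (hb : 1 ≤ b) : (HT (AB n) a b : ℝ) ≤ hh n b := by
  have h1 : ∀ k, HT (AB n) a b ≤ HT (AB n) (k + a) b := by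
    intro k
    have hm : xx 0 ^ k ∈ GT k 0 := by simpa using GT_pow (xx_mem 0) k
    have h := HT_col (hom_AB n) hm a b
    have h2 : col (AB n) (xx 0 ^ k) = AB n := by
      refine le_antisymm ?_ (le_col _ _)
      rintro u ⟨N, hN⟩
      exact ⟨N + k, by rwa [pow_add, mul_assoc]⟩
    rw [h2, zero_add] at h
    omega
  rw [← HT_AB n (a := n + 4 + a) (by omega) hb]
  exact_mod_cast h1 (n + 4)

lemma AB_one : AB 1 = pp := by
  have h1 : AA 1 = pp := by
    rw [AA, sup_eq_left.2 ((Ideal.span_singleton_le_iff_mem _).2 f3_mem_VV), VV_one]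
  rw [AB, h1]
  refine le_antisymm ?_ (le_sat _ _)
  rintro u ⟨N, hN⟩
  refine (pp_prime.mem_or_mem hN).resolve_left fun h => ?_
  have h2 := pp_prime.mem_of_pow_mem _ h
  rw [← VV_one, mem_VV'] at h2
  have h3 := h2 0 (by omega)
  rw [cm2, weightedHomogeneousComponent_eq_self x0_nu] at h3
  exact X_ne_zero _ h3

end Pool.Agent.MP_f1b239_ag

end

section

set_option autoImplicit false

namespace Pool.Agent.MP_f1b239_ag

open MvPolynomial Module

abbrev YY : Type := MvPolynomial (Fin 0 ⊕ Fin 3) ℂ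

noncomputable abbrev yy (j : Fin 3) : YY := X (Sum.inr j)

noncomputable def sub : T →ₐ[ℂ] YY := aeval (Sum.elim ![1, yy 2, - yy 1] yy)

noncomputable def inc : YY →ₐ[ℂ] T := aeval (Sum.elim Fin.elim0 ll)

lemma sub_x0 : sub (xx 0) = 1 := by simp [sub]
lemma sub_ell : sub ell = 0 := by simp [sub, ell]; ring

def LC (i : ℕ) (u : T) (c : YY) : Prop :=
  ∃ (N : ℕ) (u' : T), xx 0 ^ N * u - u' ∈ I3 ∧ u' ∈ VV i ∧ c = sub (cm2 i u')

lemma cm2_x0_mul (N i : ℕ) {u : T} (hu : u ∈ VV i) : cm2 i (xx 0 ^ N * u) = xx 0 ^ N * cm2 i u := by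
  have h : IsWeightedHomogeneous nu2 (xx 0 ^ N) 0 := by simpa using x0_nu.pow N
  have := cm2_mul (hom_mem_VV h) hu
  have h2 : cm2 0 (xx 0 ^ N) = xx 0 ^ N := weightedHomogeneousComponent_eq_self h
  rwa [zero_add, h2] at this

lemma LC.exists {i : ℕ} {u : T} (hu : u ∈ AB i) : ∃ c, LC i u c := by
  obtain ⟨N, hN⟩ := hu
  obtain ⟨v, hv, e, he, hve⟩ := Submodule.mem_sup.1 hN
  exact ⟨_, N, v, by rw [← hve]; simpa using he, hv, rfl⟩

lemma LC.mem {i : ℕ} {u : T} {c : YY} (h : LC i u c) : u ∈ AB i := by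
  obtain ⟨N, u', h1, h2, -⟩ := h
  refine ⟨N, ?_⟩
  simpa using add_mem (Ideal.mem_sup_right h1 : _ ∈ AA i) (Ideal.mem_sup_left h2)

lemma sub_cm2_I3 {i : ℕ} {u : T} (h1 : u ∈ I3) (h2 : u ∈ VV i) : sub (cm2 i u) = 0 := by
  obtain ⟨e, rfl⟩ := Ideal.mem_span_singleton'.1 h1
  rcases i with _ | i
  · rw [mem_VV'.1 (Ideal.mul_mem_left _ e f3_mem_VV) 0 (by omega), map_zero]
  · rw [mul_comm, ← mem_col, col_VV_f3] at h2
    rw [mul_comm, add_comm, cm2_mul f3_mem_VV h2, cm2_f3, map_mul, map_mul, sub_ell]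
    simp

lemma LC.unique {i : ℕ} {u : T} {c c' : YY} (h : LC i u c) (h' : LC i u c') : c = c' := by
  obtain ⟨N, v, h1, h2, rfl⟩ := h
  obtain ⟨M, w, k1, k2, rfl⟩ := h'
  have h3 : xx 0 ^ M * v - xx 0 ^ N * w ∈ I3 := by
    have : xx 0 ^ M * v - xx 0 ^ N * w =
        xx 0 ^ N * (xx 0 ^ M * u - w) - xx 0 ^ M * (xx 0 ^ N * u - v) := by ring
    rw [this]
    exact sub_mem (Ideal.mul_mem_left _ _ k1) (Ideal.mul_mem_left _ _ h1)
  have h4 := sub_cm2_I3 h3 (sub_mem (Ideal.mul_mem_left _ _ h2) (Ideal.mul_mem_left _ _ k2))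
  rw [cm2, map_sub, map_sub, sub_eq_zero] at h4
  have h5 := cm2_x0_mul M i h2
  have h6 := cm2_x0_mul N i k2
  rw [cm2] at h5 h6
  rw [h5, h6] at h4
  simpa [sub_x0] using h4

lemma LC.of_VV {i : ℕ} {u : T} (h : u ∈ VV i) : LC i u (sub (cm2 i u)) :=
  ⟨0, u, by simp, h, rfl⟩

lemma LC.of_hom {i : ℕ} {u : T} (h : IsWeightedHomogeneous nu2 u i) : LC i u (sub u) := by
  have := LC.of_VV (hom_mem_VV h)
  rwa [cm2, weightedHomogeneousComponent_eq_self h] at this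

lemma LC.mul {i k : ℕ} {u z : T} {c e : YY} (h : LC i u c) (h' : LC k z e) :
    LC (i + k) (u * z) (c * e) := by
  obtain ⟨N, v, h1, h2, rfl⟩ := h
  obtain ⟨M, w, k1, k2, rfl⟩ := h'
  refine ⟨N + M, v * w, ?_, VV_mul h2 k2, by rw [cm2_mul h2 k2, map_mul]⟩
  have : xx 0 ^ (N + M) * (u * z) - v * w =
      xx 0 ^ M * z * (xx 0 ^ N * u - v) + v * (xx 0 ^ M * z - w) := by ring
  rw [this]
  exact add_mem (Ideal.mul_mem_left _ _ h1) (Ideal.mul_mem_left _ _ k1)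

lemma LC.add {i : ℕ} {u z : T} {c e : YY} (h : LC i u c) (h' : LC i z e) :
    LC i (u + z) (c + e) := by
  obtain ⟨N, v, h1, h2, rfl⟩ := h
  obtain ⟨M, w, k1, k2, rfl⟩ := h'
  refine ⟨N + M, xx 0 ^ M * v + xx 0 ^ N * w, ?_,
    add_mem (Ideal.mul_mem_left _ _ h2) (Ideal.mul_mem_left _ _ k2), ?_⟩
  · have : xx 0 ^ (N + M) * (u + z) - (xx 0 ^ M * v + xx 0 ^ N * w) =
        xx 0 ^ M * (xx 0 ^ N * u - v) + xx 0 ^ N * (xx 0 ^ M * z - w) := by ring
    rw [this]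
    exact add_mem (Ideal.mul_mem_left _ _ h1) (Ideal.mul_mem_left _ _ k1)
  · have h5 := cm2_x0_mul M i h2
    have h6 := cm2_x0_mul N i k2
    rw [cm2] at h5 h6
    simp only [cm2]
    rw [map_add, h5, h6]
    simp [sub_x0]

lemma LC.smul {i : ℕ} {u : T} {c : YY} (r : ℂ) (h : LC i u c) : LC i (r • u) (r • c) := by
  have h0 : LC 0 (C r : T) (C r) := by
    have := LC.of_hom (isWeightedHomogeneous_C nu2 r)
    rwa [show sub (C r) = C r from sub.commutes r] at this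
  have := h0.mul h
  rwa [zero_add, ← smul_eq_C_mul, ← smul_eq_C_mul] at this

lemma LC.congr {i : ℕ} {u z : T} {c : YY} (h : LC i u c) (hz : z - u ∈ I3) : LC i z c := by
  obtain ⟨N, v, h1, h2, rfl⟩ := h
  refine ⟨N, v, ?_, h2, rfl⟩
  have : xx 0 ^ N * z - v = xx 0 ^ N * (z - u) + (xx 0 ^ N * u - v) := by ring
  rw [this]
  exact add_mem (Ideal.mul_mem_left _ _ hz) h1

lemma LC.zero_of_mem {i : ℕ} {u : T} (h : u ∈ AB (i + 1)) : LC i u 0 := by
  obtain ⟨c, N, v, h1, h2, -⟩ := LC.exists h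
  exact ⟨N, v, h1, VV_anti (by omega) h2, by rw [mem_VV'.1 h2 i (by omega), map_zero]⟩

lemma LC.hom_rep {i s t : ℕ} {u : T} {c : YY} (hu : u ∈ GT s t) (h : LC i u c) :
    ∃ (N : ℕ) (u' : T), u' ∈ GT (N + s) t ∧ xx 0 ^ N * u - u' ∈ I3 ∧ u' ∈ VV i ∧
      c = sub (cm2 i u') := by
  obtain ⟨N, v, h1, h2, h3⟩ := id h
  have hm : xx 0 ^ N * u ∈ GT (N + s) t := by simpa using GT_mul (GT_pow (xx_mem 0) N) hu
  have k1 := hom_I3 _ h1 (N + s, t)
  rw [cmp_sub, cmp_self hm] at k1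
  have k2 := hom_VV i _ h2 (N + s, t)
  exact ⟨N, _, cmp_mem _ _, k1, k2, h.unique ⟨N, _, k1, k2, rfl⟩⟩

lemma support_cm2 {i s t : ℕ} {u : T} (hu : u ∈ GT s t) {d : Fin 3 ⊕ Fin 3 →₀ ℕ}
    (hd : coeff d (cm2 i u) ≠ 0) : d (Sum.inl 1) + d (Sum.inl 2) = i ∧
      d (Sum.inl 0) + i = s ∧ d (Sum.inr 0) + d (Sum.inr 1) + d (Sum.inr 2) = t := by
  rw [coeff_weightedHomogeneousComponent] at hd
  split_ifs at hd with h
  · have h1 : Finsupp.weight (bw 3 3) d = (s, t) := hu hd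
    rw [weight_bw, Prod.mk.injEq, Fin.sum_univ_three, Fin.sum_univ_three] at h1
    rw [weight_nu2] at h
    omega
  · exact absurd rfl hd

def w3 : Fin 3 ⊕ Fin 3 → ℕ × ℕ := Sum.elim ![(0, 0), (0, 1), (0, 1)] fun _ => (0, 1)

lemma LC.deg {i s t : ℕ} {u : T} {c : YY} (hu : u ∈ GT s t) (h : LC i u c) :
    c ∈ Gr (bw 0 3) (0, t + i) := by
  obtain ⟨N, v, hv, -, -, rfl⟩ := h.hom_rep hu
  have hy : ∀ j, yy j ∈ Gr (bw 0 3) (0, 1) := fun j => X_inr_mem j
  refine map_mem_Gr (w := w3) (bw 0 3) (AddMonoidHom.id _) sub ?_ ?_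
  · rintro (k | k)
    · fin_cases k
      · have : IsWeightedHomogeneous (bw 0 3) (1 : YY) (0, 0) :=
          isWeightedHomogeneous_one ℂ (bw 0 3)
        simpa [sub, w3] using this
      · simpa [sub, w3] using hy 2
      · simpa [sub, w3, -mem_weightedHomogeneousSubmodule] using hy 1
    · simpa [sub, w3] using hy k
  · intro d hd
    obtain ⟨h1, -, h3⟩ := support_cm2 hv hd
    rw [Finsupp.weight_apply, Finsupp.sum_fintype _ _ (by simp), Fintype.sum_sum_type]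
    ext
    · simp [w3, Fin.sum_univ_three]
    · simp [w3, Fin.sum_univ_three]
      omega

def nu0 : Fin 3 ⊕ Fin 3 → ℕ := Sum.elim ![1, 0, 0] fun _ => 0

lemma congr_of_X {σ B : Type} [CommRing B] [Algebra ℂ B] {I : Ideal B}
    (φ ψ : MvPolynomial σ ℂ →ₐ[ℂ] B) (h : ∀ i, φ (X i) - ψ (X i) ∈ I) (p : MvPolynomial σ ℂ) :
    φ p - ψ p ∈ I := by
  have : (Ideal.Quotient.mkₐ ℂ I).comp φ = (Ideal.Quotient.mkₐ ℂ I).comp ψ := by
    apply MvPolynomial.algHom_ext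
    intro i
    simpa [Ideal.Quotient.eq] using h i
  have h2 := DFunLike.congr_fun this p
  simpa [Ideal.Quotient.eq] using h2

lemma ell_dvd {i e : ℕ} {u : T} (h2 : IsWeightedHomogeneous nu2 u i)
    (h0 : IsWeightedHomogeneous nu0 u e) (h : sub u = 0) : ell ∣ u := by
  let s' : T →ₐ[ℂ] T := aeval (Sum.elim ![xx 0, ll 2, - ll 1] ll)
  let φ₁ : T →ₐ[ℂ] T := aeval (Sum.elim ![xx 0, ll 2 * xx 1, ll 2 * xx 2] ll)
  let φ₂ : T →ₐ[ℂ] T := aeval (Sum.elim ![xx 0, xx 1 * ll 2, xx 1 * - ll 1] ll)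
  have e1 : s' u = xx 0 ^ e * (inc.comp sub) u := by
    refine scaling nu0 (inc.comp sub) s' (xx 0) ?_ h0
    rintro (k | k)
    · fin_cases k <;> simp [s', inc, sub, nu0]
    · simp [s', inc, sub, nu0]
  have e2 : φ₁ u = ll 2 ^ i * (AlgHom.id ℂ T) u := by
    refine scaling nu2 (AlgHom.id ℂ T) φ₁ (ll 2) ?_ h2
    rintro (k | k)
    · fin_cases k <;> simp [φ₁, nu2]
    · simp [φ₁, nu2]
  have e3 : φ₂ u = xx 1 ^ i * s' u := by
    refine scaling nu2 s' φ₂ (xx 1) ?_ h2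
    rintro (k | k)
    · fin_cases k <;> simp [φ₂, s', nu2]
    · simp [φ₂, s', nu2]
  have e4 : φ₁ u - φ₂ u ∈ Ideal.span {ell} := by
    apply congr_of_X
    rintro (k | k)
    · fin_cases k
      · simp [φ₁, φ₂]
      · simp [φ₁, φ₂, mul_comm]
      · rw [Ideal.mem_span_singleton]
        exact ⟨1, by simp [φ₁, φ₂, ell]; ring⟩
    · simp [φ₁, φ₂]
  rw [AlgHom.comp_apply, h, map_zero, mul_zero] at e1
  rw [e3, e1, mul_zero, sub_zero, e2, Ideal.mem_span_singleton] at e4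
  refine (ell_prime.dvd_or_dvd e4).resolve_left fun h => ?_
  have h3 := map_dvd (eval (fun k => if k = Sum.inr 2 then (1 : ℂ) else 0))
    (ell_prime.dvd_of_dvd_pow h)
  simp [ell] at h3

lemma LC.mem_succ {i s t : ℕ} {u : T} (hu : u ∈ GT s t) (h : LC i u 0) : u ∈ AB (i + 1) := by
  obtain ⟨N, v, hv, h1, h2, h3⟩ := h.hom_rep hu
  have k0 : IsWeightedHomogeneous nu0 (cm2 i v) (N + s - i) := by
    intro d hd
    obtain ⟨-, k2, -⟩ := support_cm2 hv hd
    rw [Finsupp.weight_apply, Finsupp.sum_fintype _ _ (by simp), Fintype.sum_sum_type]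
    simp [nu0, Fin.sum_univ_three]
    omega
  have k2 : IsWeightedHomogeneous nu2 (cm2 i v) i :=
    weightedHomogeneousComponent_isWeightedHomogeneous i v
  obtain ⟨c, hc⟩ := ell_dvd k2 k0 h3.symm
  have k3 := sub_cm2_mem h2
  have k4 : xx 0 ^ 2 * cm2 i v ∈ AA (i + 1) := by
    rcases i with _ | i
    · have h5 : cm2 0 v ∈ VV 1 := by
        rw [hc]
        exact Ideal.mul_mem_right _ _
          (hom_mem_VV ((x1_nu.mul (ll_nu 1)).add (x2_nu.mul (ll_nu 2))))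
      exact Ideal.mem_sup_left (Ideal.mul_mem_left _ _ h5)
    · have h5 : c ∈ VV i := by
        have h6 : (xx 0 ^ 2 * ell) * c ∈ VV (i + 1) := by
          rw [mul_assoc, ← hc]
          exact Ideal.mul_mem_left _ _ (hom_mem_VV k2)
        rwa [← mem_col, col_VV (hom_mem_VV ell_nu) (by
          rw [cm2, weightedHomogeneousComponent_eq_self ell_nu]
          exact mul_ne_zero (pow_ne_zero _ (X_ne_zero _)) ell_prime.ne_zero)] at h6
      have : xx 0 ^ 2 * cm2 (i + 1) v = f3 * c - (f3 - xx 0 ^ 2 * ell) * c := by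
        rw [hc]; ring
      rw [this]
      refine sub_mem (Ideal.mem_sup_right (Ideal.mul_mem_right _ _ f3_mem_I3))
        (Ideal.mem_sup_left ?_)
      have := VV_mul f3_sub_mem h5
      rwa [show 2 + i = i + 1 + 1 by omega] at this
  refine ⟨2 + N, ?_⟩
  have : xx 0 ^ (2 + N) * u = xx 0 ^ 2 * (xx 0 ^ N * u - v) + xx 0 ^ 2 * (v - cm2 i v) +
      xx 0 ^ 2 * cm2 i v := by ring
  rw [this]
  exact add_mem (add_mem (Ideal.mem_sup_right (Ideal.mul_mem_left _ _ h1))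
    (Ideal.mem_sup_left (Ideal.mul_mem_left _ _ k3))) k4

/-- Cancellation of a factor of known order. -/
lemma AB_cancel {j s t : ℕ} {G u : T} {g : YY} (hG : LC j G g) (hg : g ≠ 0) (hu : u ∈ GT s t)
    (r : ℕ) : G * u ∈ AB (j + r) → u ∈ AB r := by
  induction r with
  | zero => exact fun _ => mem_AB_zero u
  | succ r ih =>
    intro h
    obtain ⟨c, hc⟩ := LC.exists (ih (AB_anti (by omega) h))
    have h1 := (hG.mul hc).unique (LC.zero_of_mem h)
    rw [(mul_eq_zero.1 h1).resolve_left hg] at hc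
    exact hc.mem_succ hu

lemma LC_x1 (n : ℕ) : LC n (xx 1 ^ n) (yy 2 ^ n) := by
  have := LC.of_hom (x1_nu.pow n)
  simpa [sub] using this

lemma LC_x2 (n : ℕ) : LC n (xx 2 ^ n) ((- yy 1) ^ n) := by
  have := LC.of_hom (x2_nu.pow n)
  simpa [sub] using this

lemma LC_l1 : LC 0 (ll 1) (yy 1) := by
  have := LC.of_hom (ll_nu 1)
  simpa [sub] using this

end Pool.Agent.MP_f1b239_ag

end

section

set_option autoImplicit false

namespace Pool.Agent.MP_f1b239_ag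

open MvPolynomial Module

lemma hom_div {I : Ideal T} (hI : Hom I) {G p : T} {a b s t : ℕ} (hG : G ∈ GT a b)
    (hp : p ∈ GT s t) (h : p ∈ I ⊔ Ideal.span {G}) :
    p ∈ I ∨ ∃ (s' t' : ℕ) (c : T), s = a + s' ∧ t = b + t' ∧ c ∈ GT s' t' ∧ p - G * c ∈ I := by
  obtain ⟨i, hi, z, hz, hiz⟩ := Submodule.mem_sup.1 h
  obtain ⟨c, rfl⟩ := Ideal.mem_span_singleton'.1 hz
  have h1 : p = cmp (bw 3 3) (s, t) i + cmp (bw 3 3) (s, t) (G * c) := by
    rw [← cmp_add, mul_comm, hiz, cmp_self hp]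
  by_cases hle : ((a, b) : ℕ × ℕ) ≤ (s, t)
  · obtain ⟨⟨s', t'⟩, hk⟩ := exists_add_of_le hle
    right
    refine ⟨s', t', cmp (bw 3 3) (s', t') c, congrArg Prod.fst hk, congrArg Prod.snd hk,
      cmp_mem _ _, ?_⟩
    rw [← cmp_mul_add hG, ← hk, sub_eq_of_eq_add h1]
    exact hI i hi _
  · left
    rw [h1, cmp_mul_not_le hG hle, add_zero]
    exact hI i hi _

lemma var_sup_prime (v : Fin 3 ⊕ Fin 3) {g : T} (hg : Prime g)
    (hfix : aeval (fun k => if k = v then 0 else X k : Fin 3 ⊕ Fin 3 → T) g = g) :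
    (Ideal.span {X v} ⊔ Ideal.span {g} : Ideal T).IsPrime := by
  classical
  let κ : T →ₐ[ℂ] T := aeval fun k => if k = v then 0 else X k
  have hκ : ∀ p, κ p - p ∈ (Ideal.span {X v} : Ideal T) := by
    apply sub_mem_of_X
    intro i
    by_cases h : i = v
    · subst h
      simp [κ]
    · simp [κ, h]
  have hg' : κ g = g := hfix
  have hP : (Ideal.span {g}).IsPrime := (Ideal.span_singleton_prime hg.ne_zero).2 hg
  have : Ideal.span {X v} ⊔ Ideal.span {g} = (Ideal.span {g}).comap κ := by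
    apply le_antisymm
    · rw [sup_le_iff, Ideal.span_singleton_le_iff_mem, Ideal.span_singleton_le_iff_mem,
        Ideal.mem_comap, Ideal.mem_comap, hg']
      exact ⟨by simp [κ], Ideal.mem_span_singleton_self _⟩
    · intro p hp
      rw [Ideal.mem_comap] at hp
      have : p = κ p - (κ p - p) := by ring
      rw [this]
      exact sub_mem (Ideal.mem_sup_right hp) (Ideal.mem_sup_left (hκ p))
  rw [this]
  exact Ideal.IsPrime.comap κ

noncomputable def f4 : T := xx 1 ^ 3 * ll 0 + (xx 0 ^ 2 * xx 2 + xx 0 * xx 1 ^ 2) * ll 2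

lemma f4_prime : Prime f4 := by
  rw [← UniqueFactorizationMonoid.irreducible_iff_prime]
  apply irreducible_mul_X_add
  · exact pow_ne_zero _ (X_ne_zero _)
  · rw [mem_vars_iff_degreeOf_ne_zero, not_not]
    exact dg_pow (dg_xx _ _) _
  · rw [mem_vars_iff_degreeOf_ne_zero, not_not]
    exact dg_mul (dg_add (dg_mul (dg_pow (dg_xx _ _) _) (dg_xx _ _))
      (dg_mul (dg_xx _ _) (dg_pow (dg_xx _ _) _))) (dg_ll (by decide))
  · apply IsRelPrime.pow_left
    rw [X_prime.irreducible.isRelPrime_iff_not_dvd]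
    apply not_dvd_of_eval (fun k => if k = Sum.inl 1 then 0 else 1) <;> simp

noncomputable abbrev L1 : Ideal T := I3 ⊔ Ideal.span {ll 1}

lemma L1_prime : L1.IsPrime := by
  have h := var_sup_prime (Sum.inr 1) f4_prime (by simp [f4])
  have e : f3 = f4 + (xx 0 ^ 2 * xx 1 + xx 2 ^ 3) * ll 1 := by rw [f3, g3, f4]; ring
  have : L1 = Ideal.span {ll 1} ⊔ Ideal.span {f4} := by
    apply le_antisymm
    · refine sup_le ((Ideal.span_singleton_le_iff_mem _).2 ?_) le_sup_left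
      rw [e]
      exact add_mem (Ideal.mem_sup_right (Ideal.mem_span_singleton_self _))
        (Ideal.mem_sup_left (Ideal.mul_mem_left _ _ (Ideal.mem_span_singleton_self _)))
    · refine sup_le le_sup_right ((Ideal.span_singleton_le_iff_mem _).2 ?_)
      rw [eq_sub_of_add_eq e.symm]
      exact sub_mem (Ideal.mem_sup_left f3_mem_I3)
        (Ideal.mem_sup_right (Ideal.mul_mem_left _ _ (Ideal.mem_span_singleton_self _)))
  rw [this]
  exact h

lemma x1_notMem_L1 : xx 1 ∉ L1 := by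
  intro h
  let e : Fin 3 ⊕ Fin 3 → ℂ := Sum.elim (fun _ => 1) fun _ => 0
  have : L1 ≤ RingHom.ker (eval e) := by
    rw [sup_le_iff, Ideal.span_singleton_le_iff_mem, Ideal.span_singleton_le_iff_mem]
    simp [RingHom.mem_ker, e, f3, g3]
  simpa [RingHom.mem_ker, e] using this h

def nux : Fin 3 ⊕ Fin 3 → ℕ := Sum.elim (fun _ => 1) fun _ => 0
def nuy : Fin 3 ⊕ Fin 3 → ℕ := Sum.elim (fun _ => 0) fun _ => 1

lemma GT_nux {a b : ℕ} {u : T} (hu : u ∈ GT a b) : IsWeightedHomogeneous nux u a := by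
  intro d hd
  have h1 : Finsupp.weight (bw 3 3) d = (a, b) := hu hd
  rw [weight_bw, Prod.mk.injEq] at h1
  rw [Finsupp.weight_apply, Finsupp.sum_fintype _ _ (by simp), Fintype.sum_sum_type]
  simp [nux, h1.1]

lemma GT_nuy {a b : ℕ} {u : T} (hu : u ∈ GT a b) : IsWeightedHomogeneous nuy u b := by
  intro d hd
  have h1 : Finsupp.weight (bw 3 3) d = (a, b) := hu hd
  rw [weight_bw, Prod.mk.injEq] at h1
  rw [Finsupp.weight_apply, Finsupp.sum_fintype _ _ (by simp), Fintype.sum_sum_type]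
  simp [nuy, h1.2]

/-- Parametrisation of a cuspidal member of the net. -/
noncomputable def psi (k : ℂ) : T →ₐ[ℂ] Polynomial ℂ :=
  aeval (Sum.elim ![Polynomial.X ^ 3, Polynomial.X ^ 2, - Polynomial.X - Polynomial.C k]
    ![Polynomial.C k, 0, 1])

lemma psi_I3 (k : ℂ) {u : T} (hu : u ∈ I3) : psi k u = 0 := by
  obtain ⟨c, rfl⟩ := Ideal.mem_span_singleton'.1 hu
  have : psi k f3 = 0 := by
    simp [psi, f3, g3]
    ring
  rw [map_mul, this, mul_zero]

lemma exists_psi_ne {G : T} {a b : ℕ} (hG : G ∈ GT a b) (h : G ∉ L1) : ∃ k, psi k G ≠ 0 := by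
  classical
  by_contra hcon
  push Not at hcon
  obtain ⟨N, p, h1, h2⟩ := elim3 G
  have hm : xx 1 ^ N * G ∈ GT (N + a) b := by simpa using GT_mul (GT_pow (xx_mem 1) N) hG
  have k1 := hom_I3 _ h2 (N + a, b)
  rw [cmp_sub, cmp_self hm] at k1
  have k2 := dg_cmp (w := bw 3 3) h1 (N + a, b)
  have k3 : cmp (bw 3 3) (N + a, b) p ∈ GT (N + a) b := cmp_mem _ _
  set q := cmp (bw 3 3) (N + a, b) p with hq
  have k4 : ∀ k, psi k q = 0 := by
    intro k
    have := psi_I3 k k1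
    rw [map_sub, map_mul, hcon k, mul_zero, zero_sub, neg_eq_zero] at this
    exact this
  let κ : T →ₐ[ℂ] T := aeval fun k => if k = Sum.inr 1 then 0 else X k
  have hκ : κ q - q ∈ (Ideal.span {ll 1} : Ideal T) := by
    apply sub_mem_of_X
    intro i
    by_cases h : i = Sum.inr 1
    · subst h
      simp [κ]
    · simp [κ, h]
  have k5 : κ q * (xx 0 * xx 1 * ll 2) = 0 := by
    apply MvPolynomial.funext
    intro e
    rw [map_mul, map_zero, mul_eq_zero]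
    by_cases h0 : eval e (xx 0 * xx 1 * ll 2) = 0
    · exact Or.inr h0
    left
    simp only [map_mul, eval_X, mul_eq_zero, not_or] at h0
    obtain ⟨⟨e0, e1⟩, e2⟩ := h0
    set σ := e (Sum.inl 0) / e (Sum.inl 1) with hσ
    set μ := e (Sum.inl 1) ^ 3 / e (Sum.inl 0) ^ 2 with hμ
    set k := - σ - e (Sum.inl 2) / μ with hk
    let φ₀ : T →ₐ[ℂ] ℂ := (Polynomial.aeval σ).comp (psi k)
    let φ₁ : T →ₐ[ℂ] ℂ := aeval (Sum.elim (fun i => e (Sum.inl i)) ![k, 0, 1])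
    let φ₂ : T →ₐ[ℂ] ℂ :=
      aeval (Sum.elim (fun i => e (Sum.inl i)) ![e (Sum.inr 2) * k, 0, e (Sum.inr 2)])
    have s1 : φ₁ q = μ ^ (N + a) * φ₀ q := by
      refine scaling nux φ₀ φ₁ μ ?_ (GT_nux k3)
      rintro (i | i) <;> fin_cases i <;> simp [φ₀, φ₁, psi, nux]
      · rw [hμ, hσ]; field_simp
      · rw [hμ, hσ]; field_simp
      · rw [hk, hμ]; field_simp; ring
    have s2 : φ₂ q = e (Sum.inr 2) ^ b * φ₁ q := by
      refine scaling nuy φ₁ φ₂ _ ?_ (GT_nuy k3)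
      rintro (i | i) <;> fin_cases i <;> simp [φ₂, φ₁, nuy]
    have s3 : φ₀ q = 0 := by simp [φ₀, k4]
    have s4 : ((aeval e : T →ₐ[ℂ] ℂ).comp κ : T →+* ℂ) q = (φ₂ : T →+* ℂ) q := by
      refine hom_congr_vars ?_ ?_ rfl
      · ext r
        simp [κ, φ₂]
      · intro i hi _
        rw [mem_vars_iff_degreeOf_ne_zero] at hi
        rcases i with i | i <;> fin_cases i <;> simp [κ, φ₂]
        exact absurd k2 hi
    have s5 : eval e (κ q) = φ₂ q := s4
    rw [s5, s2, s1, s3]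
    simp
  have k6 : κ q = 0 := (mul_eq_zero.1 k5).resolve_right
    (mul_ne_zero (mul_ne_zero (X_ne_zero _) (X_ne_zero _)) (X_ne_zero _))
  rw [k6, zero_sub, neg_mem_iff] at hκ
  have k7 : xx 1 ^ N * G ∈ L1 := by
    simpa using add_mem (Ideal.mem_sup_left k1 : _ ∈ L1) (Ideal.mem_sup_right hκ)
  rcases L1_prime.mem_or_mem k7 with h3 | h3
  · exact x1_notMem_L1 (L1_prime.mem_of_pow_mem _ h3)
  · exact h h3

lemma natDegree_psi_monomial (k : ℂ) (d : Fin 3 ⊕ Fin 3 →₀ ℕ) (c : ℂ) :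
    (psi k (monomial d c)).natDegree ≤
      3 * d (Sum.inl 0) + 2 * d (Sum.inl 1) + d (Sum.inl 2) := by
  rw [psi, aeval_monomial, Finsupp.prod_fintype _ _ (by simp), Fintype.prod_sum_type,
    Fin.prod_univ_three, Fin.prod_univ_three]
  simp only [Sum.elim_inl, Sum.elim_inr, Matrix.cons_val_zero, Matrix.cons_val_one,
    Matrix.cons_val, Polynomial.algebraMap_eq]
  have h1 : (0 : Polynomial ℂ) = Polynomial.C 0 := by simp
  rw [h1, ← Polynomial.C_pow, ← Polynomial.C_pow]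
  compute_degree
  omega

lemma psi_bound (k : ℂ) {G : T} {a b n : ℕ} (hG : G ∈ GT a b) (h : psi k G ≠ 0)
    (hn : G ∈ AB n) : (psi k G).natDegree + n ≤ 3 * a := by
  obtain ⟨c, hc⟩ := LC.exists hn
  obtain ⟨N, u, hu, h1, h2, -⟩ := hc.hom_rep hG
  have h3 := psi_I3 k h1
  rw [map_sub, map_mul, map_pow, sub_eq_zero] at h3
  have h4 : psi k (xx 0) = Polynomial.X ^ 3 := by simp [psi]
  rw [h4, ← pow_mul] at h3
  have h5 : (psi k u).coeff ((psi k G).natDegree + 3 * N) ≠ 0 := by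
    rw [← h3, Polynomial.coeff_X_pow_mul]
    exact Polynomial.leadingCoeff_ne_zero.2 h
  by_contra hlt
  apply h5
  rw [u.as_sum, map_sum, Polynomial.finsetSum_coeff]
  refine Finset.sum_eq_zero fun d hd => Polynomial.coeff_eq_zero_of_natDegree_lt ?_
  have k1 := natDegree_psi_monomial k d (coeff d u)
  have k2 := mem_VV_support.1 h2 d hd
  have k3 : Finsupp.weight (bw 3 3) d = (N + a, b) := hu (mem_support_iff.1 hd)
  rw [weight_bw, Prod.mk.injEq, Fin.sum_univ_three] at k3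
  omega

lemma psi_not_const (k : ℂ) {G : T} {a b : ℕ} (hG : G ∈ GT (a + 1) b) (h : psi k G ≠ 0) :
    (psi k G).natDegree ≠ 0 := by
  intro h0
  let φ₁ : T →ₐ[ℂ] Polynomial ℂ :=
    aeval (Sum.elim ![0, 0, - Polynomial.X - Polynomial.C k] ![Polynomial.C k, 0, 1])
  let φ₀ : T →ₐ[ℂ] ℂ := aeval (Sum.elim ![0, 0, 1] ![k, 0, 1])
  have s1 : φ₁ G = (- Polynomial.X - Polynomial.C k) ^ (a + 1) *
      (Polynomial.CAlgHom.comp φ₀) G := by
    refine scaling nux _ φ₁ _ ?_ (GT_nux hG)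
    rintro (i | i) <;> fin_cases i <;> simp [φ₀, φ₁, nux]
  have s2 : psi k G - φ₁ G ∈ Ideal.span {(Polynomial.X : Polynomial ℂ) ^ 2} := by
    apply congr_of_X
    rintro (i | i) <;> fin_cases i <;> simp [psi, φ₁, Ideal.mem_span_singleton]
    exact pow_dvd_pow _ (by omega)
  obtain ⟨r, hr⟩ := Ideal.mem_span_singleton.1 s2
  rw [Polynomial.natDegree_eq_zero] at h0
  obtain ⟨c, hc⟩ := h0
  rw [← hc] at h hr
  rw [s1, AlgHom.comp_apply, Polynomial.CAlgHom_apply] at hr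
  have e0 := congrArg (Polynomial.eval 0) hr
  have e1 := congrArg (fun p => Polynomial.eval 0 (Polynomial.derivative p)) hr
  simp [Polynomial.derivative_pow] at e0 e1
  apply h
  rw [sub_eq_zero.1 e0]
  rcases e1 with (e1 | ⟨e1, -⟩) | e1
  · exact absurd e1 (Nat.cast_add_one_ne_zero a)
  · simp [e1]
  · simp [e1]

theorem tors (a n : ℕ) (b : ℕ) : ∀ G : T, G ∈ GT a b → G ∉ I3 → G ∈ AB n →
    n ≤ 3 * a ∧ (1 ≤ a → n < 3 * a) := by
  induction b using Nat.strong_induction_on with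
  | _ b ih =>
  intro G hG hI hn
  by_cases h : G ∈ L1
  · obtain ⟨s, t, c, h1, h2, h3, h4⟩ := (hom_div hom_I3 (ll_mem 1) hG h).resolve_left hI
    rw [zero_add] at h1
    subst h1
    refine ih t (by omega) c h3 (fun hc => hI ?_) ?_
    · simpa using add_mem h4 (Ideal.mul_mem_left _ (ll 1) hc)
    · refine AB_cancel LC_l1 (X_ne_zero _) h3 n ?_
      rw [zero_add]
      simpa using sub_mem hn (I3_le_AB n h4)
  · obtain ⟨k, hk⟩ := exists_psi_ne hG h
    have h1 := psi_bound k hG hk hn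
    refine ⟨by omega, fun ha => ?_⟩
    obtain ⟨a, rfl⟩ := Nat.exists_eq_add_of_le' ha
    have := psi_not_const k hG hk
    omega

end Pool.Agent.MP_f1b239_ag

end

section

set_option autoImplicit false

namespace Pool.Agent.MP_f1b239_ag

open MvPolynomial Module

lemma exists_special {a : ℕ} (ha : 3 ≤ a) :
    ∃ (b : ℕ) (G : T), G ∈ GT a b ∧ G ∉ I3 ∧ G ∈ AB (3 * a - 1) := by
  by_contra hcon
  push Not at hcon
  have key : ∀ b : ℕ, 1 ≤ b → Phi3 a b ≤ hh ((3 * a - 1 : ℕ) : ℝ) b := by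
    intro b hb
    rw [← HT_I3 ha hb]
    refine le_trans ?_ (HT_AB_le _ a hb)
    have h1 := HF_add_part (bw_ne_zero 3 3) I3 (a, b)
    have h2 := HF_add_part (bw_ne_zero 3 3) (AB (3 * a - 1)) (a, b)
    have := finite_part (bw_ne_zero 3 3) I3 (a, b)
    have h3 : finrank ℂ (part (bw 3 3) (AB (3 * a - 1)) (a, b)) ≤
        finrank ℂ (part (bw 3 3) I3 (a, b)) := by
      apply Submodule.finrank_mono
      intro u hu
      refine ⟨hu.1, ?_⟩
      by_contra h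
      exact hcon b u hu.1 h hu.2
    have h4 : HT I3 a b ≤ HT (AB (3 * a - 1)) a b := by simp only [HT]; omega
    exact_mod_cast h4
  rw [Nat.cast_sub (by omega)] at key
  have := lead_nonneg (A := -1 / 2)
    (B := (3 * (a : ℝ) - 1) ^ 2 / 2 + (3 * a - 1) - (a ^ 2 / 2 + 3 * a + 1))
    (C := (3 * (a : ℝ) - 1) * (3 * a) / 2 - (a ^ 2 / 2 + 3 * a / 2 + 1)) (N := 1) fun n hn => by
      have := key n hn
      unfold Phi3 hh at this
      push_cast at this
      nlinarith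
  norm_num at this

lemma AB_mul {i k : ℕ} {u z : T} (hu : u ∈ AB i) (hz : z ∈ AB k) : u * z ∈ AB (i + k) := by
  obtain ⟨c, hc⟩ := LC.exists hu
  obtain ⟨e, he⟩ := LC.exists hz
  exact (hc.mul he).mem

lemma mem_of_hom {I J : Ideal T} (hI : Hom I) (h : ∀ s t, ∀ u ∈ GT s t, u ∈ I → u ∈ J) :
    I ≤ J := by
  by_contra hne
  obtain ⟨⟨s, t⟩, u, hu, h1, h2⟩ := exists_hom_notMem hI hne
  exact h2 (h s t u hu h1)

section Sec

variable {G : T} {a b j : ℕ} {g : YY}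

lemma cancel_x1 (hG : G ∈ GT a b) (hW : G ∉ WW) (hg : LC j G g) (hg0 : g ≠ 0) {s t : ℕ} {u : T}
    (hu : u ∈ GT s t) (hj : u ∈ AB j) (h : xx 1 * u ∈ I3 ⊔ Ideal.span {G}) :
    u ∈ I3 ⊔ Ideal.span {G} := by
  rcases hom_div hom_I3 hG (GT_mul (xx_mem 1) hu) h with h1 | ⟨s', t', c, -, -, hc, h1⟩
  · exact Ideal.mem_sup_left ((I3_prime.mem_or_mem h1).resolve_left (xx_notMem 1))
  have hW' : I3 ≤ WW := (Ideal.span_singleton_le_iff_mem _).2 f3_mem_WW
  have h2 : G * c ∈ WW := by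
    simpa using sub_mem (Ideal.mem_sup_left (Ideal.mul_mem_right u _ x1_mem) : _ ∈ WW) (hW' h1)
  have h3 := (WW_prime.mem_or_mem h2).resolve_left hW
  have h4 : xx 1 * u ∈ AB (1 + j) := AB_mul (by simpa using (LC_x1 1).mem) hj
  have h5 : G * c ∈ AB (j + 1) := by
    rw [add_comm]
    simpa using sub_mem h4 (I3_le_AB _ h1)
  have h6 := AB_cancel hg hg0 hc 1 h5
  rw [AB_one] at h6
  obtain ⟨i, hi, z, hz, rfl⟩ := Submodule.mem_sup.1 (mem_of_mem_pp_WW h6 h3)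
  obtain ⟨e, rfl⟩ := Ideal.mem_span_singleton'.1 hz
  have h7 : xx 1 * (u - e * G) ∈ I3 := by
    have : xx 1 * (u - e * G) = (xx 1 * u - G * (i + e * xx 1)) + G * i := by ring
    rw [this]
    exact add_mem h1 (Ideal.mul_mem_left _ _ hi)
  have h8 := (I3_prime.mem_or_mem h7).resolve_left (xx_notMem 1)
  simpa using add_mem (Ideal.mem_sup_left h8 : _ ∈ I3 ⊔ Ideal.span {G})
    (Ideal.mem_sup_right (Ideal.mul_mem_left _ e (Ideal.mem_span_singleton_self G)))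

lemma sat_inf_AB (hG : G ∈ GT a b) (hW : G ∉ WW) (hg : LC j G g) (hg0 : g ≠ 0) :
    sat (I3 ⊔ Ideal.span {G}) (xx 1) ⊓ AB j = I3 ⊔ Ideal.span {G} := by
  apply le_antisymm
  · refine mem_of_hom ((hom_sat (hom_I3.sup_span hG) (xx_mem 1)).inf (hom_AB j)) ?_
    rintro s t u hu ⟨⟨N, hN⟩, h2⟩
    induction N with
    | zero => simpa using hN
    | succ N ih =>
      apply ih
      rw [pow_succ', mul_assoc] at hN
      exact cancel_x1 hG hW hg hg0 (GT_mul (GT_pow (xx_mem 1) N) hu)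
        (Ideal.mul_mem_left _ _ h2) hN
  · exact le_inf (le_sat _ _)
      (sup_le (I3_le_AB j) ((Ideal.span_singleton_le_iff_mem _).2 hg.mem))

lemma dvd_of_mem_J (hG : G ∈ GT a b) (hg : LC j G g) (hg0 : g ≠ 0) {s t i : ℕ} {u : T} {c : YY}
    (hu : u ∈ GT s t) (hc : LC (j + i) u c) (h : u ∈ I3 ⊔ Ideal.span {G}) : g ∣ c := by
  rcases hom_div hom_I3 hG hu h with h1 | ⟨s', t', e, -, -, he, h1⟩
  · rw [hc.unique (LC.zero_of_mem (I3_le_AB _ h1))]
    exact dvd_zero _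
  have h2 : G * e ∈ AB (j + i) := by simpa using sub_mem hc.mem (I3_le_AB _ h1)
  obtain ⟨c', hc'⟩ := LC.exists (AB_cancel hg hg0 he i h2)
  exact ⟨c', hc.unique ((hg.mul hc').congr h1)⟩

lemma dvd_of_mem_P (hG : G ∈ GT a b) (hW : G ∉ WW) (hg : LC j G g) (hg0 : g ≠ 0) {s t i : ℕ}
    {u : T} {c : YY} (hu : u ∈ GT s t) (hc : LC i u c)
    (h : u ∈ sat (I3 ⊔ Ideal.span {G}) (xx 1)) : g ∣ c := by
  have k : ∀ {z : T} {e : YY} {p q : ℕ}, z ∈ GT p q → LC j z e → g ∣ e * c := by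
    intro z e p q hz he
    refine dvd_of_mem_J hG hg hg0 (GT_mul hz hu) (he.mul hc) ?_
    rw [← sat_inf_AB hG hW hg hg0]
    exact ⟨Ideal.mul_mem_left _ _ h, Ideal.mul_mem_right _ _ he.mem⟩
  obtain ⟨e₁, h1⟩ := k (GT_pow (xx_mem 1) j) (LC_x1 j)
  obtain ⟨e₂, h2⟩ := k (GT_pow (xx_mem 2) j) (LC_x2 j)
  have h3 : (- yy 1) ^ j * e₁ = yy 2 ^ j * e₂ := by
    apply mul_left_cancel₀ hg0
    linear_combination yy 2 ^ j * h2 - (- yy 1) ^ j * h1
  have h4 : yy 2 ^ j ∣ e₁ := by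
    refine (X_prime (i := Sum.inr 2)).pow_dvd_of_dvd_mul_left j (fun h5 => ?_) ⟨e₂, h3⟩
    have h6 := map_dvd (eval (fun k => if k = Sum.inr 2 then (0 : ℂ) else 1))
      ((X_prime (i := Sum.inr 2)).dvd_of_dvd_pow h5)
    simp at h6
  obtain ⟨e, rfl⟩ := h4
  refine ⟨e, mul_left_cancel₀ (pow_ne_zero j (X_ne_zero (Sum.inr 2))) ?_⟩
  rw [h1]; ring

end Sec

noncomputable def lc (i : ℕ) : (AB i).restrictScalars ℂ →ₗ[ℂ] YY where
  toFun u := Classical.choose (LC.exists u.2)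
  map_add' u z := (Classical.choose_spec (LC.exists (u + z).2)).unique
    ((Classical.choose_spec (LC.exists u.2)).add (Classical.choose_spec (LC.exists z.2)))
  map_smul' r u := (Classical.choose_spec (LC.exists (r • u).2)).unique
    ((Classical.choose_spec (LC.exists u.2)).smul r)

lemma lc_spec (i : ℕ) (u : (AB i).restrictScalars ℂ) : LC i u.1 (lc i u) :=
  Classical.choose_spec (LC.exists u.2)

lemma dim_step {P : Ideal T} {g : YY} {D : ℕ} (hgD : g ∈ Gr (bw 0 3) (0, D))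
    (hP : ∀ (s t i : ℕ) (u : T) (c : YY), u ∈ GT s t → LC i u c → u ∈ P → g ∣ c) (s τ i : ℕ) :
    finrank ℂ (part (bw 3 3) (P ⊓ AB i) (s, D + τ)) ≤
      finrank ℂ (part (bw 3 3) (P ⊓ AB (i + 1)) (s, D + τ)) + Nat.multichoose 3 (τ + i) := by
  set U := part (bw 3 3) (P ⊓ AB i) (s, D + τ) with hU
  have hle : U ≤ (AB i).restrictScalars ℂ := fun u hu => hu.2.2
  have := finite_part (bw_ne_zero 3 3) (P ⊓ AB i) (s, D + τ)
  have := finite_part (bw_ne_zero 3 3) (P ⊓ AB (i + 1)) (s, D + τ)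
  have := finite_Gr (bw_ne_zero 0 3) (0, τ + i)
  let L : U →ₗ[ℂ] YY := lc i ∘ₗ Submodule.inclusion hle
  have hL : ∀ u : U, LC i u.1 (L u) := fun u => lc_spec i (Submodule.inclusion hle u)
  have h1 := L.finrank_range_add_finrank_ker
  have h2 : finrank ℂ (LinearMap.ker L) ≤
      finrank ℂ (part (bw 3 3) (P ⊓ AB (i + 1)) (s, D + τ)) := by
    rw [← Submodule.finrank_map_subtype_eq]
    apply Submodule.finrank_mono
    rintro _ ⟨u, hu, rfl⟩
    have h3 := hL u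
    rw [LinearMap.mem_ker.1 hu] at h3
    exact ⟨u.2.1, u.2.2.1, h3.mem_succ u.2.1⟩
  have h3 : finrank ℂ (LinearMap.range L) ≤ Nat.multichoose 3 (τ + i) := by
    have h4 := finrank_Gr_bw 0 3 0 (τ + i)
    rw [Nat.multichoose_zero_right, one_mul] at h4
    rw [← h4]
    refine le_trans (Submodule.finrank_mono ?_)
      (Submodule.finrank_map_le (LinearMap.mulLeft ℂ g) (Gr (bw 0 3) (0, τ + i)))
    rintro _ ⟨u, rfl⟩
    obtain ⟨e, he⟩ := hP _ _ _ _ _ u.2.1 (hL u) u.2.2.1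
    have h5 := (hL u).deg u.2.1
    refine ⟨cmp (bw 0 3) (0, τ + i) e, cmp_mem _ _, ?_⟩
    rw [LinearMap.mulLeft_apply, ← cmp_mul_add hgD, ← he, Prod.mk_add_mk, ← add_assoc,
      cmp_self h5]
  omega

noncomputable def ss (n τ : ℝ) : ℝ :=
  n * τ ^ 2 / 2 + (n ^ 2 / 2 + n) * τ + n * (n + 1) * (n + 2) / 6

lemma HT_inf_le {P : Ideal T} {g : YY} {D : ℕ} (hgD : g ∈ Gr (bw 0 3) (0, D))
    (hP : ∀ (s t i : ℕ) (u : T) (c : YY), u ∈ GT s t → LC i u c → u ∈ P → g ∣ c) (s τ n : ℕ) :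
    (HT (P ⊓ AB n) s (D + τ) : ℝ) ≤ HT P s (D + τ) + ss n τ := by
  induction n with
  | zero =>
    rw [inf_eq_left.2 (fun u _ => mem_AB_zero u)]
    simp [ss]
  | succ n ih =>
    have h1 := dim_step hgD hP s τ n
    have h2 := HF_add_part (bw_ne_zero 3 3) (P ⊓ AB n) (s, D + τ)
    have h3 := HF_add_part (bw_ne_zero 3 3) (P ⊓ AB (n + 1)) (s, D + τ)
    have h4 : HT (P ⊓ AB (n + 1)) s (D + τ) ≤
        HT (P ⊓ AB n) s (D + τ) + Nat.multichoose 3 (τ + n) := by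
      simp only [HT]; omega
    have h5 : (HT (P ⊓ AB (n + 1)) s (D + τ) : ℝ) ≤
        HT (P ⊓ AB n) s (D + τ) + Nat.multichoose 3 (τ + n) := by exact_mod_cast h4
    rw [mc3] at h5
    unfold ss at ih ⊢
    push_cast at h5 ⊢
    nlinarith

lemma inter_ineq {P : Ideal T} (hp : P.IsPrime) (hh' : Hom P) {v : Fin 3 → ℝ} (hv : Deg (HT P) v)
    {g : YY} {D : ℕ} (hgD : g ∈ Gr (bw 0 3) (0, D))
    (hP : ∀ (s t i : ℕ) (u : T) (c : YY), u ∈ GT s t → LC i u c → u ∈ P → g ∣ c)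
    {G' : T} {a' b' n : ℕ} (hG' : G' ∈ GT a' b') (hn : G' ∈ AB n) (hne : G' ∉ P) :
    (n : ℝ) * D ≤ v 1 * a' + v 2 * b' := by
  obtain ⟨c₁, c₂, c₀, N, hv⟩ := hv
  set s := N + a' + n + 4 with hs
  have := lead_nonneg' (B := v 1 * a' + v 2 * b' - n * D)
    (C := v 0 * (s * a' - (a' : ℝ) ^ 2 / 2) + v 1 * (s * b' + a' * D - a' * b') +
      v 2 * (D * b' - (b' : ℝ) ^ 2 / 2) + c₁ * a' + c₂ * b' - (hh n D - ss n 0))
    (N := N + b' + 1) fun τ hτ => by
      have h1 := HT_inf_le hgD hP s τ n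
      have h2 := HF_inf_sup (bw_ne_zero 3 3) hh' (hom_AB n) (s, D + τ)
      have h3 := HT_AB n (a := s) (b := D + τ) (by omega) (by omega)
      have h4 : HT (P ⊔ AB n) s (D + τ) ≤ HT (P ⊔ Ideal.span {G'}) s (D + τ) :=
        HT_mono (sup_le_sup_left ((Ideal.span_singleton_le_iff_mem _).2 hn) _) _ _
      have h5 := HF_step hp hh' hG' hne (a := s) (b := D + τ) (by omega) (by omega)
      have h6 := hv s (D + τ) (by omega) (by omega)
      have h7 := hv (s - a') (D + τ - b') (by omega) (by omega)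
      rw [Nat.cast_sub (by omega), Nat.cast_sub (by omega)] at h7
      have h2' := congrArg (Nat.cast : ℕ → ℝ) h2
      have h4' : (HT (P ⊔ AB n) s (D + τ) : ℝ) ≤ HT (P ⊔ Ideal.span {G'}) s (D + τ) := by
        exact_mod_cast h4
      simp only [HT] at h1 h3 h4' h6 h7
      unfold hh ss at *
      push_cast at h1 h2' h3 h5 h6 h7
      nlinarith
  linarith

lemma span_W {z : Fin 3 → ℝ} {𝒢 : Ideal T → Prop}
    (h : ∀ v ∈ cls 𝒢, v = ![0, 1, 2] ∨ v = 0) (hz : z ∈ Submodule.span NNReal (cls 𝒢)) :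
    z 0 = 0 ∧ 0 ≤ z 1 ∧ z 2 = 2 * z 1 := by
  induction hz using Submodule.span_induction with
  | mem x hx => rcases h x hx with rfl | rfl <;> simp
  | zero => simp
  | add x y _ _ hx hy =>
    simp only [Pi.add_apply]
    exact ⟨by linarith [hx.1, hy.1], by linarith [hx.2.1, hy.2.1], by linarith [hx.2.2, hy.2.2]⟩
  | smul c x _ hx =>
    have hc : (0 : ℝ) ≤ c := c.2
    simp only [Pi.smul_apply, NNReal.smul_def, smul_eq_mul]
    exact ⟨by rw [hx.1, mul_zero], mul_nonneg hc hx.2.1, by rw [hx.2.2]; ring⟩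

theorem key_ineq {a' : ℕ} (ha : 3 ≤ a') : ∃ C : ℝ, 8 * a' ≤ C ∧ ∀ v ∈ cls fun Q => f3 ∈ Q,
    (8 * a' - 3) * (v 1 - 3 * v 0) ≤ v 0 + C * v 2 := by
  obtain ⟨b', G', hG', hI', hn'⟩ := exists_special ha
  have ha' : (3 : ℝ) ≤ a' := by exact_mod_cast ha
  have hb' : (0 : ℝ) ≤ b' := Nat.cast_nonneg _
  refine ⟨8 * a' * (7 * b' + 5 * a'), by nlinarith, ?_⟩
  rintro v ⟨Q, hQ, hh', hf, hv⟩
  set C : ℝ := 8 * a' * (7 * b' + 5 * a') with hC
  have hC1 : 8 * a' ≤ C := by nlinarith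
  have hle : I3 ≤ Q := (Ideal.span_singleton_le_iff_mem _).2 hf
  by_cases hne : Q ≤ I3
  · obtain rfl : Q = I3 := le_antisymm hne hle
    exact absurd hv (not_deg_I3 v)
  by_cases hx : xx 1 ∈ Q
  · rcases pp_or_WW hQ hf hx with h | h
    · rcases deg_eq_or_zero pp_prime hom_pp deg_pp hh' h hv with rfl | rfl
      · simp; linarith
      · simp
    · rcases deg_eq_or_zero WW_prime hom_WW deg_WW hh' h hv with rfl | rfl
      · simp; linarith
      · simp
  obtain ⟨G, a, b, hG, hGX, hP, hPQ⟩ := exists_section3 hQ hh' hf hne hx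
  have hGI : G ∉ I3 := fun h => hGX (Ideal.mem_sup_left h)
  have dJ := deg_sec3 hG hGI
  have hJ : Hom (I3 ⊔ Ideal.span {G}) := hom_I3.sup_span hG
  have hhP := hom_sat hJ (xx_mem 1)
  obtain ⟨w, dP, -⟩ := exists_deg dJ _ (le_sat _ (xx 1)) hhP
  rcases deg_eq_or_zero hP hhP dP hh' hPQ hv with rfl | rfl
  swap
  · simp
  have hv0 := dP.nonneg0
  have hv2 := dP.nonneg2
  by_cases hpp : G ∈ pp
  swap
  · have h1 := subquot (𝒢 := fun Q => xx 1 ∈ Q ∧ f3 ∈ Q ∧ G ∈ Q) hhP dP dJ (by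
      rintro u ⟨N, hN⟩ Q' hQ' hle'
      refine ⟨hQ'.mem_of_pow_mem N (hle' (mem_col.2 (by rwa [mul_comm]))), hle' (le_col _ _ ?_),
        hle' (le_col _ _ ?_)⟩
      · exact Ideal.mem_sup_left f3_mem_I3
      · exact Ideal.mem_sup_right (Ideal.mem_span_singleton_self G)) _ le_rfl (le_sat _ _) hJ _ dJ
    obtain ⟨k0, k1, k2⟩ := span_W (by
      rintro z ⟨Q', hQ', hh'', ⟨q1, q2, q3⟩, dz⟩
      rcases pp_or_WW hQ' q2 q1 with h | h
      · exact Or.inr (deg_zero_of_gt pp_prime hom_pp deg_pp hh'' h (fun h' => hpp (h' q3)) dz)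
      · exact deg_eq_or_zero WW_prime hom_WW deg_WW hh'' h dz) h1
    simp only [Pi.sub_apply, Matrix.cons_val_zero, Matrix.cons_val_one, Matrix.cons_val]
      at k0 k1 k2
    have : (0 : ℝ) ≤ a := Nat.cast_nonneg _
    have h2 : v 1 - 3 * v 0 ≤ v 2 := by linarith
    nlinarith
  have hW : G ∉ WW := fun h => hGX (mem_of_mem_pp_WW hpp h)
  have hex : ∃ j, G ∉ AB (j + 1) :=
    ⟨3 * a, fun h => by have := (tors a _ b G hG hGI h).1; omega⟩
  classical
  set j := Nat.find hex with hj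
  have hj1 : G ∉ AB (j + 1) := Nat.find_spec hex
  have hj2 : G ∈ AB j := by
    rcases hj0 : j with _ | i
    · exact mem_AB_zero G
    · by_contra h
      have := Nat.find_min' hex h
      omega
  obtain ⟨g, hg⟩ := LC.exists hj2
  have hg0 : g ≠ 0 := fun h => hj1 (LC.mem_succ hG (h ▸ hg))
  obtain ⟨t1, t2⟩ := tors a j b G hG hGI hj2
  set P := sat (I3 ⊔ Ideal.span {G}) (xx 1) with hPdef
  have hx1 : xx 1 ∉ P := fun h => hx (hPQ h)
  obtain ⟨z, dz, -⟩ := exists_deg dP (P ⊔ AB j) le_sup_left (hhP.sup (hom_AB j))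
  have hz : z = 0 := deg_zero_of_gt hP hhP dP (hhP.sup (hom_AB j)) le_sup_left
    (fun h => hx1 (hP.mem_of_pow_mem j (h (Ideal.mem_sup_right (LC_x1 j).mem)))) dz
  subst hz
  have e1 : Deg (fun s t => HT (I3 ⊔ Ideal.span {G}) s t + HT (P ⊔ AB j) s t) _ :=
    Deg.add_shift (p := 0) (q := 0) dJ dz (fun s t => by simp)
  have e2 : Deg (fun s t => HT (I3 ⊔ Ideal.span {G}) s t + HT (P ⊔ AB j) s t) _ :=
    Deg.add_shift (p := 0) (q := 0) dP (deg_AB j) (fun s t => by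
      have := HF_inf_sup (bw_ne_zero 3 3) hhP (hom_AB j) (s, t)
      rw [hPdef, sat_inf_AB hG hW hg hg0] at this
      simpa using this.symm)
  have e3 := e1.unique e2
  have f0 := congrFun e3 0
  have f1 := congrFun e3 1
  have f2 := congrFun e3 2
  simp only [Pi.add_apply, Pi.zero_apply, Matrix.cons_val_zero, Matrix.cons_val_one,
    Matrix.cons_val, add_zero] at f0 f1 f2
  rcases Nat.eq_zero_or_pos a with h0 | h0
  · subst h0
    have : v 1 - 3 * v 0 = 0 := by simp at f1; linarith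
    rw [this, mul_zero]
    positivity
  have hγ : 1 ≤ v 2 := by
    have : (j : ℝ) + 1 ≤ 3 * a := by exact_mod_cast t2 h0
    linarith
  have hw : v 1 - 3 * v 0 = a := by linarith
  by_cases hGP : G' ∈ P
  · have h1 := dP.le_of_le (deg_sec3 hG' hI') (HT_mono
      (sup_le (le_sup_left.trans (le_sat _ _)) ((Ideal.span_singleton_le_iff_mem _).2 hGP)))
    simp only [Matrix.cons_val_zero, Matrix.cons_val_one, Matrix.cons_val] at h1
    have h2 : (a : ℝ) ≤ 7 * b' + 5 * a' := by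
      have : (0 : ℝ) ≤ a := Nat.cast_nonneg _
      linarith
    have h3 : (0 : ℝ) ≤ a := Nat.cast_nonneg _
    have h4 : (8 * a' - 3) * (a : ℝ) ≤ C := by nlinarith
    rw [hw]
    nlinarith
  · have h1 := inter_ineq hP hhP dP (hg.deg hG)
      (fun s t i u c hu hc h => dvd_of_mem_P hG hW hg hg0 hu hc h) hG' hn' hGP
    rw [Nat.cast_sub (by omega)] at h1
    push_cast at h1
    have h2 : (b' : ℝ) + 3 * a' ≤ C := by nlinarith
    rw [hw]
    have g0 : v 0 = b := f0.symm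
    have g1 : v 1 = a + 3 * b := f1.symm
    have g2 : (j : ℝ) = 3 * a - v 2 := by linarith
    rw [g1, g2] at h1
    rw [g0]
    nlinarith

theorem exists_elt {a' : ℕ} (ha : 3 ≤ a') : ∃ b' : ℝ,
    ![b', a' + 3 * b', 1] ∈ Submodule.span NNReal (cls fun Q => f3 ∈ Q) := by
  obtain ⟨b', G', hG', hI', hn'⟩ := exists_special ha
  have dJ := deg_sec3 hG' hI'
  have h1 := subquot (𝒢 := fun Q => f3 ∈ Q) (hom_AB _) (deg_AB (3 * a' - 1)) dJ
    (fun u _ Q _ hle => hle (le_col _ _ (Ideal.mem_sup_left f3_mem_I3))) _ le_rfl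
    (sup_le (I3_le_AB _) ((Ideal.span_singleton_le_iff_mem _).2 hn')) (hom_I3.sup_span hG') _ dJ
  refine ⟨b', ?_⟩
  convert h1 using 1
  rw [Nat.cast_sub (by omega)]
  funext i
  fin_cases i <;> simp

end Pool.Agent.MP_f1b239_ag

end

section

set_option autoImplicit false

namespace Pool.Agent.MP_f1b239_ag

open MvPolynomial Module

noncomputable def Mz : Matrix (Fin 4) (Fin 6) (MvPolynomial (Fin 3) ℂ) :=
  !![X 1 ^ 3, X 0 ^ 2 * X 1 + X 2 ^ 3, X 0 ^ 2 * X 2 + X 0 * X 1 ^ 2, - X 0 ^ 3, 0, 0;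
     0, 0, 0, X 1, -X 0, 0;
     0, 0, 0, X 2, 0, -X 0;
     0, 0, 0, 0, X 2, -X 1]

lemma eqs_iff' (P : Ideal (Coord 6)) :
    (∀ i, ∑ j, rename Sum.inl (Mz i j) * X (Sum.inr j) ∈ P) ↔
      (sec0 f3 - sx 0 ^ 3 * sy 3 ∈ P ∧
        sx 1 * sy 3 - sx 0 * sy 4 ∈ P ∧ sx 2 * sy 3 - sx 0 * sy 5 ∈ P ∧
        sx 2 * sy 4 - sx 1 * sy 5 ∈ P) := by
  simp [Fin.forall_fin_succ, Fin.sum_univ_six, Mz, sub_eq_add_neg, sec0, f3, g3, add_assoc]

lemma good_off {P : Ideal (Coord 6)} (hp : P.IsPrime) (e1 : sx 1 * sy 3 - sx 0 * sy 4 ∈ P)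
    (e2 : sx 2 * sy 3 - sx 0 * sy 5 ∈ P) (e3 : sx 2 * sy 4 - sx 1 * sy 5 ∈ P) {v : Fin 3 → ℝ}
    (hv : Deg (fun a b => HF (bw 3 6) P (a, b)) v) {j : Fin 3} (hj : sy (uidx j) ∉ P) :
    Good v := by
  refine hv.good_of_shift fun a b => ?_
  have hfin := finite_Gr (bw_ne_zero 3 6) (a, b + 1)
  have hfin2 : Module.Finite ℂ
      ((Gr (bw 3 6) (a, b + 1)).map (Ideal.Quotient.mkₐ ℂ P).toLinearMap) := inferInstance
  unfold HF
  rw [map_Gr] at hfin2
  rw [map_Gr, map_Gr]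
  set π := Ideal.Quotient.mkₐ ℂ P with hπ
  set U := Submodule.span ℂ (Set.range fun i => π (X (Sum.inl i))) with hU
  set V := Submodule.span ℂ (Set.range fun i => π (X (Sum.inr i))) with hV
  by_cases hx : ∀ i, sx i ∈ P
  · have : U = ⊥ := by
      rw [hU, Submodule.span_eq_bot]
      rintro _ ⟨i, rfl⟩
      exact Ideal.Quotient.eq_zero_iff_mem.2 (hx i)
    rw [this, pow_succ, Submodule.mul_bot, Submodule.bot_mul, finrank_bot]
    exact Nat.zero_le _
  push Not at hx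
  obtain ⟨i, hi⟩ := hx
  have rel : ∀ i k, π (sy (uidx i)) * π (sx k) = π (sx i) * π (sy (uidx k)) := by
    intro i k
    rw [← map_mul, ← map_mul]
    apply Ideal.Quotient.eq.2
    have n1 := neg_mem e1
    have n2 := neg_mem e2
    have n3 := neg_mem e3
    fin_cases i <;> fin_cases k <;> simp only [uidx, Fin.zero_eta, Fin.mk_one,
      Fin.reduceFinMk, Matrix.cons_val_zero, Matrix.cons_val_one, Matrix.cons_val]
    · convert P.zero_mem using 1; ring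
    · convert e1 using 1; ring
    · convert e2 using 1; ring
    · convert n1 using 1; ring
    · convert P.zero_mem using 1; ring
    · convert e3 using 1; ring
    · convert n2 using 1; ring
    · convert n3 using 1; ring
    · convert P.zero_mem using 1; ring
  have hxi : π (sx i) ≠ 0 := fun h => hi (Ideal.Quotient.eq_zero_iff_mem.1 h)
  have huj : π (sy (uidx j)) ≠ 0 := fun h => hj (Ideal.Quotient.eq_zero_iff_mem.1 h)
  have hui : π (sy (uidx i)) ≠ 0 := by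
    intro h
    have h2 := rel i j
    rw [h, zero_mul] at h2
    exact mul_ne_zero hxi huj h2.symm
  have hle : Submodule.span ℂ {π (sy (uidx i))} * U ≤ Submodule.span ℂ {π (sx i)} * V := by
    rw [hU, Submodule.span_mul_span, Submodule.span_le]
    rintro _ ⟨_, rfl, _, ⟨k, rfl⟩, rfl⟩
    change π (sy (uidx i)) * π (sx k) ∈ _
    rw [rel]
    exact Submodule.mul_mem_mul (Submodule.mem_span_singleton_self _)
      (Submodule.subset_span (Set.mem_range_self (uidx k)))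
  rw [← finrank_span_mul hui (U ^ (a + 1) * V ^ b), ← finrank_span_mul hxi (U ^ a * V ^ (b + 1))]
  have hfin3 : Module.Finite ℂ (Submodule.span ℂ {π (sx i)} * (U ^ a * V ^ (b + 1)) :
      Submodule ℂ _) := by
    rw [← map_mulLeft]; infer_instance
  apply Submodule.finrank_mono
  calc Submodule.span ℂ {π (sy (uidx i))} * (U ^ (a + 1) * V ^ b)
      = (Submodule.span ℂ {π (sy (uidx i))} * U) * (U ^ a * V ^ b) := by ring
    _ ≤ (Submodule.span ℂ {π (sx i)} * V) * (U ^ a * V ^ b) := mul_le_mul_left hle _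
    _ = Submodule.span ℂ {π (sx i)} * (U ^ a * V ^ (b + 1)) := by ring

lemma class_cases {v : Fin 3 → ℝ} (h : v ∈ surfaceClasses Mz) :
    v ∈ cls (fun Q => f3 ∈ Q) ∨ Good v := by
  obtain ⟨-, P, ⟨hp, hh', he⟩, hv⟩ := h
  rw [eqs_iff'] at he
  obtain ⟨e0, e1, e2, e3⟩ := he
  rw [hasDegrees_iff] at hv
  by_cases hu : ∀ j, sy (uidx j) ∈ P
  · left
    have h3 : sy 3 ∈ P := hu 0
    have h4 : sy 4 ∈ P := hu 1
    have h5 : sy 5 ∈ P := hu 2
    have hκ : ∀ p, (sec0.comp phi0) p - p ∈ P := by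
      apply sub_mem_of_X
      rintro (i | j)
      · simp [sec0, phi0]
      · fin_cases j <;> simp [sec0, phi0, h3, h4, h5]
    have hPQ : P = (P.comap sec0).comap phi0 := by
      ext p
      rw [Ideal.mem_comap, Ideal.mem_comap]
      have := hκ p
      rw [AlgHom.comp_apply] at this
      constructor
      · intro h; simpa using add_mem this h
      · intro h; simpa using sub_mem h this
    refine ⟨P.comap sec0, Ideal.IsPrime.comap sec0,
      IsHom.comap (bw 3 6) (AddMonoidHom.id _) Function.injective_id sec0 sec0_gr hh', ?_, ?_⟩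
    · change sec0 f3 ∈ P
      have := add_mem e0 (P.mul_mem_left (sx 0 ^ 3) h3)
      rwa [sub_add_cancel] at this
    · have : HT (P.comap sec0) = fun a b => HF (bw 3 6) P (a, b) := by
        funext a b
        rw [HT, ← HF_comap (w := bw 3 6) (bw 3 3) phi0 (phi0_map a b), ← hPQ]
      rw [this]; exact hv
  · push Not at hu
    obtain ⟨j, hj⟩ := hu
    exact Or.inr (good_off hp e1 e2 e3 hv hj)

lemma cls_sub {v : Fin 3 → ℝ} (h : v ∈ cls fun Q => f3 ∈ Q) :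
    v ∈ Submodule.span NNReal (surfaceClasses Mz) := by
  by_cases h0 : v = 0
  · rw [h0]; exact zero_mem _
  obtain ⟨Q, hQ, hh', hf, hv⟩ := h
  refine Submodule.subset_span ⟨h0, Q.comap phi0, ⟨Ideal.IsPrime.comap phi0, ?_, ?_⟩, ?_⟩
  · exact IsHom.comap (w := bw 3 6) (bw 3 3) (AddMonoidHom.id _) Function.injective_id phi0
      phi0_gr hh'
  · rw [eqs_iff']
    simp only [Ideal.mem_comap]
    refine ⟨?_, by simp [phi0], by simp [phi0], by simp [phi0]⟩
    have : f3 ∈ Q := hf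
    simpa [phi0, sec0, f3, g3] using this
  · rw [hasDegrees_iff]
    refine hv.congr (M := 0) fun a b _ _ => ?_
    exact HF_comap (w := bw 3 6) (bw 3 3) phi0 (phi0_map a b) Q

lemma lin_nonneg {S : Set (Fin 3 → ℝ)} {α β γ : ℝ}
    (h : ∀ v ∈ S, 0 ≤ α * v 0 + β * v 1 + γ * v 2) {z : Fin 3 → ℝ}
    (hz : z ∈ closure (Submodule.span NNReal S : Set (Fin 3 → ℝ))) :
    0 ≤ α * z 0 + β * z 1 + γ * z 2 := by
  have hc : IsClosed {z : Fin 3 → ℝ | 0 ≤ α * z 0 + β * z 1 + γ * z 2} :=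
    isClosed_le (by fun_prop) (by fun_prop)
  refine closure_minimal (fun y hy => ?_) hc hz
  induction hy using Submodule.span_induction with
  | mem x hx => exact h x hx
  | zero => simp
  | add x y _ _ hx hy =>
    simp only [Set.mem_ofPred_eq, Pi.add_apply] at hx hy ⊢
    linarith
  | smul c x _ hx =>
    have hc : (0 : ℝ) ≤ c := c.2
    simp only [Set.mem_ofPred_eq, Pi.smul_apply, NNReal.smul_def, smul_eq_mul] at hx ⊢
    nlinarith [mul_nonneg hc hx]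

lemma eff_nonneg2 {z : Fin 3 → ℝ} (hz : z ∈ pseudoEff Mz) : 0 ≤ z 2 := by
  have := lin_nonneg (α := 0) (β := 0) (γ := 1) (fun v hv => by
    obtain ⟨-, P, -, hv⟩ := hv
    simpa using ((hasDegrees_iff P v).1 hv).nonneg2) hz
  simpa using this

lemma eff_face {z : Fin 3 → ℝ} (hz : z ∈ pseudoEff Mz) (h2 : z 2 = 0) : z 1 - 3 * z 0 ≤ 0 := by
  have key : ∀ n : ℕ, 3 ≤ n → 0 ≤ - 8 * (z 1 - 3 * z 0) * n + (z 0 + 3 * (z 1 - 3 * z 0)) := by
    intro n hn
    obtain ⟨C, hC, hk⟩ := key_ineq hn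
    have hn' : (3 : ℝ) ≤ n := by exact_mod_cast hn
    have := lin_nonneg (α := 1 + 3 * (8 * n - 3)) (β := - (8 * n - 3)) (γ := C) (fun v hv => by
      rcases class_cases hv with h | ⟨h0, h1, h3, h4⟩
      · have := hk v h
        linarith
      · nlinarith) hz
    rw [h2] at this
    linarith
  have := lead_nonneg' key
  linarith

theorem not_finGen : ¬ IsFinGen (pseudoEff Mz) := by
  rintro ⟨s, hs⟩
  have hmem : ∀ v ∈ s, v ∈ pseudoEff Mz := fun v hv =>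
    hs ▸ (Submodule.subset_span hv : v ∈ Submodule.span NNReal (s : Set (Fin 3 → ℝ)))
  obtain ⟨c, hc⟩ := (s.image fun v => (v 1 - 3 * v 0) / v 2).bddAbove
  have h1 : ∀ v ∈ (s : Set (Fin 3 → ℝ)), 0 ≤ 3 * v 0 + (-1) * v 1 + c * v 2 := by
    intro v hv
    rcases (eff_nonneg2 (hmem v hv)).eq_or_lt with h | h
    · have := eff_face (hmem v hv) h.symm
      rw [← h]
      linarith
    · have : (v 1 - 3 * v 0) / v 2 ≤ c := hc (Finset.mem_image_of_mem _ hv)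
      rw [div_le_iff₀ h] at this
      linarith
  obtain ⟨n, hn⟩ := exists_nat_gt c
  obtain ⟨b, hb⟩ := exists_elt (a' := n + 3) (by omega)
  have h2 : ![b, ((n + 3 : ℕ) : ℝ) + 3 * b, 1] ∈ pseudoEff Mz :=
    subset_closure (Submodule.span_le.2 (fun v hv => cls_sub hv) hb)
  rw [hs] at h2
  have h3 := lin_nonneg h1 (subset_closure h2)
  simp only [Matrix.cons_val_zero, Matrix.cons_val_one, Matrix.cons_val] at h3
  push_cast at h3
  linarith

lemma Mz_hom (i : Fin 4) (j : Fin 6) : (Mz i j).IsHomogeneous (![3, 1, 1, 1] i) := by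
  have h1 : ∀ k : Fin 3, (X k : MvPolynomial (Fin 3) ℂ).IsHomogeneous 1 :=
    fun k => isHomogeneous_X ℂ k
  have h2 : ∀ k : Fin 3, (X k ^ 2 : MvPolynomial (Fin 3) ℂ).IsHomogeneous 2 :=
    fun k => isHomogeneous_X_pow k 2
  have h4 : ∀ k : Fin 3, (X k ^ 3 : MvPolynomial (Fin 3) ℂ).IsHomogeneous 3 :=
    fun k => isHomogeneous_X_pow k 3
  have h3 : ∀ k : Fin 3, (-X k : MvPolynomial (Fin 3) ℂ).IsHomogeneous 1 := fun k => (h1 k).neg
  have h0 : ∀ n, (0 : MvPolynomial (Fin 3) ℂ).IsHomogeneous n := fun n => isHomogeneous_zero _ _ n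
  have h5 : (X 0 ^ 2 * X 1 + X 2 ^ 3 : MvPolynomial (Fin 3) ℂ).IsHomogeneous 3 :=
    ((h2 0).mul (h1 1)).add (h4 2)
  have h6 : (X 0 ^ 2 * X 2 + X 0 * X 1 ^ 2 : MvPolynomial (Fin 3) ℂ).IsHomogeneous 3 :=
    ((h2 0).mul (h1 2)).add ((h1 0).mul (h2 1))
  have h7 : (- X 0 ^ 3 : MvPolynomial (Fin 3) ℂ).IsHomogeneous 3 := (h4 0).neg
  fin_cases i <;> fin_cases j <;> simp [Mz, h0, h1, h3, h4, h5, h6, h7]

lemma Mz_apply (x : Fin 3 → ℂ) (y : Fin 6 → ℂ) : Matrix.toLin' (Mz.map (eval x)) y =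
    ![x 1 ^ 3 * y 0 + (x 0 ^ 2 * x 1 + x 2 ^ 3) * y 1 + (x 0 ^ 2 * x 2 + x 0 * x 1 ^ 2) * y 2
      - x 0 ^ 3 * y 3, x 1 * y 3 - x 0 * y 4, x 2 * y 3 - x 0 * y 5, x 2 * y 4 - x 1 * y 5] := by
  funext i
  fin_cases i <;> simp [Mz, Matrix.mulVec, dotProduct, Fin.sum_univ_six, sub_eq_add_neg]

lemma Mz_rank (x : Fin 3 → ℂ) (hx : x ≠ 0) :
    finrank ℂ (LinearMap.ker (Matrix.toLin' (Mz.map (eval x)))) = 3 := by
  let μ : (Fin 4 → ℂ) →ₗ[ℂ] ℂ :=
    x 2 • LinearMap.proj 1 - x 1 • LinearMap.proj 2 + x 0 • LinearMap.proj 3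
  have hμ : ∀ z, μ z = x 2 * z 1 - x 1 * z 2 + x 0 * z 3 := fun z => by simp [μ]
  have hx' : x 1 ≠ 0 ∨ (x 1 = 0 ∧ x 2 ≠ 0) ∨ (x 1 = 0 ∧ x 2 = 0 ∧ x 0 ≠ 0) := by
    by_contra h
    apply hx
    funext i
    fin_cases i <;> simp <;> tauto
  have h1 : LinearMap.range (Matrix.toLin' (Mz.map (eval x))) = LinearMap.ker μ := by
    apply le_antisymm
    · rintro _ ⟨y, rfl⟩
      rw [LinearMap.mem_ker, hμ, Mz_apply]
      simp
      ring
    · intro z hz
      rw [LinearMap.mem_ker, hμ] at hz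
      rcases hx' with h | ⟨h', h⟩ | ⟨h', h'', h⟩
      · refine ⟨![(z 0 + x 0 ^ 3 * (z 1 / x 1)) / x 1 ^ 3, 0, 0, z 1 / x 1, 0, - z 3 / x 1], ?_⟩
        rw [Mz_apply]
        funext i
        fin_cases i <;> simp <;> field_simp
        · ring
        · linear_combination hz
      · refine ⟨![0, (z 0 + x 0 ^ 3 * (z 2 / x 2)) / x 2 ^ 3, 0, z 2 / x 2, z 3 / x 2, 0], ?_⟩
        rw [Mz_apply]
        rw [h'] at hz
        funext i
        fin_cases i <;> simp [h'] <;> field_simp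
        · ring
        · linear_combination -hz
      · refine ⟨![0, 0, 0, - z 0 / x 0 ^ 3, - z 1 / x 0, - z 2 / x 0], ?_⟩
        rw [Mz_apply]
        rw [h', h''] at hz
        have hz3 : z 3 = 0 := by simpa [h] using hz
        funext i
        fin_cases i <;> simp [h', h'', hz3] <;> field_simp
  have h2 : LinearMap.range μ = ⊤ := by
    rw [eq_top_iff]
    intro c _
    rcases hx' with h | ⟨-, h⟩ | ⟨-, -, h⟩
    · exact ⟨![0, 0, - c / x 1, 0], by rw [hμ]; simp; field_simp⟩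
    · exact ⟨![0, c / x 2, 0, 0], by rw [hμ]; simp; field_simp⟩
    · exact ⟨![0, 0, 0, c / x 0], by rw [hμ]; simp; field_simp⟩
  have h3 := μ.finrank_range_add_finrank_ker
  have h4 := (Matrix.toLin' (Mz.map (eval x))).finrank_range_add_finrank_ker
  rw [h2, finrank_top] at h3
  rw [h1] at h4
  simp only [finrank_self, finrank_fintype_fun_eq_card, Fintype.card_fin] at h3 h4
  omega

end Pool.Agent.MP_f1b239_ag

end
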