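import Pool.Agent.Mg.Ff1b239.G05750f

set_option autoImplicit false

namespace Pool.Agent.MP_f1b239_ag

open MvPolynomial Module

attribute [local instance] MvPolynomial.weightedGradedAlgebra

section General

variable {σ : Type} {w : σ → ℕ × ℕ}

noncomputable def col (I : Ideal (MvPolynomial σ ℂ)) (g : MvPolynomial σ ℂ) :
    Ideal (MvPolynomial σ ℂ) :=
  Submodule.comap (LinearMap.mulLeft (MvPolynomial σ ℂ) g) I

lemma mem_col {I : Ideal (MvPolynomial σ ℂ)} {g c : MvPolynomial σ ℂ} :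
    c ∈ col I g ↔ g * c ∈ I := Iff.rfl

lemma le_col (I : Ideal (MvPolynomial σ ℂ)) (g : MvPolynomial σ ℂ) : I ≤ col I g :=
  fun _ h => mem_col.2 (I.mul_mem_left g h)

lemma col_mono {I J : Ideal (MvPolynomial σ ℂ)} (h : I ≤ J) (g : MvPolynomial σ ℂ) :
    col I g ≤ col J g := fun _ hc => h hc

lemma IsHom.col {I : Ideal (MvPolynomial σ ℂ)} (hI : IsHom w I) {g : MvPolynomial σ ℂ}
    {δ : ℕ × ℕ} (hg : g ∈ Gr w δ) : IsHom w (col I g) := by
  intro p hp e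
  rw [mem_col] at hp ⊢
  rw [← cmp_mul_add hg]
  exact hI _ hp _

lemma IsHom.inf {I J : Ideal (MvPolynomial σ ℂ)} (hI : IsHom w I) (hJ : IsHom w J) :
    IsHom w (I ⊓ J) := fun p hp e => ⟨hI p hp.1 e, hJ p hp.2 e⟩

lemma IsHom.sup {I J : Ideal (MvPolynomial σ ℂ)} (hI : IsHom w I) (hJ : IsHom w J) :
    IsHom w (I ⊔ J) := by
  intro p hp e
  obtain ⟨i, hi, j, hj, rfl⟩ := Submodule.mem_sup.1 hp
  rw [cmp_add]
  exact add_mem (Ideal.mem_sup_left (hI i hi e)) (Ideal.mem_sup_right (hJ j hj e))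

noncomputable def part (w : σ → ℕ × ℕ) (I : Ideal (MvPolynomial σ ℂ)) (m : ℕ × ℕ) :
    Submodule ℂ (MvPolynomial σ ℂ) := Gr w m ⊓ I.restrictScalars ℂ

lemma mem_part {I : Ideal (MvPolynomial σ ℂ)} {m : ℕ × ℕ} {p : MvPolynomial σ ℂ} :
    p ∈ part w I m ↔ p ∈ Gr w m ∧ p ∈ I := Iff.rfl

lemma finite_part [Finite σ] (hw : ∀ i, w i ≠ 0) (I : Ideal (MvPolynomial σ ℂ)) (m : ℕ × ℕ) :
    Module.Finite ℂ (part w I m) := by
  have := finite_Gr hw m
  exact Module.Finite.of_injective (Submodule.inclusion (inf_le_left : part w I m ≤ Gr w m))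
    (Submodule.inclusion_injective _)

lemma HF_add_part [Finite σ] (hw : ∀ i, w i ≠ 0) (I : Ideal (MvPolynomial σ ℂ)) (m : ℕ × ℕ) :
    HF w I m + finrank ℂ (part w I m) = finrank ℂ (Gr w m) := by
  have := finite_Gr hw m
  rw [← finrank_map_add (Ideal.Quotient.mkₐ ℂ I).toLinearMap (Gr w m)]
  have : Gr w m ⊓ LinearMap.ker (Ideal.Quotient.mkₐ ℂ I).toLinearMap = part w I m := by
    ext v
    simp [mem_part, Ideal.Quotient.eq_zero_iff_mem]
  rw [this]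
  rfl

lemma HF_inf_sup [Finite σ] (hw : ∀ i, w i ≠ 0) {I J : Ideal (MvPolynomial σ ℂ)}
    (hI : IsHom w I) (hJ : IsHom w J) (m : ℕ × ℕ) :
    HF w (I ⊓ J) m + HF w (I ⊔ J) m = HF w I m + HF w J m := by
  have := finite_part hw I m
  have := finite_part hw J m
  have h1 := HF_add_part hw I m
  have h2 := HF_add_part hw J m
  have h3 := HF_add_part hw (I ⊓ J) m
  have h4 := HF_add_part hw (I ⊔ J) m
  have h5 := Submodule.finrank_sup_add_finrank_inf_eq (part w I m) (part w J m)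
  have h6 : part w I m ⊓ part w J m = part w (I ⊓ J) m := by
    ext v
    simp only [Submodule.mem_inf, mem_part]
    tauto
  have h7 : part w I m ⊔ part w J m = part w (I ⊔ J) m := by
    apply le_antisymm
    · rw [sup_le_iff]
      exact ⟨fun v hv => ⟨hv.1, Ideal.mem_sup_left hv.2⟩,
        fun v hv => ⟨hv.1, Ideal.mem_sup_right hv.2⟩⟩
    · rintro v ⟨hv, hv'⟩
      obtain ⟨i, hi, j, hj, rfl⟩ := Submodule.mem_sup.1 hv'
      rw [← cmp_self hv, cmp_add]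
      exact Submodule.add_mem_sup ⟨cmp_mem _ _, hI i hi m⟩ ⟨cmp_mem _ _, hJ j hj m⟩
  rw [h6, h7] at h5
  omega

lemma HF_col [Finite σ] (hw : ∀ i, w i ≠ 0) {I : Ideal (MvPolynomial σ ℂ)} (hI : IsHom w I)
    {g : MvPolynomial σ ℂ} {δ : ℕ × ℕ} (hg : g ∈ Gr w δ) (m : ℕ × ℕ) :
    HF w (I ⊔ Ideal.span {g}) (δ + m) + HF w (col I g) m = HF w I (δ + m) := by
  by_cases hg0 : g = 0
  · subst hg0
    have h1 : col I 0 = ⊤ := by
      rw [eq_top_iff]; intro c _; rw [mem_col, zero_mul]; exact I.zero_mem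
    have h2 := HF_add_part hw (⊤ : Ideal (MvPolynomial σ ℂ)) m
    have h3 : part w ⊤ m = Gr w m := by ext v; simp [mem_part]
    rw [h3] at h2
    rw [h1, Ideal.span_singleton_zero, sup_bot_eq]
    omega
  have hnz : ∀ c, g * c ∈ (⊥ : Ideal (MvPolynomial σ ℂ)) → c ∈ (⊥ : Ideal (MvPolynomial σ ℂ)) := by
    intro c hc
    rw [Ideal.mem_bot] at hc ⊢
    exact (mul_eq_zero.1 hc).resolve_left hg0
  have h1 := HF_sup_add hw isHom_bot hg hnz m
  have hS : IsHom w (Ideal.span {g}) := by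
    have := (isHom_bot (w := w)).sup_span hg
    rwa [bot_sup_eq] at this
  rw [bot_sup_eq, HF_bot, HF_bot] at h1
  have h2 := HF_inf_sup hw hI hS (δ + m)
  have h3 := HF_add_part hw (I ⊓ Ideal.span {g}) (δ + m)
  have h4 := HF_add_part hw (col I g) m
  have hinj : Function.Injective (LinearMap.mulLeft ℂ g) := mul_right_injective₀ hg0
  have h5 : (part w (col I g) m).map (LinearMap.mulLeft ℂ g) =
      part w (I ⊓ Ideal.span {g}) (δ + m) := by
    apply le_antisymm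
    · rintro _ ⟨c, ⟨hc, hc'⟩, rfl⟩
      exact ⟨IsWeightedHomogeneous.mul hg hc, hc',
        Ideal.mul_mem_right _ _ (Ideal.mem_span_singleton_self g)⟩
    · rintro v ⟨hv, hvI, hvg⟩
      obtain ⟨c, rfl⟩ := Ideal.mem_span_singleton'.1 hvg
      have : g * cmp w m c = c * g := by
        rw [← cmp_mul_add hg, mul_comm g c, cmp_self hv]
      exact ⟨cmp w m c, ⟨cmp_mem _ _, by
        change g * cmp w m c ∈ I
        rw [this]; exact hvI⟩, this⟩
  have h6 := (Submodule.equivMapOfInjective _ hinj (part w (col I g) m)).finrank_eq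
  rw [h5] at h6
  omega

lemma HF_eq_zero [Finite σ] (hw : ∀ i, w i ≠ 0) {I : Ideal (MvPolynomial σ ℂ)} {m : ℕ × ℕ}
    (h : ∀ p ∈ Gr w m, p ∈ I) : HF w I m = 0 := by
  have h2 := HF_add_part hw I m
  have h3 : part w I m = Gr w m := by
    ext v
    exact ⟨fun hv => hv.1, fun hv => ⟨hv, h v hv⟩⟩
  rw [h3] at h2
  omega

lemma exists_hom_zero_div {I : Ideal (MvPolynomial σ ℂ)} (hI : IsHom w I) (h1 : I ≠ ⊤)
    (h2 : ¬ I.IsPrime) : ∃ g h δ ε, g ∈ Gr w δ ∧ h ∈ Gr w ε ∧ g ∉ I ∧ h ∉ I ∧ g * h ∈ I := by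
  by_contra hne
  apply h2
  let w' : σ → Lex (ℕ × ℕ) := fun i => toLex (w i)
  have hc : ∀ (e : ℕ × ℕ) (p : MvPolynomial σ ℂ),
      weightedHomogeneousComponent w' (toLex e) p = weightedHomogeneousComponent w e p :=
    fun e p => rfl
  have hI' : I.IsHomogeneous (weightedHomogeneousSubmodule ℂ w') := by
    intro e p hp
    have := weightedDecomposition.decompose'_apply ℂ w' p e
    change ((weightedDecomposition ℂ w').decompose' p e : MvPolynomial σ ℂ) ∈ I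
    rw [this]
    exact hI p hp (ofLex e)
  refine hI'.isPrime_of_homogeneous_mem_or_mem h1 ?_
  rintro x y ⟨δ, hx⟩ ⟨ε, hy⟩ hxy
  by_contra hcon
  push Not at hcon
  exact hne ⟨x, y, ofLex δ, ofLex ε, hx, hy, hcon.1, hcon.2, hxy⟩

end General

/-! Algebra of the predicate `Deg`. -/

lemma Deg.congr {H H' : ℕ → ℕ → ℕ} {v : Fin 3 → ℝ} (h : Deg H v) {M : ℕ}
    (he : ∀ a b, M ≤ a → M ≤ b → H' a b = H a b) : Deg H' v := by
  obtain ⟨c₁, c₂, c₀, N, h⟩ := h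
  refine ⟨c₁, c₂, c₀, N + M, fun a b ha hb => ?_⟩
  rw [he a b (by omega) (by omega)]
  exact h a b (by omega) (by omega)

lemma Deg.zero {H : ℕ → ℕ → ℕ} {M : ℕ} (he : ∀ a b, M ≤ a → M ≤ b → H a b = 0) : Deg H 0 :=
  ⟨0, 0, 0, M, fun a b ha hb => by simp [he a b ha hb]⟩

lemma Deg.unique {H : ℕ → ℕ → ℕ} {v v' : Fin 3 → ℝ} (h : Deg H v) (h' : Deg H v') : v = v' := by
  obtain ⟨c₁, c₂, c₀, N, h⟩ := h
  obtain ⟨d₁, d₂, d₀, M, h'⟩ := h'
  set K := N + M with hK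
  have key : ∀ a b : ℕ, K ≤ a → K ≤ b →
      v 0 * (a : ℝ) ^ 2 / 2 + v 1 * a * b + v 2 * (b : ℝ) ^ 2 / 2 + c₁ * a + c₂ * b + c₀ =
      v' 0 * (a : ℝ) ^ 2 / 2 + v' 1 * a * b + v' 2 * (b : ℝ) ^ 2 / 2 + d₁ * a + d₂ * b + d₀ := by
    intro a b ha hb
    rw [← h a b (by omega) (by omega), ← h' a b (by omega) (by omega)]
  have h1 := key K K (by omega) (by omega)
  have h2 := key K (K + 1) (by omega) (by omega)
  have h3 := key K (K + 2) (by omega) (by omega)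
  have h4 := key (K + 1) K (by omega) (by omega)
  have h5 := key (K + 1) (K + 1) (by omega) (by omega)
  have h6 := key (K + 2) K (by omega) (by omega)
  push_cast at h1 h2 h3 h4 h5 h6
  have e0 : v 0 = v' 0 := by linear_combination (h6 - 2 * h4 + h1)
  have e2 : v 2 = v' 2 := by linear_combination (h3 - 2 * h2 + h1)
  have e1 : v 1 = v' 1 := by linear_combination (h5 - h4 - h2 + h1)
  funext i
  fin_cases i
  exacts [e0, e1, e2]

/-- `H (a + p) (b + q) = H₁ (a + p) (b + q) + H₂ a b`. -/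
lemma Deg.add_shift {H H₁ H₂ : ℕ → ℕ → ℕ} {v₁ v₂ : Fin 3 → ℝ} (h₁ : Deg H₁ v₁) (h₂ : Deg H₂ v₂)
    {p q : ℕ} (he : ∀ a b, H₁ (p + a) (q + b) + H₂ a b = H (p + a) (q + b)) :
    Deg H (v₁ + v₂) := by
  obtain ⟨c₁, c₂, c₀, N, h₁⟩ := h₁
  obtain ⟨d₁, d₂, d₀, M, h₂⟩ := h₂
  refine ⟨c₁ + d₁ - v₂ 0 * p - v₂ 1 * q, c₂ + d₂ - v₂ 1 * p - v₂ 2 * q,
    c₀ + d₀ - d₁ * p - d₂ * q + v₂ 0 * p ^ 2 / 2 + v₂ 1 * p * q + v₂ 2 * q ^ 2 / 2,
    N + M + p + q, fun a b ha hb => ?_⟩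
  obtain ⟨a, rfl⟩ := Nat.exists_eq_add_of_le (show p ≤ a by omega)
  obtain ⟨b, rfl⟩ := Nat.exists_eq_add_of_le (show q ≤ b by omega)
  rw [← he]
  push_cast
  rw [h₂ a b (by omega) (by omega)]
  have := h₁ (p + a) (q + b) (by omega) (by omega)
  push_cast at this
  rw [this]
  simp only [Pi.add_apply]
  ring

lemma Deg.eq_zero_of_small {H : ℕ → ℕ → ℕ} {v : Fin 3 → ℝ} (h : Deg H v) {d₁ d₂ d₀ : ℝ} {M : ℕ}
    (hs : ∀ a b : ℕ, M ≤ a → M ≤ b → (H a b : ℝ) ≤ d₁ * a + d₂ * b + d₀) : v = 0 := by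
  have h0 := h.nonneg0
  have h2 := h.nonneg2
  obtain ⟨c₁, c₂, c₀, N, h⟩ := h
  set K := N + M with hK
  have k0 := lead_nonneg (A := - v 0 / 2) (B := d₁ - (v 1 * K + c₁))
    (C := d₂ * K + d₀ - (v 2 * (K : ℝ) ^ 2 / 2 + c₂ * K + c₀))
    (N := K) fun n hn => by
      have h1 := h n K (by omega) (by omega)
      have h2 := hs n K (by omega) (by omega)
      linarith
  have k2 := lead_nonneg (A := - v 2 / 2) (B := d₂ - (v 1 * K + c₂))
    (C := d₁ * K + d₀ - (v 0 * (K : ℝ) ^ 2 / 2 + c₁ * K + c₀))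
    (N := K) fun n hn => by
      have h1 := h K n (by omega) (by omega)
      have h2 := hs K n (by omega) (by omega)
      linarith
  have k3 := lead_nonneg (A := v 0 / 2 + v 1 + v 2 / 2) (B := c₁ + c₂) (C := c₀)
    (N := K) fun n hn => by
      have h1 := h n n (by omega) (by omega)
      have h2 : (0 : ℝ) ≤ H n n := Nat.cast_nonneg _
      nlinarith
  have k4 := lead_nonneg (A := -(v 0 / 2 + v 1 + v 2 / 2)) (B := d₁ + d₂ - (c₁ + c₂))
    (C := d₀ - c₀) (N := K) fun n hn => by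
      have h1 := h n n (by omega) (by omega)
      have h2 := hs n n (by omega) (by omega)
      nlinarith
  funext i
  fin_cases i <;> simp <;> linarith

lemma Deg.le_of_le {H H' : ℕ → ℕ → ℕ} {v v' : Fin 3 → ℝ} (h : Deg H v) (h' : Deg H' v')
    (hle : ∀ a b, H a b ≤ H' a b) : 2 * v 1 ≤ v' 0 + 2 * v' 1 + v' 2 := by
  have h0 := h.nonneg0
  have h2 := h.nonneg2
  obtain ⟨c₁, c₂, c₀, N, h⟩ := h
  obtain ⟨d₁, d₂, d₀, M, h'⟩ := h'
  have k := lead_nonneg (A := v' 0 / 2 + v' 1 + v' 2 / 2 - (v 0 / 2 + v 1 + v 2 / 2))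
    (B := d₁ + d₂ - (c₁ + c₂)) (C := d₀ - c₀) (N := N + M) fun n hn => by
      have h1 := h n n (by omega) (by omega)
      have h2 := h' n n (by omega) (by omega)
      have h3 : (H n n : ℝ) ≤ H' n n := by exact_mod_cast hle n n
      nlinarith
  linarith

lemma lead3_nonneg {A B C D : ℝ} {N : ℕ}
    (h : ∀ n : ℕ, N ≤ n → 0 ≤ A * (n : ℝ) ^ 3 + B * (n : ℝ) ^ 2 + C * n + D) : 0 ≤ A := by
  refine lead_nonneg (B := B) (C := C + |D|) (N := N + 1) fun n hn => ?_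
  have h1 := h n (by omega)
  have h2 : (1 : ℝ) ≤ n := by exact_mod_cast (show 1 ≤ n by omega)
  have h3 : D ≤ |D| * n := by nlinarith [le_abs_self D, abs_nonneg D]
  by_contra hc
  push Not at hc
  nlinarith

/-- Discrete integration. -/
lemma Deg.integrate {H H₁ H₂ H₀ : ℕ → ℕ → ℕ} {v₁ v₂ v₀ : Fin 3 → ℝ} (h₁ : Deg H₁ v₁)
    (h₂ : Deg H₂ v₂) (h₀ : Deg H₀ v₀) (e₁ : ∀ a b, H₁ (1 + a) b + H a b = H (1 + a) b)
    (e₂ : ∀ a b, H₂ a (1 + b) + H a b = H a (1 + b)) (hle : ∀ a b, H a b ≤ H₀ a b) :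
    ∃ v, Deg H v := by
  obtain ⟨c₁, c₂, c₀, N₁, h₁⟩ := h₁
  obtain ⟨d₁, d₂, d₀, N₂, h₂⟩ := h₂
  obtain ⟨f₁, f₂, f₀, N₀, h₀⟩ := h₀
  set N := N₁ + N₂ + N₀ with hN
  let P : ℝ → ℝ → ℝ := fun x y => v₁ 0 / 2 * (x * (x + 1) * (2 * x + 1) / 6) +
    (v₁ 1 * y + c₁) * (x * (x + 1) / 2) + (v₁ 2 * y ^ 2 / 2 + c₂ * y + c₀) * x
  let Q : ℝ → ℝ → ℝ := fun x y => v₂ 2 / 2 * (y * (y + 1) * (2 * y + 1) / 6) +
    (v₂ 1 * x + d₂) * (y * (y + 1) / 2) + (v₂ 0 * x ^ 2 / 2 + d₁ * x + d₀) * y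
  have s1 : ∀ a, N ≤ a → (H a N : ℝ) = H N N + (P a N - P N N) := by
    intro a ha
    induction a, ha using Nat.le_induction with
    | base => simp
    | succ a ha ih =>
      have := congrArg (Nat.cast : ℕ → ℝ) (e₁ a N)
      push_cast at this
      rw [h₁ (1 + a) N (by omega) (by omega), ih, add_comm 1 a] at this
      rw [← this]
      simp only [P]
      push_cast
      ring
  have s2 : ∀ a b, N ≤ a → N ≤ b → (H a b : ℝ) = H a N + (Q a b - Q a N) := by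
    intro a b ha hb
    induction b, hb using Nat.le_induction with
    | base => simp
    | succ b hb ih =>
      have := congrArg (Nat.cast : ℕ → ℝ) (e₂ a b)
      push_cast at this
      rw [h₂ a (1 + b) (by omega) (by omega), ih, add_comm 1 b] at this
      rw [← this]
      simp only [Q]
      push_cast
      ring
  let R : ℝ → ℝ → ℝ := fun x y => H N N + (P x N - P N N) + (Q x y - Q x N)
  have s3 : ∀ a b : ℕ, N ≤ a → N ≤ b → (H a b : ℝ) = R a b := by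
    intro a b ha hb
    rw [s2 a b ha hb, s1 a ha]
  have cub : ∀ i j : ℕ, 1 ≤ i → 1 ≤ j → v₁ 0 / 6 * (i : ℝ) ^ 3 + v₂ 0 / 2 * (i : ℝ) ^ 2 * j +
      v₂ 1 / 2 * i * (j : ℝ) ^ 2 + v₂ 2 / 6 * (j : ℝ) ^ 3 = 0 := by
    intro i j hi hj
    set A := v₁ 0 / 6 * (i : ℝ) ^ 3 + v₂ 0 / 2 * (i : ℝ) ^ 2 * j +
      v₂ 1 / 2 * i * (j : ℝ) ^ 2 + v₂ 2 / 6 * (j : ℝ) ^ 3 with hA
    let S : ℝ → ℝ := fun t => R (i * t) (j * t) - A * t ^ 3
    have hS : ∀ t : ℝ, R (i * t) (j * t) = A * t ^ 3 + ((S 2 - 2 * S 1 + S 0) / 2) * t ^ 2 +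
        ((4 * S 1 - S 2 - 3 * S 0) / 2) * t + S 0 := by
      intro t
      simp only [S, R, P, Q, hA]
      ring
    have k1 := lead3_nonneg (A := A) (B := (S 2 - 2 * S 1 + S 0) / 2)
      (C := (4 * S 1 - S 2 - 3 * S 0) / 2) (D := S 0) (N := N) fun n hn => by
        rw [← hS, ← Nat.cast_mul, ← Nat.cast_mul, ← s3 _ _ (by nlinarith) (by nlinarith)]
        exact Nat.cast_nonneg _
    have k2 := lead3_nonneg (A := -A)
      (B := v₀ 0 * (i : ℝ) ^ 2 / 2 + v₀ 1 * i * j + v₀ 2 * (j : ℝ) ^ 2 / 2 -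
        (S 2 - 2 * S 1 + S 0) / 2)
      (C := f₁ * i + f₂ * j - (4 * S 1 - S 2 - 3 * S 0) / 2) (D := f₀ - S 0) (N := N)
      fun n hn => by
        have t1 := hS n
        rw [← Nat.cast_mul, ← Nat.cast_mul, ← s3 _ _ (by nlinarith) (by nlinarith)] at t1
        have t2 := h₀ (i * n) (j * n) (by nlinarith) (by nlinarith)
        have t3 : (H (i * n) (j * n) : ℝ) ≤ H₀ (i * n) (j * n) := by exact_mod_cast hle _ _
        push_cast at t2
        nlinarith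
    linarith
  have q1 := cub 1 1 le_rfl le_rfl
  have q2 := cub 1 2 le_rfl (by omega)
  have q3 := cub 2 1 (by omega) le_rfl
  have q4 := cub 1 3 le_rfl (by omega)
  push_cast at q1 q2 q3 q4
  have z1 : v₁ 0 = 0 := by linarith
  have z2 : v₂ 0 = 0 := by linarith
  have z3 : v₂ 1 = 0 := by linarith
  have z4 : v₂ 2 = 0 := by linarith
  refine ⟨![R 2 0 - 2 * R 1 0 + R 0 0, R 1 1 - R 1 0 - R 0 1 + R 0 0, R 0 2 - 2 * R 0 1 + R 0 0],
    (4 * R 1 0 - R 2 0 - 3 * R 0 0) / 2, (4 * R 0 1 - R 0 2 - 3 * R 0 0) / 2, R 0 0, N,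
    fun a b ha hb => ?_⟩
  rw [s3 a b ha hb]
  simp only [R, P, Q, z1, z2, z3, z4, Matrix.cons_val_zero, Matrix.cons_val_one, Matrix.cons_val]
  ring

end Pool.Agent.MP_f1b239_ag
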